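import Mathlib

/-! Definitions for MP_73203d_an: the set `K_f` of the stationarity inclusion, the wave cone
(gradient in the first slot, divergence free in the others), rank-one convexity and strong
quasiconvexity. -/

open MeasureTheory

namespace MP73203d

/-- Real matrices with `n` rows and `m` columns. -/
abbrev Mat (n m : ℕ) := Fin n → Fin m → ℝ

/-- Triples `(X, Y, Z)` with `X, Y` of size `n × m` and `Z` of size `m × m`. -/
abbrev State (n m : ℕ) := Mat n m × Mat n m × Mat m m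

/-- `Y` is the gradient `Df(X)` of `f` at `X` (for the Euclidean scalar product of matrices). -/
def Grad {n m : ℕ} (f : Mat n m → ℝ) (X Y : Mat n m) : Prop :=
  DifferentiableAt ℝ f X ∧ ∀ H : Mat n m, fderiv ℝ f X H = ∑ i, ∑ j, Y i j * H i j

/-- `(X, Y, Z)` lies in `K_f`: `Y = Df(X)` and `Z = Xᵀ Df(X) - f(X) I`. -/
def OnK {n m : ℕ} (f : Mat n m → ℝ) (U : State n m) : Prop :=
  Grad f U.1 U.2.1 ∧
    ∀ j k : Fin m, U.2.2 j k = (∑ i, U.1 i j * U.2.1 i k) - if j = k then f U.1 else 0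

/-- `U` and `V` differ by an element of the wave cone: for some `ν ≠ 0` and some `a`,
`X_U - X_V = a ⊗ ν`, `(Y_U - Y_V) ν = 0` and `(Z_U - Z_V) ν = 0`. -/
def Conn {n m : ℕ} (U V : State n m) : Prop :=
  ∃ (a : Fin n → ℝ) (ν : Fin m → ℝ), ν ≠ 0 ∧
    (∀ i j, U.1 i j - V.1 i j = a i * ν j) ∧
    (∀ i, ∑ j, (U.2.1 i j - V.2.1 i j) * ν j = 0) ∧
    (∀ i, ∑ j, (U.2.2 i j - V.2.2 i j) * ν j = 0)

/-- `f` is differentiable and strictly convex along every rank-one line. -/
def StrictlyRankOneConvex {n m : ℕ} (f : Mat n m → ℝ) : Prop :=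
  Differentiable ℝ f ∧ ∀ (X : Mat n m) (a : Fin n → ℝ) (ν : Fin m → ℝ), a ≠ 0 → ν ≠ 0 →
    StrictConvexOn ℝ Set.univ (fun t : ℝ => f (fun i j => X i j + t * (a i * ν j)))

/-- The matrix of first partial derivatives of `φ` at `x`. -/
noncomputable def Dmat {n m : ℕ} (φ : EuclideanSpace ℝ (Fin m) → (Fin n → ℝ))
    (x : EuclideanSpace ℝ (Fin m)) : Mat n m :=
  fun i j => fderiv ℝ φ x (EuclideanSpace.single j 1) i

/-- `f` is strongly quasiconvex: for some `γ > 0`, all matrices `X` and all smooth `φ` with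
compact support in the open unit ball `B`, the integral over `B` of `f (X + Dφ)` is at least
that of `f X + γ |Dφ|²`. -/
def StronglyQuasiconvex {n m : ℕ} (f : Mat n m → ℝ) : Prop :=
  ∃ γ : ℝ, 0 < γ ∧ ∀ (X : Mat n m) (φ : EuclideanSpace ℝ (Fin m) → (Fin n → ℝ)),
    (∀ k : ℕ, ContDiff ℝ k φ) → HasCompactSupport φ → tsupport φ ⊆ Metric.ball 0 1 →
    ∫ x in Metric.ball (0 : EuclideanSpace ℝ (Fin m)) 1, (f X + γ * ∑ i, ∑ j, Dmat φ x i j ^ 2) ≤
      ∫ x in Metric.ball (0 : EuclideanSpace ℝ (Fin m)) 1, f (X + Dmat φ x)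

end MP73203d
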