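import Pool.Agent.MP_73203d_an.LamDefs

/-! The algebra of one splitting of a laminate: the bilinear form `s · M(U) t`. -/

open Filter Topology Finset

namespace MP73203d

variable {n m : ℕ}

/-- `s · M(U) t = s · Z t - ∑ i, (X s)_i (Y t)_i`. -/
def Nst (s t : Fin m → ℝ) (U : State n m) : ℝ :=
  (∑ j, ∑ k, s j * U.2.2 j k * t k) - ∑ i, (∑ j, U.1 i j * s j) * (∑ k, U.2.1 i k * t k)

lemma Nst_eq (s t : Fin m → ℝ) (U : State n m) :
    Nst s t U = ∑ j, ∑ k, s j * MM U j k * t k := by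
  have h : ∀ j k, s j * MM U j k * t k = s j * U.2.2 j k * t k
      - ∑ i, (U.1 i j * s j) * (U.2.1 i k * t k) := by
    intro j k
    unfold MM
    rw [mul_sub, sub_mul, Finset.mul_sum, Finset.sum_mul]
    congr 1
    exact Finset.sum_congr rfl fun i _ => by ring
  simp_rw [h, Finset.sum_sub_distrib]
  unfold Nst
  congr 1
  simp_rw [Finset.sum_mul_sum]
  rw [Finset.sum_comm]
  have : ∀ j, ∑ k, ∑ i, (U.1 i j * s j) * (U.2.1 i k * t k)
      = ∑ i, ∑ k, (U.1 i j * s j) * (U.2.1 i k * t k) := fun j => Finset.sum_comm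
  simp_rw [this]

/-- The increment `⟨X(child) - X(parent), Y(parent)⟩`. -/
def incXY (U W : State n m) : ℝ := ∑ i, ∑ j, (W.1 i j - U.1 i j) * U.2.1 i j

section
variable {ν : Fin m → ℝ} {U W : State n m} {a : Fin n → ℝ} {r : ℝ}
  (hX : ∀ i j, W.1 i j - U.1 i j = r * (a i * ν j))
  (hY : ∀ i, ∑ j, (W.2.1 i j - U.2.1 i j) * ν j = 0)
  (hZ : ∀ i, ∑ j, (W.2.2 i j - U.2.2 i j) * ν j = 0)

include hX in
lemma incXY_eq : incXY U W = r * ∑ i, a i * ∑ j, U.2.1 i j * ν j := by
  unfold incXY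
  rw [Finset.mul_sum]
  refine Finset.sum_congr rfl fun i _ => ?_
  rw [Finset.mul_sum, Finset.mul_sum]
  exact Finset.sum_congr rfl fun j _ => by rw [hX i j]; ring

include hX hY hZ in
/-- In the direction of the normal. -/
lemma Nst_normal (s : Fin m → ℝ) :
    Nst s ν W = Nst s ν U - (∑ j, s j * ν j) * incXY U W := by
  rw [incXY_eq hX]
  have e1 : ∀ i, ∑ j, W.2.1 i j * ν j = ∑ j, U.2.1 i j * ν j := by
    intro i
    have := hY i
    simp_rw [sub_mul] at this
    rw [Finset.sum_sub_distrib] at this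
    linarith
  have e2 : ∀ j, ∑ k, s j * W.2.2 j k * ν k = ∑ k, s j * U.2.2 j k * ν k := by
    intro j
    have := hZ j
    simp_rw [sub_mul] at this
    rw [Finset.sum_sub_distrib] at this
    have h : ∀ (M : Mat m m), ∑ k, s j * M j k * ν k = s j * ∑ k, M j k * ν k := by
      intro M
      rw [Finset.mul_sum]
      exact Finset.sum_congr rfl fun k _ => by ring
    rw [h, h]
    congr 1
    linarith
  have e3 : ∀ i, ∑ j, W.1 i j * s j = (∑ j, U.1 i j * s j) + r * a i * ∑ j, s j * ν j := by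
    intro i
    rw [Finset.mul_sum, ← Finset.sum_add_distrib]
    refine Finset.sum_congr rfl fun j _ => ?_
    have := hX i j
    linear_combination (s j) * this
  unfold Nst
  simp_rw [e1, e2, e3]
  have e4 : ∀ i, ((∑ j, U.1 i j * s j) + r * a i * ∑ j, s j * ν j) * ∑ k, U.2.1 i k * ν k
      = (∑ j, U.1 i j * s j) * (∑ k, U.2.1 i k * ν k)
        + (∑ j, s j * ν j) * (r * (a i * ∑ k, U.2.1 i k * ν k)) := fun i => by ring
  simp_rw [e4]
  rw [Finset.sum_add_distrib, ← Finset.mul_sum, ← Finset.mul_sum]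
  ring

include hX in
/-- Transversally to the normal. -/
lemma Nst_orth (s t : Fin m → ℝ) (hs : ∑ j, s j * ν j = 0) :
    Nst s t W = Nst s t U + ((∑ j, ∑ k, s j * (W.2.2 j k - U.2.2 j k) * t k)
      - ∑ i, (∑ j, U.1 i j * s j) * (∑ k, (W.2.1 i k - U.2.1 i k) * t k)) := by
  have e3 : ∀ i, ∑ j, W.1 i j * s j = ∑ j, U.1 i j * s j := by
    intro i
    have : ∑ j, (W.1 i j * s j - U.1 i j * s j) = 0 := by
      have h : ∀ j, W.1 i j * s j - U.1 i j * s j = (r * a i) * (s j * ν j) := by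
        intro j
        linear_combination (s j) * hX i j
      simp_rw [h]
      rw [← Finset.mul_sum, hs, mul_zero]
    rw [Finset.sum_sub_distrib] at this
    linarith
  unfold Nst
  simp_rw [e3]
  have e4 : ∀ i, ∑ k, (W.2.1 i k - U.2.1 i k) * t k
      = (∑ k, W.2.1 i k * t k) - ∑ k, U.2.1 i k * t k := by
    intro i; rw [← Finset.sum_sub_distrib]; exact Finset.sum_congr rfl fun k _ => by ring
  have e5 : ∀ j, ∑ k, s j * (W.2.2 j k - U.2.2 j k) * t k
      = (∑ k, s j * W.2.2 j k * t k) - ∑ k, s j * U.2.2 j k * t k := by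
    intro j; rw [← Finset.sum_sub_distrib]; exact Finset.sum_congr rfl fun k _ => by ring
  simp_rw [e4, e5, mul_sub]
  rw [Finset.sum_sub_distrib, Finset.sum_sub_distrib]
  ring

end

/-- The trace of `M(U)` is `∑ j, Z j j - ⟨X, Y⟩`. -/
lemma tr_eq (U : State n m) :
    ∑ j, MM U j j = (∑ j, U.2.2 j j) - ∑ i, ∑ j, U.1 i j * U.2.1 i j := by
  unfold MM
  rw [Finset.sum_sub_distrib]
  congr 1
  exact Finset.sum_comm

end MP73203d
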