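import Pool.Agent.MP_73203d_an.LamAlg

/-! Analytic facts on bounded sets for a function of class `C²` with a gradient of class `C¹`. -/

open Filter Topology Finset

namespace MP73203d

section generic
variable {V : Type*} [NormedAddCommGroup V] [InnerProductSpace ℝ V] [FiniteDimensional ℝ V]
  {φ : V → ℝ} {F : V → V} (hF : ContDiff ℝ 1 F)
  (hφ : ∀ x, HasFDerivAt φ (innerSL ℝ (F x)) x)

include hF in
lemma lip_F (R : ℝ) : ∃ Λ : ℝ, 0 ≤ Λ ∧ (∀ x ∈ Metric.closedBall (0 : V) R, ‖fderiv ℝ F x‖ ≤ Λ) ∧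
    ∀ x ∈ Metric.closedBall (0 : V) R, ∀ y ∈ Metric.closedBall (0 : V) R,
      ‖F y - F x‖ ≤ Λ * ‖y - x‖ := by
  have hc : ContinuousOn (fderiv ℝ F) (Metric.closedBall (0 : V) R) :=
    (hF.continuous_fderiv (by norm_num)).continuousOn
  obtain ⟨Λ, hΛ⟩ := (isCompact_closedBall (0 : V) R).exists_bound_of_continuousOn hc
  refine ⟨max Λ 0, le_max_right _ _, fun x hx => (hΛ x hx).trans (le_max_left _ _),
    fun x hx y hy => ?_⟩
  exact (convex_closedBall (0 : V) R).norm_image_sub_le_of_norm_fderiv_le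
    (fun z _ => hF.differentiable (by norm_num) z)
    (fun z hz => (hΛ z hz).trans (le_max_left _ _)) hx hy

include hF hφ in
lemma up_phi (R : ℝ) : ∃ Λ : ℝ, 0 ≤ Λ ∧
    ∀ x ∈ Metric.closedBall (0 : V) R, ∀ y ∈ Metric.closedBall (0 : V) R,
      φ y ≤ φ x + inner ℝ (F x) (y - x) + Λ * ‖y - x‖ ^ 2 := by
  obtain ⟨Λ, hΛ0, -, hΛ⟩ := lip_F hF R
  refine ⟨Λ, hΛ0, fun x hx y hy => ?_⟩
  have hseg : segment ℝ x y ⊆ Metric.closedBall (0 : V) R :=
    (convex_closedBall (0 : V) R).segment_subset hx hy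
  have h := (convex_segment x y).norm_image_sub_le_of_norm_hasFDerivWithin_le'
    (f := φ) (f' := fun z => innerSL ℝ (F z)) (φ := innerSL ℝ (F x)) (C := Λ * ‖y - x‖)
    (fun z _ => (hφ z).hasFDerivWithinAt) (fun z hz => ?_) (left_mem_segment ℝ x y)
    (right_mem_segment ℝ x y)
  · rw [Real.norm_eq_abs, innerSL_apply_apply] at h
    have h1 := (abs_le.mp h).2
    nlinarith
  · rw [← map_sub, innerSL_apply_norm]
    refine (hΛ x hx z (hseg hz)).trans ?_
    refine mul_le_mul_of_nonneg_left ?_ hΛ0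
    obtain ⟨t, ht, rfl⟩ := segment_eq_image' ℝ x y ▸ hz
    rw [add_sub_cancel_left, norm_smul, Real.norm_eq_abs, abs_of_nonneg ht.1]
    have := mul_le_mul_of_nonneg_right ht.2 (norm_nonneg (y - x))
    linarith

include hF in
lemma diff_F (R : ℝ) {s : ℝ} (hs : 0 < s) : ∃ C : ℝ, 0 ≤ C ∧
    ∀ x ∈ Metric.closedBall (0 : V) R, ∀ y ∈ Metric.closedBall (0 : V) R,
      ‖F y - F x - fderiv ℝ F x (y - x)‖ ≤ s * ‖y - x‖ + C * ‖y - x‖ ^ 2 := by
  obtain ⟨Λ, hΛ0, hΛ1, hΛ⟩ := lip_F hF R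
  have hc : ContinuousOn (fderiv ℝ F) (Metric.closedBall (0 : V) R) :=
    (hF.continuous_fderiv (by norm_num)).continuousOn
  have huc := (isCompact_closedBall (0 : V) R).uniformContinuousOn_of_continuous hc
  rw [Metric.uniformContinuousOn_iff] at huc
  obtain ⟨δ, hδ, hu⟩ := huc s hs
  refine ⟨2 * Λ / δ, by positivity, fun x hx y hy => ?_⟩
  rcases lt_or_ge ‖y - x‖ δ with hlt | hge
  · have hseg : segment ℝ x y ⊆ Metric.closedBall (0 : V) R :=
      (convex_closedBall (0 : V) R).segment_subset hx hy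
    have h := (convex_segment x y).norm_image_sub_le_of_norm_hasFDerivWithin_le'
      (f := F) (f' := fderiv ℝ F) (φ := fderiv ℝ F x) (C := s)
      (fun z _ => (hF.differentiable (by norm_num) z).hasFDerivAt.hasFDerivWithinAt)
      (fun z hz => ?_) (left_mem_segment ℝ x y) (right_mem_segment ℝ x y)
    · have : 0 ≤ 2 * Λ / δ * ‖y - x‖ ^ 2 := by positivity
      linarith
    · rw [← dist_eq_norm]
      refine (hu z (hseg hz) x hx ?_).le
      obtain ⟨t, ht, rfl⟩ := segment_eq_image' ℝ x y ▸ hz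
      rw [dist_eq_norm, add_sub_cancel_left, norm_smul, Real.norm_eq_abs, abs_of_nonneg ht.1]
      have := mul_le_mul_of_nonneg_right ht.2 (norm_nonneg (y - x))
      linarith
  · have h1 : ‖F y - F x - fderiv ℝ F x (y - x)‖ ≤ 2 * Λ * ‖y - x‖ := by
      refine (norm_sub_le _ _).trans ?_
      have h2 := hΛ x hx y hy
      have h3 : ‖fderiv ℝ F x (y - x)‖ ≤ Λ * ‖y - x‖ :=
        (ContinuousLinearMap.le_opNorm _ _).trans
          (mul_le_mul_of_nonneg_right (hΛ1 x hx) (norm_nonneg _))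
      linarith
    have h4 : 2 * Λ * ‖y - x‖ ≤ 2 * Λ / δ * ‖y - x‖ ^ 2 := by
      rw [div_mul_eq_mul_div, le_div_iff₀ hδ]
      have := mul_le_mul_of_nonneg_left hge (by positivity : 0 ≤ 2 * Λ * ‖y - x‖)
      linarith
    have : 0 ≤ s * ‖y - x‖ := by positivity
    linarith

include hF hφ in
lemma low_phi {R γ : ℝ} {x Δ : V} (hx : x ∈ Metric.closedBall (0 : V) R)
    (hy : x + Δ ∈ Metric.closedBall (0 : V) R)
    (h : ∀ z ∈ Metric.closedBall (0 : V) R, 2 * γ * ‖Δ‖ ^ 2 ≤ inner ℝ (fderiv ℝ F z Δ) Δ) :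
    φ x + inner ℝ (F x) Δ + γ * ‖Δ‖ ^ 2 ≤ φ (x + Δ) := by
  have hline : ∀ t : ℝ, HasDerivAt (fun t : ℝ => x + t • Δ) Δ t := fun t => by
    have := ((hasDerivAt_id t).smul_const Δ).const_add x
    simpa using this
  have hmem : ∀ t ∈ Set.Icc (0 : ℝ) 1, x + t • Δ ∈ Metric.closedBall (0 : V) R := by
    intro t ht
    have e : x + t • Δ = (1 - t) • x + t • (x + Δ) := by module
    rw [e]
    exact convex_closedBall (0 : V) R hx hy (by linarith [ht.2]) ht.1 (by ring)
  have hp1 : ∀ t : ℝ, HasDerivAt (fun t : ℝ => inner ℝ (F (x + t • Δ)) Δ - inner ℝ (F x) Δ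
      - 2 * γ * t * ‖Δ‖ ^ 2) (inner ℝ (fderiv ℝ F (x + t • Δ) Δ) Δ - 2 * γ * ‖Δ‖ ^ 2) t := by
    intro t
    have e1 : HasDerivAt (fun t : ℝ => F (x + t • Δ)) (fderiv ℝ F (x + t • Δ) Δ) t :=
      (hF.differentiable (by norm_num) _).hasFDerivAt.comp_hasDerivAt t (hline t)
    have e2 : HasDerivAt (fun t : ℝ => inner ℝ (F (x + t • Δ)) Δ)
        (inner ℝ (fderiv ℝ F (x + t • Δ) Δ) Δ) t := by
      have := e1.inner ℝ (hasDerivAt_const t Δ)
      simpa using this
    have e3 : HasDerivAt (fun t : ℝ => 2 * γ * t * ‖Δ‖ ^ 2) (2 * γ * ‖Δ‖ ^ 2) t := by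
      have := ((hasDerivAt_id t).const_mul (2 * γ)).mul_const (‖Δ‖ ^ 2)
      simpa using this
    exact (e2.sub_const _).sub e3
  have hm1 : MonotoneOn (fun t : ℝ => inner ℝ (F (x + t • Δ)) Δ - inner ℝ (F x) Δ
      - 2 * γ * t * ‖Δ‖ ^ 2) (Set.Icc 0 1) := by
    refine monotoneOn_of_deriv_nonneg (convex_Icc 0 1)
      (fun t _ => (hp1 t).continuousAt.continuousWithinAt)
      (fun t _ => (hp1 t).differentiableAt.differentiableWithinAt) (fun t ht => ?_)
    rw [interior_Icc] at ht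
    rw [(hp1 t).deriv]
    have := h _ (hmem t ⟨ht.1.le, ht.2.le⟩)
    linarith
  have hp : ∀ t : ℝ, HasDerivAt (fun t : ℝ => φ (x + t • Δ) - t * inner ℝ (F x) Δ
      - γ * t ^ 2 * ‖Δ‖ ^ 2) (inner ℝ (F (x + t • Δ)) Δ - inner ℝ (F x) Δ
      - 2 * γ * t * ‖Δ‖ ^ 2) t := by
    intro t
    have e1 : HasDerivAt (fun t : ℝ => φ (x + t • Δ)) (inner ℝ (F (x + t • Δ)) Δ) t := by
      have := (hφ (x + t • Δ)).comp_hasDerivAt t (hline t)
      rw [innerSL_apply_apply] at this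
      exact this
    have e2 : HasDerivAt (fun t : ℝ => t * inner ℝ (F x) Δ) (inner ℝ (F x) Δ) t := by
      simpa using (hasDerivAt_id t).mul_const (inner ℝ (F x) Δ)
    have e3 : HasDerivAt (fun t : ℝ => γ * t ^ 2 * ‖Δ‖ ^ 2) (2 * γ * t * ‖Δ‖ ^ 2) t := by
      have := ((hasDerivAt_pow 2 t).const_mul γ).mul_const (‖Δ‖ ^ 2)
      refine this.congr_deriv ?_
      push_cast
      ring
    exact (e1.sub e2).sub e3
  have hm : MonotoneOn (fun t : ℝ => φ (x + t • Δ) - t * inner ℝ (F x) Δ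
      - γ * t ^ 2 * ‖Δ‖ ^ 2) (Set.Icc 0 1) := by
    refine monotoneOn_of_deriv_nonneg (convex_Icc 0 1)
      (fun t _ => (hp t).continuousAt.continuousWithinAt)
      (fun t _ => (hp t).differentiableAt.differentiableWithinAt) (fun t ht => ?_)
    rw [interior_Icc] at ht
    rw [(hp t).deriv]
    have := hm1 (Set.left_mem_Icc.mpr zero_le_one) (⟨ht.1.le, ht.2.le⟩ : t ∈ Set.Icc (0 : ℝ) 1)
      ht.1.le
    simpa using this
  have := hm (Set.left_mem_Icc.mpr zero_le_one) (Set.right_mem_Icc.mpr zero_le_one)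
    zero_le_one
  simp only [zero_smul, add_zero, zero_mul, sub_zero, one_smul, one_mul, one_pow, mul_one] at this
  have e0 : γ * 0 ^ 2 * ‖Δ‖ ^ 2 = 0 := by ring
  rw [e0] at this
  linarith

/-- A `C¹` map that vanishes on `K` is bounded by the distance to the points of `K`, on bounded
sets. -/
lemma le_dist_of_vanish {S E : Type*} [NormedAddCommGroup S] [NormedSpace ℝ S]
    [FiniteDimensional ℝ S] [NormedAddCommGroup E] [NormedSpace ℝ E] {Ψ : S → E}
    (hΨ : ContDiff ℝ 1 Ψ) (R : ℝ) : ∃ C : ℝ, 0 ≤ C ∧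
    ∀ U ∈ Metric.closedBall (0 : S) R, ∀ A, Ψ A = 0 → ‖Ψ U‖ ≤ C * dist U A := by
  have hc : ContinuousOn (fderiv ℝ Ψ) (Metric.closedBall (0 : S) (R + 1)) :=
    (hΨ.continuous_fderiv (by norm_num)).continuousOn
  obtain ⟨L, hL⟩ := (isCompact_closedBall (0 : S) (R + 1)).exists_bound_of_continuousOn hc
  obtain ⟨M, hM⟩ := (isCompact_closedBall (0 : S) R).exists_bound_of_continuousOn
    hΨ.continuous.continuousOn
  refine ⟨max L 0 + max M 0, by positivity, fun U hU A hA => ?_⟩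
  rcases le_or_gt (dist U A) 1 with hle | hgt
  · have hU' : U ∈ Metric.closedBall (0 : S) (R + 1) :=
      Metric.closedBall_subset_closedBall (by linarith) hU
    have hA' : A ∈ Metric.closedBall (0 : S) (R + 1) := by
      rw [mem_closedBall_zero_iff] at hU ⊢
      have h1 : ‖A‖ ≤ ‖U‖ + ‖A - U‖ := by
        have := norm_add_le U (A - U)
        rwa [add_sub_cancel] at this
      rw [dist_comm, dist_eq_norm] at hle
      linarith
    have h := (convex_closedBall (0 : S) (R + 1)).norm_image_sub_le_of_norm_fderiv_le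
      (f := Ψ) (fun z _ => hΨ.differentiable (by norm_num) z) hL hA' hU'
    rw [hA, sub_zero, ← dist_eq_norm] at h
    refine h.trans (mul_le_mul_of_nonneg_right ?_ dist_nonneg)
    have := le_max_left L 0
    have := le_max_right M 0
    linarith
  · refine (hM U hU).trans ?_
    have h1 := le_max_left M 0
    have h2 := le_max_right L 0
    have h3 := le_max_right M 0
    nlinarith

end generic

end MP73203d
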