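import Mathlib

/-! Finite binary trees with weights: laminates of finite order. -/

namespace MP73203d

/-- A finite binary tree whose leaves carry elements of `α` and whose inner nodes carry a weight:
`leaf a` is the Dirac mass at `a`, and `node c l r` is `c` times `l` plus `1 - c` times `r`. -/
inductive Tr (α : Type*) where
  | leaf : α → Tr α
  | node : ℝ → Tr α → Tr α → Tr α

namespace Tr

/-- The mean of `ψ` over the leaves. -/
noncomputable def mean {α W : Type*} [AddCommGroup W] [Module ℝ W] (ψ : α → W) : Tr α → W
  | leaf a => ψ a
  | node c l r => c • mean ψ l + (1 - c) • mean ψ r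

/-- All leaves satisfy `p`. -/
def All {α : Type*} (p : α → Prop) : Tr α → Prop
  | leaf a => p a
  | node _ l r => All p l ∧ All p r

/-- All weights lie in `[0, 1]`. -/
def Wt {α : Type*} : Tr α → Prop
  | leaf _ => True
  | node c l r => (0 ≤ c ∧ c ≤ 1) ∧ Wt l ∧ Wt r

end Tr

end MP73203d
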