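import Pool.Agent.MP_73203d_an.Spec
import Pool.Agent.MP_73203d_an.TreeDefs

/-! Definitions for laminates of finite order. -/

open Finset

namespace MP73203d

variable {n m : ℕ}

/-- `U` and `V` differ by an element of the wave cone with normal `ν`: for some `a`,
`X_U - X_V = a ⊗ ν`, `(Y_U - Y_V) ν = 0` and `(Z_U - Z_V) ν = 0`. -/
def ConnAlong (ν : Fin m → ℝ) (U V : State n m) : Prop :=
  ∃ a : Fin n → ℝ,
    (∀ i j, U.1 i j - V.1 i j = a i * ν j) ∧
    (∀ i, ∑ j, (U.2.1 i j - V.2.1 i j) * ν j = 0) ∧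
    (∀ i, ∑ j, (U.2.2 i j - V.2.2 i j) * ν j = 0)

/-- The strict Legendre-Hadamard condition `D²f(X)[a ⊗ ν, a ⊗ ν] > 0`. -/
def StrictLH (f : Mat n m → ℝ) : Prop :=
  ∀ (X : Mat n m) (a : Fin n → ℝ) (ν : Fin m → ℝ), a ≠ 0 → ν ≠ 0 →
    0 < fderiv ℝ (fderiv ℝ f) X (fun i j => a i * ν j) (fun i j => a i * ν j)

/-- The barycentre of a laminate. -/
noncomputable def bary (t : Tr (State n m)) : State n m := Tr.mean (fun U => U) t

/-- A laminate of finite order: at each inner node the weight lies in `[0, 1]` and the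
barycentres of the two children differ by an element of the wave cone, with a normal `ν ≠ 0`
such that `P ν V W` holds for the barycentres `V`, `W` of the two children. -/
def IsLam (P : (Fin m → ℝ) → State n m → State n m → Prop) : Tr (State n m) → Prop
  | .leaf _ => True
  | .node c l r => (0 ≤ c ∧ c ≤ 1) ∧ IsLam P l ∧ IsLam P r ∧
      ∃ ν : Fin m → ℝ, ν ≠ 0 ∧ ConnAlong ν (bary l) (bary r) ∧ P ν (bary l) (bary r)

/-- The normal is one of the vectors `β k`. -/
def InFrame (β : Fin m → Fin m → ℝ) (ν : Fin m → ℝ) (_ _ : State n m) : Prop :=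
  ∃ k, ν = β k

/-- `β` and `β'` are dual bases of `ℝᵐ`. -/
def Dual (β β' : Fin m → Fin m → ℝ) : Prop :=
  ∀ l k, ∑ j, β' k j * β l j = if l = k then 1 else 0

/-- The matrix `M(V) = Z - Xᵀ Y` has in the direction of `ν` its mean eigenvalue:
`ν · M(V) ν / |ν|² = tr M(V) / m`; and so does `M(W)`. -/
def Isotropic (ν : Fin m → ℝ) (V W : State n m) : Prop :=
  (m : ℝ) * ∑ j, ∑ k, ν j * MM V j k * ν k = (∑ j, MM V j j) * ∑ j, ν j ^ 2 ∧
  (m : ℝ) * ∑ j, ∑ k, ν j * MM W j k * ν k = (∑ j, MM W j j) * ∑ j, ν j ^ 2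

end MP73203d
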