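import Pool.Agent.MP_73203d_an.LamAnal

/-! Transfer between matrices and the Euclidean space of their entries. -/

open Filter Topology Finset

namespace MP73203d

variable {n m : ℕ}

/-- The Euclidean space of matrices. -/
abbrev EV (n m : ℕ) := EuclideanSpace ℝ (Fin n × Fin m)

/-- The linear isomorphism from matrices to the Euclidean space. -/
noncomputable def ofMat (n m : ℕ) : Mat n m ≃L[ℝ] EV n m :=
  LinearEquiv.toContinuousLinearEquiv
    { toFun := fun X => WithLp.toLp 2 fun p => X p.1 p.2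
      invFun := fun x i j => x (i, j)
      map_add' := fun X Y => by ext p; simp
      map_smul' := fun c X => by ext p; simp
      left_inv := fun X => rfl
      right_inv := fun x => by ext p; simp }

lemma ofMat_apply (X : Mat n m) (p : Fin n × Fin m) : ofMat n m X p = X p.1 p.2 := rfl

lemma inner_ofMat (X Y : Mat n m) :
    inner ℝ (ofMat n m X) (ofMat n m Y) = ∑ i, ∑ j, X i j * Y i j := by
  rw [PiLp.inner_apply, Fintype.sum_prod_type]
  refine Finset.sum_congr rfl fun i _ => Finset.sum_congr rfl fun j _ => ?_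
  rw [ofMat_apply, ofMat_apply]
  simp [mul_comm]

lemma normsq_ofMat (X : Mat n m) : ‖ofMat n m X‖ ^ 2 = ∑ i, ∑ j, X i j ^ 2 := by
  rw [← real_inner_self_eq_norm_sq, inner_ofMat]
  exact Finset.sum_congr rfl fun i _ => Finset.sum_congr rfl fun j _ => by ring

/-- The matrix unit. -/
def EE (i : Fin n) (j : Fin m) : Mat n m := fun k l => if k = i ∧ l = j then 1 else 0

lemma mat_eq_sum (X : Mat n m) : X = ∑ i, ∑ j, X i j • EE i j := by
  funext k l
  simp only [Finset.sum_apply, Pi.smul_apply, smul_eq_mul, EE, mul_ite, mul_one, mul_zero]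
  rw [Finset.sum_eq_single k, Finset.sum_eq_single l]
  · simp
  · intro j _ hj; simp [Ne.symm hj]
  · simp
  · intro i _ hi
    exact Finset.sum_eq_zero fun j _ => by simp [Ne.symm hi]
  · simp

/-- The vector that represents a linear form. -/
noncomputable def repr (n m : ℕ) : (Mat n m →L[ℝ] ℝ) →L[ℝ] EV n m :=
  LinearMap.toContinuousLinearMap
    { toFun := fun T => ofMat n m fun i j => T (EE i j)
      map_add' := fun T S => by rw [← map_add]; rfl
      map_smul' := fun c T => by rw [← map_smul]; rfl }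

lemma repr_apply (T : Mat n m →L[ℝ] ℝ) : repr n m T = ofMat n m fun i j => T (EE i j) := rfl

lemma inner_repr (T : Mat n m →L[ℝ] ℝ) (X : Mat n m) :
    inner ℝ (repr n m T) (ofMat n m X) = T X := by
  rw [repr_apply, inner_ofMat]
  conv_rhs => rw [mat_eq_sum X]
  simp only [map_sum, map_smul, smul_eq_mul]
  exact Finset.sum_congr rfl fun i _ => Finset.sum_congr rfl fun j _ => by ring

/-- The gradient as a vector field on the Euclidean space. -/
noncomputable def FF (f : Mat n m → ℝ) (x : EV n m) : EV n m :=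
  repr n m (fderiv ℝ f ((ofMat n m).symm x))

lemma contDiff_FF {f : Mat n m → ℝ} (hf : ContDiff ℝ 2 f) : ContDiff ℝ 1 (FF f) := by
  have h1 : ContDiff ℝ 1 (fderiv ℝ f) := hf.fderiv_right (m := 1) (by norm_num)
  exact (repr n m).contDiff.comp (h1.comp (ofMat n m).symm.contDiff)

lemma hasFDerivAt_phi {f : Mat n m → ℝ} (hf : ContDiff ℝ 2 f) (x : EV n m) :
    HasFDerivAt (fun y => f ((ofMat n m).symm y)) (innerSL ℝ (FF f x)) x := by
  have h1 : HasFDerivAt f (fderiv ℝ f ((ofMat n m).symm x)) ((ofMat n m).symm x) :=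
    (hf.differentiable (by norm_num) _).hasFDerivAt
  have h2 := h1.comp x (ofMat n m).symm.hasFDerivAt
  refine h2.congr_fderiv ?_
  ext y
  have := inner_repr (fderiv ℝ f ((ofMat n m).symm x)) ((ofMat n m).symm y)
  rw [ContinuousLinearEquiv.apply_symm_apply] at this
  rw [innerSL_apply_apply]
  exact this.symm

lemma fderiv_FF {f : Mat n m → ℝ} (hf : ContDiff ℝ 2 f) (x : EV n m) (X Y : Mat n m) :
    inner ℝ (fderiv ℝ (FF f) x (ofMat n m X)) (ofMat n m Y)
      = fderiv ℝ (fderiv ℝ f) ((ofMat n m).symm x) X Y := by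
  have h1 : DifferentiableAt ℝ (fderiv ℝ f) ((ofMat n m).symm x) :=
    (hf.fderiv_right (m := 1) (by norm_num)).differentiable (by norm_num) _
  have h2 : HasFDerivAt (FF f) ((repr n m).comp
      ((fderiv ℝ (fderiv ℝ f) ((ofMat n m).symm x)).comp
        ((ofMat n m).symm : EV n m →L[ℝ] Mat n m))) x :=
    (repr n m).hasFDerivAt.comp x (h1.hasFDerivAt.comp x (ofMat n m).symm.hasFDerivAt)
  rw [h2.fderiv]
  have : ((repr n m).comp ((fderiv ℝ (fderiv ℝ f) ((ofMat n m).symm x)).comp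
        ((ofMat n m).symm : EV n m →L[ℝ] Mat n m))) (ofMat n m X)
      = repr n m (fderiv ℝ (fderiv ℝ f) ((ofMat n m).symm x) X) := by
    simp
  rw [this, inner_repr]

/-- The tensor product of two vectors. -/
def tens (p : EuclideanSpace ℝ (Fin n) × EuclideanSpace ℝ (Fin m)) : Mat n m :=
  fun i j => p.1 i * p.2 j

lemma continuous_tens : Continuous (tens (n := n) (m := m)) := by
  refine continuous_pi fun i => continuous_pi fun j => ?_
  unfold tens
  fun_prop

/-- On bounded sets the strict Legendre-Hadamard condition is uniform. -/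
lemma uniform_LH {f : Mat n m → ℝ} (hf : ContDiff ℝ 2 f) (hLH : StrictLH f) (R : ℝ) :
    ∃ γ : ℝ, 0 < γ ∧ ∀ x ∈ Metric.closedBall (0 : EV n m) R, ∀ (a : Fin n → ℝ) (ν : Fin m → ℝ),
      2 * γ * ‖ofMat n m (fun i j => a i * ν j)‖ ^ 2 ≤
        inner ℝ (fderiv ℝ (FF f) x (ofMat n m fun i j => a i * ν j))
          (ofMat n m fun i j => a i * ν j) := by
  classical
  let G : (EuclideanSpace ℝ (Fin n) × EuclideanSpace ℝ (Fin m)) × EV n m → ℝ := fun q =>
    fderiv ℝ (fderiv ℝ f) ((ofMat n m).symm q.2) (tens q.1) (tens q.1)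
  have hG : Continuous G := by
    have h1 : Continuous (fderiv ℝ (fderiv ℝ f)) :=
      (hf.fderiv_right (m := 1) (by norm_num)).continuous_fderiv (by norm_num)
    have h2 : Continuous fun q : (EuclideanSpace ℝ (Fin n) × EuclideanSpace ℝ (Fin m)) × EV n m =>
        fderiv ℝ (fderiv ℝ f) ((ofMat n m).symm q.2) :=
      h1.comp ((ofMat n m).symm.continuous.comp continuous_snd)
    have h3 : Continuous fun q : (EuclideanSpace ℝ (Fin n) × EuclideanSpace ℝ (Fin m)) × EV n m => tens q.1 := continuous_tens.comp continuous_fst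
    exact (h2.clm_apply h3).clm_apply h3
  let S : Set ((EuclideanSpace ℝ (Fin n) × EuclideanSpace ℝ (Fin m)) × EV n m) := (Metric.sphere (0 : EuclideanSpace ℝ (Fin n)) 1 ×ˢ Metric.sphere (0 : EuclideanSpace ℝ (Fin m)) 1) ×ˢ
    Metric.closedBall (0 : EV n m) R
  have hS : IsCompact S :=
    ((isCompact_sphere _ _).prod (isCompact_sphere _ _)).prod (isCompact_closedBall _ _)
  -- positive lower bound on S
  have hpos : ∃ c : ℝ, 0 < c ∧ ∀ q ∈ S, c ≤ G q := by
    rcases S.eq_empty_or_nonempty with he | hne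
    · exact ⟨1, one_pos, fun q hq => by rw [he] at hq; exact hq.elim⟩
    · obtain ⟨q0, hq0, hmin⟩ := hS.exists_isMinOn hne hG.continuousOn
      refine ⟨G q0, ?_, fun q hq => hmin hq⟩
      have h1 : q0.1.1 ≠ 0 := by
        intro h
        have := hq0.1.1
        rw [mem_sphere_zero_iff_norm, h, norm_zero] at this
        exact zero_ne_one this
      have h2 : q0.1.2 ≠ 0 := by
        intro h
        have := hq0.1.2
        rw [mem_sphere_zero_iff_norm, h, norm_zero] at this
        exact zero_ne_one this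
      refine hLH _ (fun i => q0.1.1 i) (fun j => q0.1.2 j) (fun h => h1 ?_) (fun h => h2 ?_)
      · ext i; exact congrFun h i
      · ext j; exact congrFun h j
  obtain ⟨c, hc, hcS⟩ := hpos
  refine ⟨c / 2, by positivity, fun x hx a ν => ?_⟩
  rw [fderiv_FF hf]
  let a' : EuclideanSpace ℝ (Fin n) := WithLp.toLp 2 a
  let ν' : EuclideanSpace ℝ (Fin m) := WithLp.toLp 2 ν
  have hnorm : ‖ofMat n m (fun i j => a i * ν j)‖ ^ 2 = ‖a'‖ ^ 2 * ‖ν'‖ ^ 2 := by
    rw [normsq_ofMat, EuclideanSpace.norm_sq_eq, EuclideanSpace.norm_sq_eq, Finset.sum_mul_sum]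
    refine Finset.sum_congr rfl fun i _ => Finset.sum_congr rfl fun j _ => ?_
    simp only [a', ν', Real.norm_eq_abs, sq_abs]
    ring
  rw [hnorm]
  by_cases ha : a' = 0
  · have ha0 : ∀ i, a i = 0 := fun i => congrFun (congrArg WithLp.ofLp ha) i
    have hz : (fun i j => a i * ν j : Mat n m) = 0 := by
      funext i j; simp [ha0 i]
    rw [hz, ha]
    simp
  by_cases hν : ν' = 0
  · have hν0 : ∀ i, ν i = 0 := fun i => congrFun (congrArg WithLp.ofLp hν) i
    have hz : (fun i j => a i * ν j : Mat n m) = 0 := by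
      funext i j; simp [hν0 j]
    rw [hz, hν]
    simp
  have ha1 : 0 < ‖a'‖ := norm_pos_iff.mpr ha
  have hν1 : 0 < ‖ν'‖ := norm_pos_iff.mpr hν
  have hmem : (((‖a'‖⁻¹ • a', ‖ν'‖⁻¹ • ν'), x) : (EuclideanSpace ℝ (Fin n) × EuclideanSpace ℝ (Fin m)) × EV n m) ∈ S := by
    refine ⟨⟨?_, ?_⟩, hx⟩
    · rw [mem_sphere_zero_iff_norm, norm_smul, norm_inv, norm_norm, inv_mul_cancel₀ ha1.ne']
    · rw [mem_sphere_zero_iff_norm, norm_smul, norm_inv, norm_norm, inv_mul_cancel₀ hν1.ne']
  have h1 := hcS _ hmem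
  have ht : tens (‖a'‖⁻¹ • a', ‖ν'‖⁻¹ • ν') = (‖a'‖⁻¹ * ‖ν'‖⁻¹) • (fun i j => a i * ν j : Mat n m) := by
    funext i j
    simp only [tens, a', ν', PiLp.smul_apply, smul_eq_mul, Pi.smul_apply]
    ring
  have hGv : G ((‖a'‖⁻¹ • a', ‖ν'‖⁻¹ • ν'), x) = (‖a'‖⁻¹ * ‖ν'‖⁻¹) ^ 2
      * fderiv ℝ (fderiv ℝ f) ((ofMat n m).symm x) (fun i j => a i * ν j)
        (fun i j => a i * ν j) := by
    simp only [G]
    rw [ht]
    simp only [map_smul, _root_.smul_apply, smul_eq_mul]
    ring
  rw [hGv] at h1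
  have h2 := mul_le_mul_of_nonneg_left h1 (by positivity : 0 ≤ ‖a'‖ ^ 2 * ‖ν'‖ ^ 2)
  have h3 : ‖a'‖ ^ 2 * ‖ν'‖ ^ 2 * ((‖a'‖⁻¹ * ‖ν'‖⁻¹) ^ 2
      * fderiv ℝ (fderiv ℝ f) ((ofMat n m).symm x) (fun i j => a i * ν j)
        (fun i j => a i * ν j))
      = fderiv ℝ (fderiv ℝ f) ((ofMat n m).symm x) (fun i j => a i * ν j)
        (fun i j => a i * ν j) := by
    field_simp
  rw [h3] at h2
  linarith

end MP73203d
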