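import Pool.Agent.MP_73203d_an.Stair

/-! A strongly quasiconvex function of class `C²` is strictly rank-one convex. -/

open MeasureTheory Finset

namespace MP73203d

/-- Second order Taylor expansion with small quadratic remainder. -/
lemma taylor2 {V : Type*} [NormedAddCommGroup V] [NormedSpace ℝ V] {f : V → ℝ}
    (hf : ContDiff ℝ 2 f) (X : V) {c : ℝ} (hc : 0 < c) :
    ∃ δ : ℝ, 0 < δ ∧ ∀ H : V, ‖H‖ ≤ δ →
      |f (X + H) - f X - fderiv ℝ f X H - (1 / 2) * fderiv ℝ (fderiv ℝ f) X H H|
        ≤ c * ‖H‖ ^ 2 := by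
  have hd1 : Differentiable ℝ f := hf.differentiable (by norm_num)
  have hd : Differentiable ℝ (fderiv ℝ f) :=
    (hf.fderiv_right (m := 1) (by norm_num)).differentiable (by norm_num)
  have h1 := (hd X).hasFDerivAt.isLittleO.def hc
  rw [Metric.eventually_nhds_iff] at h1
  obtain ⟨ε, hε, h1⟩ := h1
  refine ⟨ε / 2, by linarith, fun H hH => ?_⟩
  set T := fderiv ℝ (fderiv ℝ f) X with hT
  have hg : ∀ t ∈ Set.Icc (0 : ℝ) 1, HasDerivWithinAt
      (fun t : ℝ => f (X + t • H) - t * fderiv ℝ f X H - (t ^ 2 / 2) * T H H)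
      (fderiv ℝ f (X + t • H) H - fderiv ℝ f X H - t * T H H) (Set.Icc (0 : ℝ) 1) t := by
    intro t _
    apply HasDerivAt.hasDerivWithinAt
    have e1 : HasDerivAt (fun t : ℝ => X + t • H) H t := by
      have := ((hasDerivAt_id t).smul_const H).const_add X
      simpa using this
    have e2 : HasDerivAt (fun t : ℝ => f (X + t • H)) (fderiv ℝ f (X + t • H) H) t :=
      (hd1 (X + t • H)).hasFDerivAt.comp_hasDerivAt t e1
    have e3 : HasDerivAt (fun t : ℝ => t * fderiv ℝ f X H) (fderiv ℝ f X H) t := by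
      simpa using (hasDerivAt_id t).mul_const (fderiv ℝ f X H)
    have e4 : HasDerivAt (fun t : ℝ => (t ^ 2 / 2) * T H H) (t * T H H) t := by
      have := ((hasDerivAt_pow 2 t).div_const 2).mul_const (T H H)
      refine this.congr_deriv ?_
      push_cast
      ring
    exact (e2.sub e3).sub e4
  have hb : ∀ t ∈ Set.Ico (0 : ℝ) 1,
      ‖fderiv ℝ f (X + t • H) H - fderiv ℝ f X H - t * T H H‖ ≤ c * ‖H‖ ^ 2 := by
    intro t ht
    have e1 : dist (X + t • H) X < ε := by
      rw [dist_eq_norm, add_sub_cancel_left, norm_smul, Real.norm_eq_abs, abs_of_nonneg ht.1]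
      have : t * ‖H‖ ≤ 1 * ‖H‖ := mul_le_mul_of_nonneg_right ht.2.le (norm_nonneg _)
      linarith
    have e2 := h1 e1
    rw [add_sub_cancel_left, norm_smul, Real.norm_eq_abs, abs_of_nonneg ht.1] at e2
    have e3 : fderiv ℝ f (X + t • H) H - fderiv ℝ f X H - t * T H H
        = (fderiv ℝ f (X + t • H) - fderiv ℝ f X - T (t • H)) H := by
      simp
    rw [e3]
    calc ‖(fderiv ℝ f (X + t • H) - fderiv ℝ f X - T (t • H)) H‖
        ≤ ‖fderiv ℝ f (X + t • H) - fderiv ℝ f X - T (t • H)‖ * ‖H‖ :=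
          ContinuousLinearMap.le_opNorm _ _
      _ ≤ (c * (t * ‖H‖)) * ‖H‖ := mul_le_mul_of_nonneg_right e2 (norm_nonneg _)
      _ = t * (c * ‖H‖ ^ 2) := by ring
      _ ≤ 1 * (c * ‖H‖ ^ 2) := mul_le_mul_of_nonneg_right ht.2.le (by positivity)
      _ = c * ‖H‖ ^ 2 := one_mul _
  have key := norm_image_sub_le_of_norm_deriv_le_segment_01' hg hb
  rw [Real.norm_eq_abs] at key
  have e : f (X + H) - f X - fderiv ℝ f X H - (1 / 2) * T H H
      = f (X + (1 : ℝ) • H) - 1 * fderiv ℝ f X H - (1 ^ 2 / 2) * T H H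
        - (f (X + (0 : ℝ) • H) - 0 * fderiv ℝ f X H - (0 ^ 2 / 2) * T H H) := by
    simp
    ring
  rw [e]
  exact key

variable {n m : ℕ}

/-- The rank-one matrix `a ⊗ p` built from a covector `p`. -/
noncomputable def RR (a : Fin n → ℝ) :
    (EuclideanSpace ℝ (Fin m) →L[ℝ] ℝ) →L[ℝ] Mat n m :=
  LinearMap.toContinuousLinearMap
    { toFun := fun p => fun i j => p (EuclideanSpace.single j 1) * a i
      map_add' := fun p q => by funext i j; simp [add_mul]
      map_smul' := fun c p => by funext i j; simp [mul_assoc] }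

lemma RR_apply (a : Fin n → ℝ) (p : EuclideanSpace ℝ (Fin m) →L[ℝ] ℝ) (i : Fin n) (j : Fin m) :
    RR a p i j = p (EuclideanSpace.single j 1) * a i := rfl

lemma Dmat_smul (a : Fin n → ℝ) {ψ : EuclideanSpace ℝ (Fin m) → ℝ}
    (hψ : Differentiable ℝ ψ) (x : EuclideanSpace ℝ (Fin m)) :
    Dmat (fun x => ψ x • a) x = RR a (fderiv ℝ ψ x) := by
  funext i j
  have h := (hψ x).hasFDerivAt.smul_const a
  unfold Dmat
  rw [h.fderiv, RR_apply]
  simp

lemma intB {V : Type*} [NormedAddCommGroup V] {g : EuclideanSpace ℝ (Fin m) → V}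
    (hg : Continuous g) : IntegrableOn g (Metric.ball (0 : EuclideanSpace ℝ (Fin m)) 1) :=
  (hg.continuousOn.integrableOn_compact (isCompact_closedBall 0 1)).mono_set
    Metric.ball_subset_closedBall

lemma int_fderiv_zero {ψ : EuclideanSpace ℝ (Fin m) → ℝ} (hψ : ContDiff ℝ 1 ψ)
    (hc : HasCompactSupport ψ)
    (hs : tsupport ψ ⊆ Metric.ball (0 : EuclideanSpace ℝ (Fin m)) 1) :
    ∫ x in Metric.ball (0 : EuclideanSpace ℝ (Fin m)) 1, fderiv ℝ ψ x = 0 := by
  have hcont : Continuous (fderiv ℝ ψ) := hψ.continuous_fderiv (by norm_num)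
  have hcs : HasCompactSupport (fderiv ℝ ψ) := hc.fderiv ℝ
  have hsub : tsupport (fderiv ℝ ψ) ⊆ Metric.ball (0 : EuclideanSpace ℝ (Fin m)) 1 :=
    (tsupport_fderiv_subset ℝ).trans hs
  rw [setIntegral_eq_integral_of_forall_compl_eq_zero]
  · ext v
    rw [ContinuousLinearMap.integral_apply (hcont.integrable_of_hasCompactSupport hcs)]
    have hv : HasCompactSupport (fun x => fderiv ℝ ψ x v) := by
      refine hcs.mono ?_
      intro x hx
      rw [Function.mem_support] at hx ⊢
      intro h
      apply hx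
      rw [h]
      rfl
    have hvc : Continuous (fun x => fderiv ℝ ψ x v) := hcont.clm_apply continuous_const
    have h := integral_mul_fderiv_eq_neg_fderiv_mul_of_integrable
      (μ := (volume : Measure (EuclideanSpace ℝ (Fin m)))) (𝕜 := ℝ)
      (f := fun _ : EuclideanSpace ℝ (Fin m) => (1 : ℝ)) (g := ψ) (v := v)
      (by simp) (by simpa using hvc.integrable_of_hasCompactSupport hv)
      (by simpa using hψ.continuous.integrable_of_hasCompactSupport hc)
      (fun x _ => differentiableAt_const _)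
      (fun x _ => (hψ.differentiable (by norm_num)) x)
    simpa using h
  · intro x hx
    exact image_eq_zero_of_notMem_tsupport fun h => hx (hsub h)

/-- The quadratic form inequality for `φ = ψ a`. -/
lemma quad_ineq {f : Mat n m → ℝ} (hf : ContDiff ℝ 2 f) {γ : ℝ}
    (hq : ∀ (X : Mat n m) (φ : EuclideanSpace ℝ (Fin m) → (Fin n → ℝ)),
    (∀ k : ℕ, ContDiff ℝ k φ) → HasCompactSupport φ → tsupport φ ⊆ Metric.ball 0 1 →
    ∫ x in Metric.ball (0 : EuclideanSpace ℝ (Fin m)) 1, (f X + γ * ∑ i, ∑ j, Dmat φ x i j ^ 2) ≤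
      ∫ x in Metric.ball (0 : EuclideanSpace ℝ (Fin m)) 1, f (X + Dmat φ x))
    (X : Mat n m) (a : Fin n → ℝ) {ψ : EuclideanSpace ℝ (Fin m) → ℝ}
    (hψ : ∀ k : ℕ, ContDiff ℝ k ψ) (hc : HasCompactSupport ψ)
    (hs : tsupport ψ ⊆ Metric.ball (0 : EuclideanSpace ℝ (Fin m)) 1) :
    ∫ x in Metric.ball (0 : EuclideanSpace ℝ (Fin m)) 1,
        γ * ∑ i, ∑ j, RR a (fderiv ℝ ψ x) i j ^ 2
      ≤ ∫ x in Metric.ball (0 : EuclideanSpace ℝ (Fin m)) 1,
        (1 / 2) * fderiv ℝ (fderiv ℝ f) X (RR a (fderiv ℝ ψ x)) (RR a (fderiv ℝ ψ x)) := by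
  have hψ1 : ContDiff ℝ 1 ψ := by exact_mod_cast hψ 1
  have hψd : Differentiable ℝ ψ := hψ1.differentiable (by norm_num)
  have hdc : Continuous (fun x => RR a (fderiv ℝ ψ x)) :=
    (RR a).continuous.comp (hψ1.continuous_fderiv (by norm_num))
  set T := fderiv ℝ (fderiv ℝ f) X with hT
  set D : EuclideanSpace ℝ (Fin m) → Mat n m := fun x => RR a (fderiv ℝ ψ x) with hD
  have hcomp : ∀ i j, Continuous (fun x => D x i j) := fun i j =>
    (continuous_apply j).comp ((continuous_apply i).comp hdc)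
  have hI1 : Continuous (fun x => γ * ∑ i, ∑ j, D x i j ^ 2) :=
    continuous_const.mul (continuous_finsetSum _ fun i _ => continuous_finsetSum _ fun j _ =>
      (hcomp i j).pow 2)
  have hI2 : Continuous (fun x => (1 / 2) * T (D x) (D x)) :=
    continuous_const.mul ((T.continuous.comp hdc).clm_apply hdc)
  have hI3 : Continuous (fun x => ‖D x‖ ^ 2) := hdc.norm.pow 2
  obtain ⟨M, hM⟩ : ∃ M, ∀ x, ‖D x‖ ≤ M := by
    have hcs : HasCompactSupport D := by
      refine (hc.fderiv ℝ).mono ?_
      intro x hx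
      rw [Function.mem_support] at hx ⊢
      intro h
      apply hx
      rw [hD]
      simp only
      rw [h, map_zero]
    obtain ⟨M, hM⟩ := hdc.bounded_above_of_compact_support hcs
    exact ⟨M, hM⟩
  have hM0 : 0 ≤ M := (norm_nonneg _).trans (hM 0)
  have key : ∀ c : ℝ, 0 < c → ∫ x in Metric.ball (0 : EuclideanSpace ℝ (Fin m)) 1,
      γ * ∑ i, ∑ j, D x i j ^ 2 ≤ (∫ x in Metric.ball (0 : EuclideanSpace ℝ (Fin m)) 1,
        (1 / 2) * T (D x) (D x))
        + c * ∫ x in Metric.ball (0 : EuclideanSpace ℝ (Fin m)) 1, ‖D x‖ ^ 2 := by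
    intro c hcpos
    obtain ⟨δ, hδ, hTay⟩ := taylor2 hf X hcpos
    set ε : ℝ := δ / (M + 1) with hε
    have hεpos : 0 < ε := by positivity
    have hsm : ∀ x, ‖ε • D x‖ ≤ δ := by
      intro x
      rw [norm_smul, Real.norm_eq_abs, abs_of_pos hεpos, hε]
      rw [div_mul_eq_mul_div, div_le_iff₀ (by linarith)]
      exact mul_le_mul_of_nonneg_left ((hM x).trans (by linarith)) hδ.le
    have hDm : ∀ x, Dmat (fun x => (ε * ψ x) • a) x = ε • D x := by
      intro x
      rw [Dmat_smul a (ψ := fun x => ε * ψ x) (hψd.const_mul ε) x]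
      rw [fderiv_const_mul (hψd x), map_smul]
    have hqX := hq X (fun x => (ε * ψ x) • a)
      (fun k => (contDiff_const.mul (hψ k)).smul contDiff_const)
      (by
        refine hc.mono ?_
        intro x hx
        rw [Function.mem_support] at hx ⊢
        intro h
        apply hx
        simp [h])
      (by
        refine (closure_mono ?_).trans hs
        intro x hx
        rw [Function.mem_support] at hx ⊢
        intro h
        apply hx
        simp [h])
    simp_rw [hDm] at hqX
    have hle : ∫ x in Metric.ball (0 : EuclideanSpace ℝ (Fin m)) 1, f (X + ε • D x)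
        ≤ ∫ x in Metric.ball (0 : EuclideanSpace ℝ (Fin m)) 1,
          (f X + ε * fderiv ℝ f X (D x) + ε ^ 2 * ((1 / 2) * T (D x) (D x))
            + (c * ε ^ 2) * ‖D x‖ ^ 2) := by
      refine setIntegral_mono_on ?_ ?_ measurableSet_ball fun x _ => ?_
      · exact intB (hf.continuous.comp (continuous_const.add (hdc.const_smul ε)))
      · refine intB (((continuous_const.add (continuous_const.mul
          ((fderiv ℝ f X).continuous.comp hdc))).add (continuous_const.mul hI2)).add
          (continuous_const.mul hI3))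
      · have h1 := hTay (ε • D x) (hsm x)
        rw [abs_le] at h1
        have h2 := h1.2
        rw [norm_smul, Real.norm_eq_abs, abs_of_pos hεpos, mul_pow] at h2
        simp only [map_smul, _root_.smul_apply, smul_eq_mul] at h2
        nlinarith [h2]
    have hz : ∫ x in Metric.ball (0 : EuclideanSpace ℝ (Fin m)) 1, fderiv ℝ f X (D x) = 0 := by
      have e1 : ∫ x in Metric.ball (0 : EuclideanSpace ℝ (Fin m)) 1, fderiv ℝ f X (D x)
          = ((fderiv ℝ f X).comp (RR a))
            (∫ x in Metric.ball (0 : EuclideanSpace ℝ (Fin m)) 1, fderiv ℝ ψ x) :=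
        ContinuousLinearMap.integral_comp_comm ((fderiv ℝ f X).comp (RR a))
          (intB (hψ1.continuous_fderiv (by norm_num)))
      rw [e1, int_fderiv_zero hψ1 hc hs, map_zero]
    have i1 : ∫ x in Metric.ball (0 : EuclideanSpace ℝ (Fin m)) 1,
          (f X + ε * fderiv ℝ f X (D x) + ε ^ 2 * ((1 / 2) * T (D x) (D x))
            + (c * ε ^ 2) * ‖D x‖ ^ 2)
        = (∫ _ in Metric.ball (0 : EuclideanSpace ℝ (Fin m)) 1, f X)
          + ε ^ 2 * (∫ x in Metric.ball (0 : EuclideanSpace ℝ (Fin m)) 1,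
            (1 / 2) * T (D x) (D x))
          + (c * ε ^ 2) * ∫ x in Metric.ball (0 : EuclideanSpace ℝ (Fin m)) 1, ‖D x‖ ^ 2 := by
      rw [integral_add, integral_add, integral_add,
        integral_const_mul ε (fun x => fderiv ℝ f X (D x)),
        integral_const_mul (ε ^ 2) (fun x => (1 / 2) * T (D x) (D x)),
        integral_const_mul (c * ε ^ 2) (fun x => ‖D x‖ ^ 2), hz]
      · ring
      · exact intB continuous_const
      · exact (intB ((fderiv ℝ f X).continuous.comp hdc)).const_mul _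
      · exact (intB continuous_const).add ((intB ((fderiv ℝ f X).continuous.comp hdc)).const_mul _)
      · exact (intB hI2).const_mul _
      · exact ((intB continuous_const).add
          ((intB ((fderiv ℝ f X).continuous.comp hdc)).const_mul _)).add
          ((intB hI2).const_mul _)
      · exact (intB hI3).const_mul _
    have i2 : ∫ x in Metric.ball (0 : EuclideanSpace ℝ (Fin m)) 1,
          (f X + γ * ∑ i, ∑ j, (ε • D x) i j ^ 2)
        = (∫ _ in Metric.ball (0 : EuclideanSpace ℝ (Fin m)) 1, f X)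
          + ε ^ 2 * ∫ x in Metric.ball (0 : EuclideanSpace ℝ (Fin m)) 1,
            γ * ∑ i, ∑ j, D x i j ^ 2 := by
      rw [← integral_const_mul, ← integral_add (intB continuous_const) ((intB hI1).const_mul _)]
      refine integral_congr_ae (Filter.Eventually.of_forall fun x => ?_)
      simp only [Pi.smul_apply, smul_eq_mul, mul_pow, ← Finset.mul_sum]
      ring
    rw [i2] at hqX
    rw [i1] at hle
    have h3 := hqX.trans hle
    have hε2 : 0 < ε ^ 2 := by positivity
    have h4 : ε ^ 2 * (∫ x in Metric.ball (0 : EuclideanSpace ℝ (Fin m)) 1,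
            γ * ∑ i, ∑ j, D x i j ^ 2)
        ≤ ε ^ 2 * ((∫ x in Metric.ball (0 : EuclideanSpace ℝ (Fin m)) 1,
        (1 / 2) * T (D x) (D x))
        + c * ∫ x in Metric.ball (0 : EuclideanSpace ℝ (Fin m)) 1, ‖D x‖ ^ 2) := by
      nlinarith [h3]
    exact le_of_mul_le_mul_left h4 hε2
  have hI3nn : 0 ≤ ∫ x in Metric.ball (0 : EuclideanSpace ℝ (Fin m)) 1, ‖D x‖ ^ 2 :=
    integral_nonneg fun x => by positivity
  refine le_of_forall_pos_le_add fun e he => ?_
  set I3 := ∫ x in Metric.ball (0 : EuclideanSpace ℝ (Fin m)) 1, ‖D x‖ ^ 2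
  have := key (e / (I3 + 1)) (by positivity)
  refine this.trans (add_le_add le_rfl ?_)
  rw [div_mul_eq_mul_div, div_le_iff₀ (by positivity)]
  nlinarith

/-- The Legendre-Hadamard inequality. -/
lemma legendre_hadamard {f : Mat n m → ℝ} (hf : ContDiff ℝ 2 f) {γ : ℝ}
    (hq : ∀ (X : Mat n m) (φ : EuclideanSpace ℝ (Fin m) → (Fin n → ℝ)),
    (∀ k : ℕ, ContDiff ℝ k φ) → HasCompactSupport φ → tsupport φ ⊆ Metric.ball 0 1 →
    ∫ x in Metric.ball (0 : EuclideanSpace ℝ (Fin m)) 1, (f X + γ * ∑ i, ∑ j, Dmat φ x i j ^ 2) ≤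
      ∫ x in Metric.ball (0 : EuclideanSpace ℝ (Fin m)) 1, f (X + Dmat φ x))
    (X : Mat n m) (a : Fin n → ℝ) (L : EuclideanSpace ℝ (Fin m) →L[ℝ] ℝ) :
    γ * ∑ i, ∑ j, RR a L i j ^ 2
      ≤ (1 / 2) * fderiv ℝ (fderiv ℝ f) X (RR a L) (RR a L) := by
  set T := fderiv ℝ (fderiv ℝ f) X with hT
  -- the bump function
  let β : ContDiffBump (0 : EuclideanSpace ℝ (Fin m)) := ⟨1 / 4, 1 / 2, by norm_num, by norm_num⟩
  have hβ : ∀ k : ℕ, ContDiff ℝ k β := fun k => β.contDiff
  have hβc : HasCompactSupport β := β.hasCompactSupport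
  have hβs : tsupport β ⊆ Metric.ball (0 : EuclideanSpace ℝ (Fin m)) 1 := by
    rw [β.tsupport_eq]
    exact Metric.closedBall_subset_ball (by norm_num)
  -- the bilinear form
  set b : (EuclideanSpace ℝ (Fin m) →L[ℝ] ℝ) → (EuclideanSpace ℝ (Fin m) →L[ℝ] ℝ) → ℝ :=
    fun p q => (1 / 2) * T (RR a p) (RR a q) - γ * ∑ i, ∑ j, RR a p i j * RR a q i j with hb
  have hb_add1 : ∀ (s t : ℝ) (p p' q), b (s • p + t • p') q = s * b p q + t * b p' q := by
    intro s t p p' q
    simp only [hb, map_add, map_smul, _root_.add_apply, _root_.smul_apply, Pi.add_apply,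
      Pi.smul_apply, smul_eq_mul, add_mul, Finset.sum_add_distrib, mul_assoc, ← Finset.mul_sum]
    ring
  have hb_add2 : ∀ (s t : ℝ) (p q q'), b p (s • q + t • q') = s * b p q + t * b p q' := by
    intro s t p q q'
    simp only [hb, map_add, map_smul, Pi.add_apply,
      Pi.smul_apply, smul_eq_mul, mul_add, Finset.sum_add_distrib, ← Finset.mul_sum,
      mul_left_comm _ s, mul_left_comm _ t]
    ring
  have hQ : ∀ ψ : EuclideanSpace ℝ (Fin m) → ℝ, (∀ k : ℕ, ContDiff ℝ k ψ) →
      HasCompactSupport ψ → tsupport ψ ⊆ Metric.ball (0 : EuclideanSpace ℝ (Fin m)) 1 →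
      0 ≤ ∫ x in Metric.ball (0 : EuclideanSpace ℝ (Fin m)) 1,
        b (fderiv ℝ ψ x) (fderiv ℝ ψ x) := by
    intro ψ h1 h2 h3
    have hψ1 : ContDiff ℝ 1 ψ := by exact_mod_cast h1 1
    have hdc : Continuous (fun x => RR a (fderiv ℝ ψ x)) :=
      (RR a).continuous.comp (hψ1.continuous_fderiv (by norm_num))
    have hcomp : ∀ i j, Continuous (fun x => RR a (fderiv ℝ ψ x) i j) := fun i j =>
      (continuous_apply j).comp ((continuous_apply i).comp hdc)
    have hI1 : Continuous (fun x => γ * ∑ i, ∑ j, RR a (fderiv ℝ ψ x) i j ^ 2) :=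
      continuous_const.mul (continuous_finsetSum _ fun i _ => continuous_finsetSum _ fun j _ =>
        (hcomp i j).pow 2)
    have hI2 : Continuous (fun x => (1 / 2) * T (RR a (fderiv ℝ ψ x)) (RR a (fderiv ℝ ψ x))) :=
      continuous_const.mul ((T.continuous.comp hdc).clm_apply hdc)
    have h := quad_ineq hf hq X a h1 h2 h3
    have e : ∀ x, b (fderiv ℝ ψ x) (fderiv ℝ ψ x)
        = (1 / 2) * T (RR a (fderiv ℝ ψ x)) (RR a (fderiv ℝ ψ x))
          - γ * ∑ i, ∑ j, RR a (fderiv ℝ ψ x) i j ^ 2 := by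
      intro x
      simp only [hb, pow_two]
    simp_rw [e]
    rw [integral_sub (intB hI2) (intB hI1)]
    linarith
  -- oscillating test functions
  have hLd : ∀ (k : ℝ) (x : EuclideanSpace ℝ (Fin m)), HasFDerivAt (fun x => k * L x) (k • L) x :=
    fun k x => L.hasFDerivAt.const_mul k
  have hβd : ∀ x, HasFDerivAt β (fderiv ℝ β x) x := fun x =>
    ((hβ 1).differentiable (by norm_num) x).hasFDerivAt
  have key : ∀ k : ℝ, 0 ≤ (∫ x in Metric.ball (0 : EuclideanSpace ℝ (Fin m)) 1,
      b (fderiv ℝ β x) (fderiv ℝ β x))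
      + k ^ 2 * (b L L * ∫ x in Metric.ball (0 : EuclideanSpace ℝ (Fin m)) 1, β x ^ 2) := by
    intro k
    have hLc : ∀ l : ℕ, ContDiff ℝ l (fun x => k * L x) := fun l => contDiff_const.mul L.contDiff
    have c1 := hQ (fun x => β x * Real.cos (k * L x))
      (fun l => (hβ l).mul (Real.contDiff_cos.comp (hLc l))) (hβc.mul_right)
      ((closure_mono (Function.support_mul_subset_left _ _)).trans hβs)
    have c2 := hQ (fun x => β x * Real.sin (k * L x))
      (fun l => (hβ l).mul (Real.contDiff_sin.comp (hLc l))) (hβc.mul_right)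
      ((closure_mono (Function.support_mul_subset_left _ _)).trans hβs)
    have d1 : ∀ x, fderiv ℝ (fun x => β x * Real.cos (k * L x)) x
        = Real.cos (k * L x) • fderiv ℝ β x + (- (k * (β x * Real.sin (k * L x)))) • L := by
      intro x
      have h7 : HasFDerivAt (fun x => β x * Real.cos (k * L x)) _ x :=
        (hβd x).mul (hLd k x).cos
      rw [h7.fderiv]
      ext v
      simp
      ring
    have d2 : ∀ x, fderiv ℝ (fun x => β x * Real.sin (k * L x)) x
        = Real.sin (k * L x) • fderiv ℝ β x + (k * (β x * Real.cos (k * L x))) • L := by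
      intro x
      have h7 : HasFDerivAt (fun x => β x * Real.sin (k * L x)) _ x :=
        (hβd x).mul (hLd k x).sin
      rw [h7.fderiv]
      ext v
      simp
      ring
    have hs : ∀ x, b (fderiv ℝ (fun x => β x * Real.cos (k * L x)) x)
          (fderiv ℝ (fun x => β x * Real.cos (k * L x)) x)
        + b (fderiv ℝ (fun x => β x * Real.sin (k * L x)) x)
          (fderiv ℝ (fun x => β x * Real.sin (k * L x)) x)
        = b (fderiv ℝ β x) (fderiv ℝ β x) + k ^ 2 * (b L L * β x ^ 2) := by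
      intro x
      rw [d1, d2, hb_add1, hb_add2, hb_add2, hb_add1, hb_add2, hb_add2]
      have := Real.sin_sq_add_cos_sq (k * L x)
      linear_combination (b (fderiv ℝ β x) (fderiv ℝ β x) + k ^ 2 * (b L L * β x ^ 2)) * this
    have hbc : ∀ {ψ : EuclideanSpace ℝ (Fin m) → ℝ}, (∀ k : ℕ, ContDiff ℝ k ψ) →
        Continuous fun x => b (fderiv ℝ ψ x) (fderiv ℝ ψ x) := by
      intro ψ h1
      have hψ1 : ContDiff ℝ 1 ψ := by exact_mod_cast h1 1
      have hdc : Continuous (fun x => RR a (fderiv ℝ ψ x)) :=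
        (RR a).continuous.comp (hψ1.continuous_fderiv (by norm_num))
      have hcomp : ∀ i j, Continuous (fun x => RR a (fderiv ℝ ψ x) i j) := fun i j =>
        (continuous_apply j).comp ((continuous_apply i).comp hdc)
      exact (continuous_const.mul ((T.continuous.comp hdc).clm_apply hdc)).sub
        (continuous_const.mul (continuous_finsetSum _ fun i _ => continuous_finsetSum _ fun j _ =>
          (hcomp i j).mul (hcomp i j)))
    have e1 : ∫ x in Metric.ball (0 : EuclideanSpace ℝ (Fin m)) 1,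
          (b (fderiv ℝ β x) (fderiv ℝ β x) + k ^ 2 * (b L L * β x ^ 2))
        = (∫ x in Metric.ball (0 : EuclideanSpace ℝ (Fin m)) 1,
          b (fderiv ℝ β x) (fderiv ℝ β x))
          + k ^ 2 * (b L L * ∫ x in Metric.ball (0 : EuclideanSpace ℝ (Fin m)) 1, β x ^ 2) := by
      rw [integral_add, integral_const_mul, integral_const_mul]
      · exact intB (hbc hβ)
      · exact (intB (continuous_const.mul (β.continuous.pow 2))).const_mul _
    rw [← e1]
    simp_rw [← hs]
    rw [integral_add]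
    · exact add_nonneg c1 c2
    · exact intB (hbc (fun l => (hβ l).mul (Real.contDiff_cos.comp (hLc l))))
    · exact intB (hbc (fun l => (hβ l).mul (Real.contDiff_sin.comp (hLc l))))
  have hpos : 0 < ∫ x in Metric.ball (0 : EuclideanSpace ℝ (Fin m)) 1, β x ^ 2 := by
    have hc : Continuous fun x => β x ^ 2 := β.continuous.pow 2
    rw [setIntegral_eq_integral_of_forall_compl_eq_zero]
    · refine hc.integral_pos_of_hasCompactSupport_nonneg_nonzero ?_ (fun x => by positivity)
        (x := 0) ?_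
      · refine hβc.mono ?_
        intro x hx
        rw [Function.mem_support] at hx ⊢
        intro h
        apply hx
        simp [h]
      · have : β 0 = 1 := β.one_of_mem_closedBall (by simp [β])
        simp [this]
    · intro x hx
      have : β x = 0 := image_eq_zero_of_notMem_tsupport fun h => hx (hβs h)
      rw [this]
      norm_num
  have hfin : 0 ≤ b L L := by
    by_contra hneg
    push Not at hneg
    set J := ∫ x in Metric.ball (0 : EuclideanSpace ℝ (Fin m)) 1, b (fderiv ℝ β x) (fderiv ℝ β x)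
    set I := ∫ x in Metric.ball (0 : EuclideanSpace ℝ (Fin m)) 1, β x ^ 2
    have hc0 : b L L * I < 0 := mul_neg_of_neg_of_pos hneg hpos
    set q := - (b L L * I) with hq'
    have hq0 : 0 < q := by linarith
    have h := key (Real.sqrt ((|J| + 1) / q))
    rw [Real.sq_sqrt (by positivity)] at h
    have e : (|J| + 1) / q * (b L L * I) = - (|J| + 1) := by
      rw [show b L L * I = - q by rw [hq']; ring]
      field_simp
    rw [e] at h
    have := le_abs_self J
    linarith
  have : b L L = (1 / 2) * T (RR a L) (RR a L) - γ * ∑ i, ∑ j, RR a L i j ^ 2 := by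
    simp only [hb, pow_two]
  linarith

/-- Strongly quasiconvex `C²` functions are strictly rank-one convex. -/
theorem strictlyRankOneConvex_of_stronglyQuasiconvex {f : Mat n m → ℝ} (hf : ContDiff ℝ 2 f)
    (hq : StronglyQuasiconvex f) : StrictlyRankOneConvex f := by
  obtain ⟨γ, hγ, hq⟩ := hq
  have hd1 : Differentiable ℝ f := hf.differentiable (by norm_num)
  have hd : Differentiable ℝ (fderiv ℝ f) :=
    (hf.fderiv_right (m := 1) (by norm_num)).differentiable (by norm_num)
  refine ⟨hd1, fun X a ν ha hν => ?_⟩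
  -- the covector of ν
  let L : EuclideanSpace ℝ (Fin m) →L[ℝ] ℝ :=
    LinearMap.toContinuousLinearMap
      { toFun := fun x => ∑ j, ν j * x j
        map_add' := fun x y => by simp [mul_add, Finset.sum_add_distrib]
        map_smul' := fun c x => by simp [Finset.mul_sum, mul_left_comm] }
  have hL : ∀ j, L (EuclideanSpace.single j 1) = ν j := by
    intro j
    show ∑ l, ν l * (EuclideanSpace.single j (1 : ℝ)) l = ν j
    simp
  set H : Mat n m := RR a L with hH
  have hHe : ∀ i j, H i j = a i * ν j := by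
    intro i j
    rw [hH, RR_apply, hL, mul_comm]
  have hfun : (fun t : ℝ => f (fun i j => X i j + t * (a i * ν j)))
      = fun t : ℝ => f (X + t • H) := by
    funext t
    congr 1
    funext i j
    simp [hHe]
  rw [hfun]
  have e1 : ∀ t : ℝ, HasDerivAt (fun t : ℝ => X + t • H) H t := by
    intro t
    have := ((hasDerivAt_id t).smul_const H).const_add X
    simpa using this
  have e2 : ∀ t : ℝ, HasDerivAt (fun t : ℝ => f (X + t • H)) (fderiv ℝ f (X + t • H) H) t :=
    fun t => (hd1 (X + t • H)).hasFDerivAt.comp_hasDerivAt t (e1 t)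
  have e3 : ∀ t : ℝ, HasDerivAt (fun t : ℝ => fderiv ℝ f (X + t • H) H)
      (fderiv ℝ (fderiv ℝ f) (X + t • H) H H) t := by
    intro t
    have h1 : HasDerivAt (fun t : ℝ => fderiv ℝ f (X + t • H))
        (fderiv ℝ (fderiv ℝ f) (X + t • H) H) t :=
      (hd (X + t • H)).hasFDerivAt.comp_hasDerivAt t (e1 t)
    have := h1.clm_apply (hasDerivAt_const t H)
    simpa using this
  refine strictConvexOn_univ_of_deriv2_pos ?_ ?_
  · exact hf.continuous.comp (continuous_const.add (continuous_id.smul continuous_const))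
  · intro t
    have d1 : deriv (fun t : ℝ => f (X + t • H)) = fun t => fderiv ℝ f (X + t • H) H := by
      funext t
      exact (e2 t).deriv
    rw [show deriv^[2] (fun t : ℝ => f (X + t • H)) t
      = deriv (deriv (fun t : ℝ => f (X + t • H))) t from rfl, d1, (e3 t).deriv]
    have hLH := legendre_hadamard hf hq (X + t • H) a L
    have hpos : 0 < ∑ i, ∑ j, RR a L i j ^ 2 := by
      obtain ⟨i, hi⟩ := Function.ne_iff.mp ha
      obtain ⟨j, hj⟩ := Function.ne_iff.mp hν
      refine Finset.sum_pos' (fun i _ => Finset.sum_nonneg fun j _ => by positivity)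
        ⟨i, Finset.mem_univ i, Finset.sum_pos' (fun j _ => by positivity)
          ⟨j, Finset.mem_univ j, ?_⟩⟩
      have h5 : RR a L i j = a i * ν j := hHe i j
      rw [h5]
      have : a i * ν j ≠ 0 := mul_ne_zero hi hj
      positivity
    have h6 : 0 < γ * ∑ i, ∑ j, RR a L i j ^ 2 := mul_pos hγ hpos
    rw [← hH] at hLH
    linarith

end MP73203d
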