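import Pool.Agent.MP_73203d_an.LamDefs
import Pool.Agent.MP_73203d_an.QC

/-! Strong quasiconvexity implies the strict Legendre-Hadamard condition. -/

open Finset

namespace MP73203d

variable {n m : ℕ}

/-- Strong quasiconvexity implies the strict Legendre-Hadamard condition. -/
lemma strictLH_of_stronglyQuasiconvex {f : Mat n m → ℝ} (hf : ContDiff ℝ 2 f)
    (hq : StronglyQuasiconvex f) : StrictLH f := by
  obtain ⟨γ, hγ, hq⟩ := hq
  intro X a ν ha hν
  have h := legendre_hadamard hf hq X a (innerSL ℝ (WithLp.toLp 2 ν : EuclideanSpace ℝ (Fin m)))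
  have e : RR a (innerSL ℝ (WithLp.toLp 2 ν : EuclideanSpace ℝ (Fin m)))
      = fun i j => a i * ν j := by
    funext i j
    rw [RR_apply, innerSL_apply_apply, EuclideanSpace.inner_single_right]
    simp [mul_comm]
  rw [e] at h
  have hpos : 0 < ∑ i, ∑ j, (a i * ν j) ^ 2 := by
    obtain ⟨i, hi⟩ := Function.ne_iff.mp ha
    obtain ⟨j, hj⟩ := Function.ne_iff.mp hν
    have h1 : 0 < ∑ j, (a i * ν j) ^ 2 :=
      Finset.sum_pos' (fun l _ => sq_nonneg _) ⟨j, Finset.mem_univ _, by
        have : a i * ν j ≠ 0 := mul_ne_zero hi hj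
        positivity⟩
    exact Finset.sum_pos' (fun l _ => Finset.sum_nonneg fun l _ => sq_nonneg _)
      ⟨i, Finset.mem_univ _, h1⟩
  have := mul_pos hγ hpos
  linarith

end MP73203d
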