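import Pool.Agent.MP_73203d_an.Defs

/-! The spectral part: the matrix `M(U) = Z - Xᵀ Y` along the wave cone. -/

open Finset

namespace MP73203d

/-- The matrix `M(U) = Z - Xᵀ Y`. -/
def MM {n m : ℕ} (U : State n m) (j k : Fin m) : ℝ := U.2.2 j k - ∑ i, U.1 i j * U.2.1 i k

/-- `z` is a complex eigenvalue of `M(U)`. -/
def Eig {n m : ℕ} (U : State n m) (z : ℂ) : Prop :=
  ∃ x : Fin m → ℂ, x ≠ 0 ∧ ∀ j, ∑ k, (MM U j k : ℂ) * x k = z * x j

lemma MM_onK {n m : ℕ} {f : Mat n m → ℝ} {U : State n m} (h : OnK f U) (j k : Fin m) :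
    MM U j k = if j = k then - f U.1 else 0 := by
  unfold MM
  rw [h.2 j k]
  split_ifs <;> ring

/-- Abstract eigenvalue scaling lemma. -/
lemma eig_scale {m : ℕ} (G : Fin m → Fin m → ℂ) (ν v : Fin m → ℂ) (α s z : ℂ) (hs : s ≠ 0)
    (hν : ν ≠ 0) (hG : ∀ j, ∑ k, G j k * ν k = - α * ν j) (hv : ∑ k, v k * ν k = 0)
    (x : Fin m → ℂ) (hx : x ≠ 0)
    (he : ∀ j, s * ∑ k, G j k * x k - s ^ 2 * (ν j * ∑ k, v k * x k) = z * x j) :
    ∃ y : Fin m → ℂ, y ≠ 0 ∧
      ∀ j, ∑ k, G j k * y k - ν j * ∑ k, v k * y k = z / s * y j := by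
  by_cases hσ : z / s = - α
  · refine ⟨ν, hν, fun j => ?_⟩
    rw [hG j, hv, hσ]
    ring
  · set b := ∑ k, v k * x k with hb
    have hσ' : z / s + α ≠ 0 := fun h => hσ (by linear_combination h)
    set c : ℂ := (s - 1) * b / (z / s + α) with hc
    have hc' : c * (z / s + α) = (s - 1) * b := by
      rw [hc]; exact div_mul_cancel₀ _ hσ'
    refine ⟨fun k => x k + c * ν k, fun h0 => ?_, fun j => ?_⟩
    · have h1 : ∀ k, x k = - c * ν k := fun k => by
        have := congrFun h0 k
        simp only [Pi.zero_apply] at this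
        linear_combination this
      have hb0 : b = 0 := by
        rw [hb]
        have : ∀ k, v k * x k = - c * (v k * ν k) := fun k => by rw [h1 k]; ring
        simp_rw [this]
        rw [← Finset.mul_sum, hv, mul_zero]
      have hc0 : c = 0 := by rw [hc, hb0]; simp
      apply hx
      funext k
      rw [h1 k, hc0]
      simp
    · have e1 : ∑ k, G j k * (x k + c * ν k) = ∑ k, G j k * x k + c * (- α * ν j) := by
        rw [← hG j, Finset.mul_sum, ← Finset.sum_add_distrib]
        exact Finset.sum_congr rfl fun k _ => by ring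
      have e2 : ∑ k, v k * (x k + c * ν k) = b := by
        have : ∑ k, v k * (x k + c * ν k) = b + c * ∑ k, v k * ν k := by
          rw [hb, Finset.mul_sum, ← Finset.sum_add_distrib]
          exact Finset.sum_congr rfl fun k _ => by ring
        rw [this, hv]; ring
      rw [e1, e2]
      have e3 : ∑ k, G j k * x k = z / s * x j + s * ν j * b := by
        have := he j
        field_simp
        linear_combination this
      rw [e3]
      linear_combination (- ν j) * hc'

/-- The data of a segment from a point `A` of `K_f` to `P` along the wave cone. -/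
lemma seg_data {n m : ℕ} {A P : State n m} {a : Fin n → ℝ} {ν : Fin m → ℝ}
    (hX : ∀ i j, P.1 i j - A.1 i j = a i * ν j)
    (hY : ∀ i, ∑ j, (P.2.1 i j - A.2.1 i j) * ν j = 0)
    (hZ : ∀ i, ∑ j, (P.2.2 i j - A.2.2 i j) * ν j = 0) :
    ∃ (G : Fin m → Fin m → ℝ) (v : Fin m → ℝ),
      (∀ s : ℝ, ∀ j k, MM (s • P + (1 - s) • A) j k
        = MM A j k + s * G j k - s ^ 2 * (ν j * v k)) ∧
      (∀ j, ∑ k, G j k * ν k = - (∑ i, ∑ l, A.2.1 i l * (a i * ν l)) * ν j) ∧
      (∑ k, v k * ν k = 0) := by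
  refine ⟨fun j k => (P.2.2 j k - A.2.2 j k) - (∑ i, A.1 i j * (P.2.1 i k - A.2.1 i k))
    - ν j * ∑ i, a i * A.2.1 i k, fun k => ∑ i, a i * (P.2.1 i k - A.2.1 i k), ?_, ?_, ?_⟩
  · intro s j k
    have hP : ∀ i j, P.1 i j = A.1 i j + a i * ν j := fun i j => by linarith [hX i j]
    simp only [MM, Prod.fst_add, Prod.snd_add, Prod.smul_fst, Prod.smul_snd, Pi.add_apply,
      Pi.smul_apply, smul_eq_mul]
    have e : ∑ i, (s * P.1 i j + (1 - s) * A.1 i j) * (s * P.2.1 i k + (1 - s) * A.2.1 i k)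
        = ∑ i, A.1 i j * A.2.1 i k + s * ∑ i, A.1 i j * (P.2.1 i k - A.2.1 i k)
          + s * (ν j * ∑ i, a i * A.2.1 i k)
          + s ^ 2 * (ν j * ∑ i, a i * (P.2.1 i k - A.2.1 i k)) := by
      simp only [Finset.mul_sum, ← Finset.sum_add_distrib]
      refine Finset.sum_congr rfl fun i _ => ?_
      rw [hP i j]
      ring
    rw [e]
    ring
  · intro j
    have h1 : ∑ k, (P.2.2 j k - A.2.2 j k) * ν k = 0 := hZ j
    have h2 : ∑ k, (∑ i, A.1 i j * (P.2.1 i k - A.2.1 i k)) * ν k = 0 := by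
      simp_rw [Finset.sum_mul]
      rw [Finset.sum_comm]
      refine Finset.sum_eq_zero fun i _ => ?_
      have : ∀ k, A.1 i j * (P.2.1 i k - A.2.1 i k) * ν k
          = A.1 i j * ((P.2.1 i k - A.2.1 i k) * ν k) := fun k => by ring
      simp_rw [this]
      rw [← Finset.mul_sum, hY i, mul_zero]
    have h3 : ∑ k, (ν j * ∑ i, a i * A.2.1 i k) * ν k
        = (∑ i, ∑ l, A.2.1 i l * (a i * ν l)) * ν j := by
      rw [Finset.sum_comm, Finset.sum_mul]
      refine Finset.sum_congr rfl fun k _ => ?_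
      rw [Finset.mul_sum, Finset.sum_mul, Finset.sum_mul]
      exact Finset.sum_congr rfl fun i _ => by ring
    have : ∀ k, ((P.2.2 j k - A.2.2 j k) - (∑ i, A.1 i j * (P.2.1 i k - A.2.1 i k))
        - ν j * ∑ i, a i * A.2.1 i k) * ν k = (P.2.2 j k - A.2.2 j k) * ν k
        - (∑ i, A.1 i j * (P.2.1 i k - A.2.1 i k)) * ν k
        - (ν j * ∑ i, a i * A.2.1 i k) * ν k := fun k => by ring
    simp_rw [this]
    rw [Finset.sum_sub_distrib, Finset.sum_sub_distrib, h1, h2, h3]
    ring
  · simp_rw [Finset.sum_mul]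
    rw [Finset.sum_comm]
    refine Finset.sum_eq_zero fun i _ => ?_
    have : ∀ k, a i * (P.2.1 i k - A.2.1 i k) * ν k
        = a i * ((P.2.1 i k - A.2.1 i k) * ν k) := fun k => by ring
    simp_rw [this]
    rw [← Finset.mul_sum, hY i, mul_zero]

/-- The trace of `M(U)`. -/
def tr {n m : ℕ} (U : State n m) : ℝ := ∑ j, MM U j j

/-- If all complex eigenvalues of `M(U)` are equal then the trace is `m` times any of them. -/
lemma trace_eq {n m : ℕ} (U : State n m) (z : ℂ) (h : ∀ w, Eig U w → w = z) :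
    (tr U : ℂ) = m * z := by
  classical
  set B : Matrix (Fin m) (Fin m) ℂ := Matrix.of fun j k => (MM U j k : ℂ) with hB
  have htr : B.trace = (tr U : ℂ) := by
    simp [Matrix.trace, hB, tr]
  have h1 := Matrix.trace_eq_sum_roots_charpoly B
  have hroots : ∀ w ∈ B.charpoly.roots, w = z := by
    intro w hw
    apply h
    rw [Polynomial.mem_roots (Matrix.charpoly_monic B).ne_zero] at hw
    have hw2 : w ∈ spectrum ℂ B := by
      rw [Matrix.mem_spectrum_iff_isRoot_charpoly]; exact hw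
    rw [spectrum.mem_iff, Matrix.isUnit_iff_isUnit_det, isUnit_iff_ne_zero, not_not] at hw2
    obtain ⟨x, hx, hx2⟩ := Matrix.exists_mulVec_eq_zero_iff.mpr hw2
    refine ⟨x, hx, fun j => ?_⟩
    have := congrFun hx2 j
    rw [Matrix.sub_mulVec, Matrix.algebraMap_eq_diagonal] at this
    simp only [Pi.sub_apply, Pi.zero_apply, Matrix.mulVec_diagonal] at this
    simp only [Matrix.mulVec, dotProduct, hB, Matrix.of_apply, Pi.algebraMap_apply,
      Algebra.algebraMap_self, RingHom.id_apply] at this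
    linear_combination - this
  have hcard : B.charpoly.roots.card = m := by
    have hs := IsAlgClosed.splits B.charpoly
    have h3 := hs.natDegree_eq_card_roots
    rw [← h3, Matrix.charpoly_natDegree_eq_dim, Fintype.card_fin]
  rw [← htr, h1, Multiset.eq_replicate.mpr ⟨hcard, hroots⟩]
  simp

end MP73203d
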