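import Pool.Agent.MP_73203d_an.Spec

/-! Staircases in `K_f` for strictly rank-one convex integrands. -/

open Finset

namespace MP73203d

/-- One step: eigenvalues of `M` at the combination come from eigenvalues at the far point. -/
lemma eig_step {n m : ℕ} {f : Mat n m → ℝ} {A P : State n m} (hA : OnK f A) (hc : Conn P A)
    {s : ℝ} (hs : s ≠ 0) {z : ℂ} (hz : Eig (s • P + (1 - s) • A) z) :
    Eig P ((- f A.1 : ℝ) + (z - (- f A.1 : ℝ)) / s) := by
  obtain ⟨a, ν, hν, hX, hY, hZ⟩ := hc
  obtain ⟨G, v, h1, h2, h3⟩ := seg_data hX hY hZ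
  obtain ⟨x, hx, hxe⟩ := hz
  set α : ℝ := ∑ i, ∑ l, A.2.1 i l * (a i * ν l) with hα
  have hsC : (s : ℂ) ≠ 0 := by exact_mod_cast hs
  have hνC : (fun k => (ν k : ℂ)) ≠ 0 := by
    intro h
    apply hν
    funext k
    have := congrFun h k
    simpa using this
  have key : ∀ (y : Fin m → ℂ) (r : ℝ) (j : Fin m),
      ∑ k, (MM (r • P + (1 - r) • A) j k : ℂ) * y k
        = (- f A.1 : ℝ) * y j + r * ∑ k, (G j k : ℂ) * y k
          - (r : ℂ) ^ 2 * ((ν j : ℂ) * ∑ k, (v k : ℂ) * y k) := by
    intro y r j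
    have e : ∀ k, (MM (r • P + (1 - r) • A) j k : ℂ) * y k
        = (if j = k then ((- f A.1 : ℝ) : ℂ) * y k else 0) + r * ((G j k : ℂ) * y k)
          - (r : ℂ) ^ 2 * ((ν j : ℂ) * ((v k : ℂ) * y k)) := by
      intro k
      rw [h1 r j k, MM_onK hA j k]
      split_ifs <;> push_cast <;> ring
    simp_rw [e]
    rw [Finset.sum_sub_distrib, Finset.sum_add_distrib]
    simp [Finset.mul_sum]
  obtain ⟨y, hy, hye⟩ := eig_scale (fun j k => (G j k : ℂ)) (fun k => (ν k : ℂ))
    (fun k => (v k : ℂ)) (α : ℂ) s (z - (- f A.1 : ℝ)) hsC hνC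
    (fun j => by have := h2 j; exact_mod_cast this) (by exact_mod_cast h3) x hx
    (fun j => by
      have := hxe j
      rw [key x s j] at this
      linear_combination this)
  refine ⟨y, hy, fun j => ?_⟩
  have hP : P = (1 : ℝ) • P + (1 - (1 : ℝ)) • A := by simp
  have := key y 1 j
  rw [← hP] at this
  rw [this]
  have h4 := hye j
  push_cast at h4 ⊢
  linear_combination h4

/-- `ν` is an eigenvector of `M(P)`. -/
lemma eig_nu {n m : ℕ} {f : Mat n m → ℝ} {A P : State n m} (hA : OnK f A)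
    {a : Fin n → ℝ} {ν : Fin m → ℝ} (hν : ν ≠ 0)
    (hX : ∀ i j, P.1 i j - A.1 i j = a i * ν j)
    (hY : ∀ i, ∑ j, (P.2.1 i j - A.2.1 i j) * ν j = 0)
    (hZ : ∀ i, ∑ j, (P.2.2 i j - A.2.2 i j) * ν j = 0) :
    Eig P ((- f A.1 - ∑ i, ∑ l, A.2.1 i l * (a i * ν l) : ℝ) : ℂ) := by
  obtain ⟨G, v, h1, h2, h3⟩ := seg_data hX hY hZ
  have hνC : (fun k => (ν k : ℂ)) ≠ 0 := by
    intro h
    apply hν
    funext k
    have := congrFun h k
    simpa using this
  refine ⟨fun k => (ν k : ℂ), hνC, fun j => ?_⟩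
  have hP : P = (1 : ℝ) • P + (1 - (1 : ℝ)) • A := by simp
  have hR : ∑ k, MM P j k * ν k
      = (- f A.1 - ∑ i, ∑ l, A.2.1 i l * (a i * ν l)) * ν j := by
    have e : ∀ k, MM P j k * ν k = (if j = k then (- f A.1) * ν k else 0)
        + G j k * ν k - ν j * (v k * ν k) := by
      intro k
      have h5 := h1 1 j k
      rw [← hP, MM_onK hA j k] at h5
      rw [h5]
      split_ifs <;> ring
    simp_rw [e]
    rw [Finset.sum_sub_distrib, Finset.sum_add_distrib, ← Finset.mul_sum, h3, h2 j]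
    simp
    ring
  have hR2 := congrArg (fun r : ℝ => (r : ℂ)) hR
  simp only [Complex.ofReal_sum, Complex.ofReal_mul] at hR2
  beta_reduce
  exact hR2

/-- The trace of `M` is affine along the segment. -/
lemma tr_step {n m : ℕ} {f : Mat n m → ℝ} {A P : State n m} (hA : OnK f A) (hc : Conn P A)
    (s : ℝ) : tr (s • P + (1 - s) • A) = s * tr P + (1 - s) * (- (m * f A.1)) := by
  obtain ⟨a, ν, hν, hX, hY, hZ⟩ := hc
  obtain ⟨G, v, h1, h2, h3⟩ := seg_data hX hY hZ
  have h3' : ∑ j, ν j * v j = 0 := by rw [← h3]; exact Finset.sum_congr rfl fun k _ => by ring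
  have key : ∀ r : ℝ, tr (r • P + (1 - r) • A) = - (m * f A.1) + r * ∑ j, G j j := by
    intro r
    unfold tr
    have e : ∀ j, MM (r • P + (1 - r) • A) j j = - f A.1 + r * G j j - r ^ 2 * (ν j * v j) := by
      intro j
      rw [h1 r j j, MM_onK hA j j]
      simp
    simp_rw [e]
    rw [Finset.sum_sub_distrib, Finset.sum_add_distrib, ← Finset.mul_sum, ← Finset.mul_sum, h3']
    simp
  have hP : P = (1 : ℝ) • P + (1 - (1 : ℝ)) • A := by simp
  have k1 := key 1
  rw [← hP] at k1
  rw [key s, k1]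
  ring

/-- Convexity of `f` along the segment. -/
lemma f_step {n m : ℕ} {f : Mat n m → ℝ} (hf : StrictlyRankOneConvex f) {A P : State n m}
    (hc : Conn P A) {s : ℝ} (h0 : 0 ≤ s) (h1 : s ≤ 1) :
    f (s • P + (1 - s) • A).1 ≤ s * f P.1 + (1 - s) * f A.1 := by
  obtain ⟨a, ν, hν, hX, hY, hZ⟩ := hc
  have hP : ∀ r : ℝ, (r • P + (1 - r) • A).1 = fun i j => A.1 i j + r * (a i * ν j) := by
    intro r
    funext i j
    simp only [Prod.fst_add, Prod.smul_fst, Pi.add_apply, Pi.smul_apply, smul_eq_mul]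
    linear_combination r * hX i j
  have hP1 : P.1 = fun i j => A.1 i j + 1 * (a i * ν j) := by
    have := hP 1
    simpa using this
  have hA1 : A.1 = fun i j => A.1 i j + 0 * (a i * ν j) := by
    funext i j; simp
  by_cases ha : a = 0
  · have e1 : P.1 = A.1 := by
      rw [hP1, ha]; funext i j; simp
    rw [hP s, ha, e1]
    have : (fun i j => A.1 i j + s * ((0 : Fin n → ℝ) i * ν j)) = A.1 := by
      funext i j; simp
    rw [this]
    linarith
  · have hcv := (hf.2 A.1 a ν ha hν).convexOn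
    have := hcv.2 (Set.mem_univ (1 : ℝ)) (Set.mem_univ (0 : ℝ)) h0 (by linarith : (0:ℝ) ≤ 1 - s)
      (by ring)
    simp only [smul_eq_mul, mul_one, mul_zero, add_zero] at this
    rw [hP s]
    have e0 : f (fun i j => A.1 i j + 0 * (a i * ν j)) = f A.1 := by rw [← hA1]
    have e1 : f (fun i j => A.1 i j + 1 * (a i * ν j)) = f P.1 := by rw [← hP1]
    rw [e0, e1] at this
    exact this

/-- A strictly convex differentiable function lies strictly above its tangent. -/
lemma tangent_lt {g : ℝ → ℝ} (hg : StrictConvexOn ℝ Set.univ g) {g' : ℝ}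
    (hd : HasDerivAt g g' 0) : g 0 + g' < g 1 := by
  have h1 := hg.convexOn
  have h2 : g' ≤ slope g 0 (1 / 2) :=
    h1.le_slope_of_hasDerivAt (Set.mem_univ _) (Set.mem_univ _) (by norm_num) hd
  have h3 := hg.2 (Set.mem_univ (0 : ℝ)) (Set.mem_univ (1 : ℝ)) (by norm_num)
    (by norm_num : (0 : ℝ) < 1 / 2) (by norm_num : (0 : ℝ) < 1 / 2) (by norm_num)
  simp only [smul_eq_mul, mul_zero, mul_one, zero_add] at h3
  rw [slope_def_field] at h2
  have h4 : g' * (1 / 2) ≤ g (1 / 2) - g 0 := by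
    have : (g (1 / 2) - g 0) / (1 / 2 - 0) = (g (1 / 2) - g 0) * 2 := by ring
    rw [this] at h2
    linarith
  linarith

/-- The tangent inequality of `f` along the segment, strict unless `a = 0`. -/
lemma f_tangent {n m : ℕ} {f : Mat n m → ℝ} (hf : StrictlyRankOneConvex f) {A P : State n m}
    (hA : OnK f A) {a : Fin n → ℝ} {ν : Fin m → ℝ} (hν : ν ≠ 0) (ha : a ≠ 0)
    (hX : ∀ i j, P.1 i j - A.1 i j = a i * ν j) :
    f A.1 + ∑ i, ∑ l, A.2.1 i l * (a i * ν l) < f P.1 := by
  set H : Mat n m := fun i j => a i * ν j with hH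
  have hd : HasDerivAt (fun t : ℝ => f (A.1 + t • H)) (fderiv ℝ f A.1 H) 0 := by
    have h1 : HasFDerivAt f (fderiv ℝ f A.1) (A.1 + (0 : ℝ) • H) := by
      simpa using hA.1.1.hasFDerivAt
    have h2 : HasDerivAt (fun t : ℝ => A.1 + t • H) H 0 := by
      have := ((hasDerivAt_id (0 : ℝ)).smul_const H).const_add A.1
      simpa using this
    exact h1.comp_hasDerivAt (0 : ℝ) h2
  have he : (fun t : ℝ => f (A.1 + t • H)) = fun t : ℝ => f (fun i j => A.1 i j + t * (a i * ν j)) := by
    funext t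
    congr 1
  rw [he] at hd
  have h3 := tangent_lt (hf.2 A.1 a ν ha hν) hd
  have hP1 : P.1 = fun i j => A.1 i j + 1 * (a i * ν j) := by
    funext i j
    linear_combination hX i j
  have hA1 : (fun i j => A.1 i j + 0 * (a i * ν j)) = A.1 := by
    funext i j; simp
  simp only [hA1, ← hP1] at h3
  rw [hA.1.2 H] at h3
  exact h3

/-- The function `h` of the proof, times `m`. -/
def hh {n m : ℕ} (f : Mat n m → ℝ) (U : State n m) : ℝ := - tr U - m * f U.1

/-- The abstract staircase theorem. -/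
theorem staircase {n m : ℕ} (f : Mat n m → ℝ) (hf : StrictlyRankOneConvex f)
    (P A : ℕ → State n m) (lam : ℕ → ℝ)
    (h0 : ∀ j, 0 < lam j) (h1 : ∀ j, lam j < 1)
    (hA : ∀ j, OnK f (A j)) (hc : ∀ j, Conn (P (j + 1)) (A j))
    (hP : ∀ j, P j = lam j • P (j + 1) + (1 - lam j) • A j)
    (hb : Bornology.IsBounded (Set.range P))
    (hl : Filter.Tendsto (fun J => ∏ j ∈ Finset.range J, lam j) Filter.atTop (nhds 0)) :
    ∀ j, P j = A 0 ∧ A j = A 0 := by
  -- products starting at j
  have hl' : ∀ i, Filter.Tendsto (fun J => ∏ j ∈ Finset.range J, lam (i + j)) Filter.atTop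
      (nhds 0) := by
    intro i
    have e : ∀ J, ∏ j ∈ Finset.range J, lam (i + j)
        = (∏ j ∈ Finset.range (i + J), lam j) / ∏ j ∈ Finset.range i, lam j := by
      intro J
      rw [Finset.prod_range_add]
      have : ∏ j ∈ Finset.range i, lam j ≠ 0 := Finset.prod_ne_zero_iff.mpr fun j _ => (h0 j).ne'
      field_simp
    simp_rw [e]
    have h2 := hl.comp (Filter.tendsto_add_atTop_nat i)
    have h3 : Filter.Tendsto (fun J => ∏ j ∈ Finset.range (i + J), lam j) Filter.atTop (nhds 0) := by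
      refine h2.congr fun J => ?_
      simp [add_comm]
    have := h3.div_const (∏ j ∈ Finset.range i, lam j)
    simpa using this
  have hlpos : ∀ i J, 0 < ∏ j ∈ Finset.range J, lam (i + j) := fun i J =>
    Finset.prod_pos fun j _ => h0 _
  -- bounds
  obtain ⟨C, hC⟩ := hb.exists_norm_le
  have hC' : ∀ j, ‖P j‖ ≤ C := fun j => hC _ (Set.mem_range_self j)
  have hC0 : 0 ≤ C := (norm_nonneg _).trans (hC' 0)
  have hX : ∀ j i k, |(P j).1 i k| ≤ C := fun j i k =>
    ((norm_le_pi_norm ((P j).1 i) k).trans ((norm_le_pi_norm (P j).1 i).trans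
      (norm_fst_le _))).trans (hC' j)
  have hY : ∀ j i k, |(P j).2.1 i k| ≤ C := fun j i k =>
    ((norm_le_pi_norm ((P j).2.1 i) k).trans ((norm_le_pi_norm (P j).2.1 i).trans
      ((norm_fst_le _).trans (norm_snd_le _)))).trans (hC' j)
  have hZ : ∀ j i k, |(P j).2.2 i k| ≤ C := fun j i k =>
    ((norm_le_pi_norm ((P j).2.2 i) k).trans ((norm_le_pi_norm (P j).2.2 i).trans
      ((norm_snd_le _).trans (norm_snd_le _)))).trans (hC' j)
  have hM : ∀ j i k, |MM (P j) i k| ≤ C + n * C ^ 2 := by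
    intro j i k
    unfold MM
    have e1 : |∑ l, (P j).1 l i * (P j).2.1 l k| ≤ n * C ^ 2 := by
      refine (Finset.abs_sum_le_sum_abs _ _).trans ?_
      have : ∀ l ∈ (Finset.univ : Finset (Fin n)), |(P j).1 l i * (P j).2.1 l k| ≤ C ^ 2 := by
        intro l _
        rw [abs_mul, pow_two]
        exact mul_le_mul (hX j l i) (hY j l k) (abs_nonneg _) hC0
      refine (Finset.sum_le_card_nsmul _ _ _ this).trans ?_
      simp
    calc |(P j).2.2 i k - ∑ l, (P j).1 l i * (P j).2.1 l k|
        ≤ |(P j).2.2 i k| + |∑ l, (P j).1 l i * (P j).2.1 l k| := abs_sub _ _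
      _ ≤ C + n * C ^ 2 := add_le_add (hZ j i k) e1
  have hE : ∀ j z, Eig (P j) z → ‖z‖ ≤ m * (C + n * C ^ 2) := by
    intro j z hz
    obtain ⟨x, hx, hxe⟩ := hz
    have hm : (Finset.univ : Finset (Fin m)).Nonempty := by
      rw [Finset.univ_nonempty_iff]
      by_contra h
      rw [not_nonempty_iff] at h
      exact hx (Subsingleton.elim _ _)
    obtain ⟨i, -, hi⟩ := Finset.exists_max_image Finset.univ (fun i => ‖x i‖) hm
    have hxi : 0 < ‖x i‖ := by
      rw [norm_pos_iff]
      intro h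
      apply hx
      funext k
      have := hi k (Finset.mem_univ k)
      rw [h, norm_zero] at this
      exact norm_le_zero_iff.mp this
    have h5 : ‖z‖ * ‖x i‖ ≤ m * (C + n * C ^ 2) * ‖x i‖ := by
      rw [← norm_mul, ← hxe i]
      refine (norm_sum_le _ _).trans ?_
      have : ∀ k ∈ (Finset.univ : Finset (Fin m)), ‖(MM (P j) i k : ℂ) * x k‖
          ≤ (C + n * C ^ 2) * ‖x i‖ := by
        intro k hk
        rw [norm_mul, Complex.norm_real, Real.norm_eq_abs]
        exact mul_le_mul (hM j i k) (hi k hk) (norm_nonneg _)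
          (by positivity)
      refine (Finset.sum_le_card_nsmul _ _ _ this).trans ?_
      simp [mul_assoc]
    exact le_of_mul_le_mul_right h5 hxi
  -- all eigenvalues coincide
  have hEig1 : ∀ j z, Eig (P j) z →
      Eig (P (j + 1)) ((- f (A j).1 : ℝ) + (z - (- f (A j).1 : ℝ)) / lam j) := by
    intro j z hz
    rw [hP j] at hz
    exact eig_step (hA j) (hc j) (h0 j).ne' hz
  have hEig2 : ∀ i z w, Eig (P i) z → Eig (P i) w → ∀ J, ∃ z' w', Eig (P (i + J)) z' ∧
      Eig (P (i + J)) w' ∧ (z - w) = (∏ j ∈ Finset.range J, lam (i + j) : ℝ) * (z' - w') := by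
    intro i z w hz hw J
    induction J with
    | zero => exact ⟨z, w, hz, hw, by simp⟩
    | succ J ih =>
      obtain ⟨z', w', hz', hw', he⟩ := ih
      refine ⟨_, _, hEig1 (i + J) _ hz', hEig1 (i + J) _ hw', ?_⟩
      rw [he, Finset.prod_range_succ]
      have : (lam (i + J) : ℂ) ≠ 0 := by exact_mod_cast (h0 (i + J)).ne'
      push_cast
      field_simp
      ring
  have hEig : ∀ i z w, Eig (P i) z → Eig (P i) w → z = w := by
    intro i z w hz hw
    have hle : ∀ J, ‖z - w‖ ≤ (∏ j ∈ Finset.range J, lam (i + j)) *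
        (2 * (m * (C + n * C ^ 2))) := by
      intro J
      obtain ⟨z', w', hz', hw', he⟩ := hEig2 i z w hz hw J
      rw [he, norm_mul, Complex.norm_real, Real.norm_eq_abs, abs_of_pos (hlpos i J)]
      refine mul_le_mul_of_nonneg_left ?_ (hlpos i J).le
      calc ‖z' - w'‖ ≤ ‖z'‖ + ‖w'‖ := norm_sub_le _ _
        _ ≤ _ := by linarith [hE _ _ hz', hE _ _ hw']
    have hlim : Filter.Tendsto (fun J => (∏ j ∈ Finset.range J, lam (i + j)) *
        (2 * (m * (C + n * C ^ 2)))) Filter.atTop (nhds 0) := by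
      simpa using (hl' i).mul_const (2 * (m * (C + n * C ^ 2)))
    have := ge_of_tendsto' hlim hle
    exact sub_eq_zero.mp (norm_le_zero_iff.mp this)
  -- h is nonnegative
  have hfc : Continuous f := hf.1.continuous
  obtain ⟨D, hD⟩ : ∃ D : ℝ, ∀ j, f (P j).1 ≤ D := by
    have hcomp : IsCompact (Metric.closedBall (0 : Mat n m) C) := isCompact_closedBall _ _
    obtain ⟨D, hD⟩ := (hcomp.image hfc).bddAbove
    refine ⟨D, fun j => hD ⟨(P j).1, ?_, rfl⟩⟩
    rw [mem_closedBall_zero_iff]
    exact (norm_fst_le _).trans (hC' j)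
  have hstep : ∀ j, lam j * hh f (P (j + 1)) ≤ hh f (P j) := by
    intro j
    have e1 := tr_step (hA j) (hc j) (lam j)
    have e2 := f_step hf (hc j) (h0 j).le (h1 j).le
    rw [← hP j] at e1 e2
    unfold hh
    rw [e1]
    have : (m : ℝ) * f (P j).1 ≤ m * (lam j * f (P (j + 1)).1 + (1 - lam j) * f (A j).1) :=
      mul_le_mul_of_nonneg_left e2 (Nat.cast_nonneg m)
    nlinarith [this]
  have hstep2 : ∀ i J, (∏ j ∈ Finset.range J, lam (i + j)) * hh f (P (i + J)) ≤ hh f (P i) := by
    intro i J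
    induction J with
    | zero => simp
    | succ J ih =>
      refine le_trans ?_ ih
      rw [Finset.prod_range_succ, mul_assoc]
      refine mul_le_mul_of_nonneg_left (hstep (i + J)) (hlpos i J).le
  have hhpos : ∀ i, 0 ≤ hh f (P i) := by
    intro i
    have hlow : ∀ j, - (m * (C + n * C ^ 2)) - m * D ≤ hh f (P j) := by
      intro j
      unfold hh
      have e1 : tr (P j) ≤ m * (C + n * C ^ 2) := by
        unfold tr
        refine (Finset.sum_le_card_nsmul _ _ (C + n * C ^ 2)
          (fun k _ => (le_abs_self _).trans (hM j k k))).trans ?_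
        rw [Finset.card_univ, Fintype.card_fin, nsmul_eq_mul]
      have e2 : (m : ℝ) * f (P j).1 ≤ m * D := mul_le_mul_of_nonneg_left (hD j) (Nat.cast_nonneg m)
      linarith
    have hlim : Filter.Tendsto (fun J => (∏ j ∈ Finset.range J, lam (i + j)) *
        (- (m * (C + n * C ^ 2)) - m * D)) Filter.atTop (nhds 0) := by
      simpa using (hl' i).mul_const (- (m * (C + n * C ^ 2)) - m * D)
    refine le_of_tendsto' hlim fun J => ?_
    exact (mul_le_mul_of_nonneg_left (hlow (i + J)) (hlpos i J).le).trans (hstep2 i J)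
  -- the X components agree
  have hXeq : ∀ j, (P (j + 1)).1 = (A j).1 := by
    intro j
    obtain ⟨a, ν, hν, hX', hY', hZ'⟩ := hc j
    by_cases ha : a = 0
    · funext i k
      have := hX' i k
      rw [ha] at this
      simp only [Pi.zero_apply, zero_mul] at this
      linarith
    · exfalso
      have e1 := eig_nu (hA j) hν hX' hY' hZ'
      have e2 := trace_eq (P (j + 1)) _ (fun w hw => hEig (j + 1) w _ hw e1)
      have e3 := f_tangent hf (hA j) hν ha hX'
      have e4 : tr (P (j + 1)) = m * (- f (A j).1 - ∑ i, ∑ l, (A j).2.1 i l * (a i * ν l)) := by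
        exact_mod_cast e2
      have e5 := hhpos (j + 1)
      unfold hh at e5
      rw [e4] at e5
      have hm : (0 : ℝ) < m := by
        have : 0 < m := by
          rcases Nat.eq_zero_or_pos m with h | h
          · subst h
            exact absurd (Subsingleton.elim ν 0) hν
          · exact h
        exact_mod_cast this
      have e6 : (m : ℝ) * (f (A j).1 + ∑ i, ∑ l, (A j).2.1 i l * (a i * ν l))
          < m * f (P (j + 1)).1 := mul_lt_mul_of_pos_left e3 hm
      linarith
  have hXX : ∀ j, (P j).1 = (P (j + 1)).1 := by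
    intro j
    conv_lhs => rw [hP j]
    simp only [Prod.fst_add, Prod.smul_fst]
    rw [← hXeq j]
    module
  have hXall : ∀ j, (A j).1 = (A 0).1 := by
    intro j
    induction j with
    | zero => rfl
    | succ j ih => rw [← hXeq (j + 1), ← hXX (j + 1), hXeq j, ih]
  have hAall : ∀ j, A j = A 0 := by
    intro j
    have e1 : (A j).2.1 = (A 0).2.1 := by
      funext i k
      classical
      have g1 := (hA j).1.2 (fun i' k' => if i' = i ∧ k' = k then 1 else 0)
      have g2 := (hA 0).1.2 (fun i' k' => if i' = i ∧ k' = k then 1 else 0)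
      rw [hXall j, g2] at g1
      simp only [ite_and, mul_ite, mul_one, mul_zero, Finset.sum_ite_irrel, Finset.sum_ite_eq',
        Finset.mem_univ, if_true, Finset.sum_const_zero] at g1
      exact g1.symm
    have e2 : (A j).2.2 = (A 0).2.2 := by
      funext i k
      rw [(hA j).2 i k, (hA 0).2 i k, hXall j, e1]
    exact Prod.ext (hXall j) (Prod.ext e1 e2)
  refine fun i => ⟨?_, hAall i⟩
  have hd : ∀ J, P i - A 0 = (∏ j ∈ Finset.range J, lam (i + j)) • (P (i + J) - A 0) := by
    intro J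
    induction J with
    | zero => simp
    | succ J ih =>
      rw [ih, Finset.prod_range_succ, mul_smul]
      congr 1
      conv_lhs => rw [hP (i + J), hAall (i + J)]
      rw [show i + (J + 1) = i + J + 1 from rfl]
      module
  have hle : ∀ J, ‖P i - A 0‖ ≤ (∏ j ∈ Finset.range J, lam (i + j)) * (C + ‖A 0‖) := by
    intro J
    rw [hd J, norm_smul, Real.norm_eq_abs, abs_of_pos (hlpos i J)]
    refine mul_le_mul_of_nonneg_left ?_ (hlpos i J).le
    exact (norm_sub_le _ _).trans (add_le_add (hC' _) le_rfl)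
  have hlim : Filter.Tendsto (fun J => (∏ j ∈ Finset.range J, lam (i + j)) *
      (C + ‖A 0‖)) Filter.atTop (nhds 0) := by
    simpa using (hl' i).mul_const (C + ‖A 0‖)
  have := ge_of_tendsto' hlim hle
  exact sub_eq_zero.mp (norm_le_zero_iff.mp this)

end MP73203d
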