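import Mathlib

/-! The algebra of one splitting, with errors. -/

namespace MP73203d

lemma step_real2 {γ Λ T A B D p q r u e ρ η K1 K2 : ℝ} (hγ : 0 < γ) (hΛ : γ ≤ Λ)
    (hp : 0 ≤ p) (hq : 0 ≤ q) (hD : 0 ≤ D) (hr : r ^ 2 ≤ p * q)
    (hu : u ^ 2 ≤ (T * D + 2 * η ^ 2) * q) (he1 : γ * q ≤ e) (he2 : e ≤ Λ * q)
    (hD' : 0 ≤ D + u - ρ - e) (hT0 : 0 ≤ T) (hT1 : T ≤ γ / 64)
    (hT2 : 8 * Λ ^ 2 / γ ^ 2 * T ≤ γ / 8) (hA : A = 16 / γ) (hB0 : 0 ≤ B)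
    (hB : 12 / γ + A * (1 + 8 / γ * T + T / 2 + (4 * Λ ^ 2 / γ + 1) * (4 / γ)) ≤ B * γ / 2)
    (hK2 : 18 / γ ^ 2 + A * (16 / γ + 1 + (4 * Λ ^ 2 / γ + 1) * (6 / γ ^ 2))
      + B * (5 + 16 * Λ ^ 2 / γ ^ 2) ≤ K2)
    (hK1 : 12 / γ ^ 2 + A * (8 / γ + 1 / 2 + (4 * Λ ^ 2 / γ + 1) * (4 / γ ^ 2))
      + B * (3 + 8 * Λ ^ 2 / γ ^ 2) ≤ K1) :
    2 * p * q + 4 * r ^ 2 + 4 * r * q + q ^ 2
      + A * (-(p * e) + 2 * r * (u - ρ - e) + q * (D + u - ρ - e))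
      + B * (-(2 * D * e) + (u - ρ - e) ^ 2) ≤ K1 * ρ ^ 2 + K2 * (η ^ 2 * q) := by
  have hA0 : 0 < A := by rw [hA]; positivity
  have hAγ : A * γ = 16 := by rw [hA]; field_simp
  have hDq : 0 ≤ D * q := mul_nonneg hD hq
  have hpq : 0 ≤ p * q := mul_nonneg hp hq
  have hηq : 0 ≤ η ^ 2 * q := by positivity
  have hρ2 : 0 ≤ ρ ^ 2 := sq_nonneg ρ
  have he0 : 0 ≤ e := (mul_nonneg hγ.le hq).trans he1
  have hΛ0 : 0 < Λ := lt_of_lt_of_le hγ hΛ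
  -- bound on `q`
  have hqD : γ * q ≤ 2 * D + 2 * |ρ| + 3 * η ^ 2 / γ := by
    have h2 : |u| ≤ γ * q / 4 + (T * D + 2 * η ^ 2) / γ := by
      have hTD : 0 ≤ T * D := mul_nonneg hT0 hD
      refine abs_le_of_sq_le_sq ?_ (by positivity)
      have h3 : (γ * q / 4 + (T * D + 2 * η ^ 2) / γ) ^ 2
          = (γ * q / 4 - (T * D + 2 * η ^ 2) / γ) ^ 2 + (T * D + 2 * η ^ 2) * q := by
        field_simp
        ring
      rw [h3]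
      linarith [sq_nonneg (γ * q / 4 - (T * D + 2 * η ^ 2) / γ)]
    have h3 : (T * D + 2 * η ^ 2) / γ ≤ D / 64 + 2 * η ^ 2 / γ := by
      have : T * D / γ ≤ D / 64 := by
        rw [div_le_iff₀ hγ]
        have := mul_le_mul_of_nonneg_right hT1 hD
        linarith
      have e1 : (T * D + 2 * η ^ 2) / γ = T * D / γ + 2 * η ^ 2 / γ := by ring
      rw [e1]; linarith
    have h4 := le_abs_self u
    have h5 := neg_abs_le ρ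
    have h6 : 0 ≤ η ^ 2 / γ := by positivity
    have h7 : 3 * η ^ 2 / γ = 3 * (η ^ 2 / γ) := by ring
    have h8 : 2 * η ^ 2 / γ = 2 * (η ^ 2 / γ) := by ring
    have h9 := abs_nonneg ρ
    rw [h7]
    rw [h8] at h3
    linarith
  have hq2 : q ^ 2 ≤ 4 / γ * (D * q) + 6 / γ ^ 2 * (η ^ 2 * q) + 4 / γ ^ 2 * ρ ^ 2 := by
    have h1 := mul_le_mul_of_nonneg_right hqD hq
    have h2 : 2 * |ρ| * q ≤ γ / 2 * q ^ 2 + 2 / γ * ρ ^ 2 := by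
      have h3 : 0 ≤ γ / 2 * (q - 2 / γ * |ρ|) ^ 2 := by positivity
      have h4 : γ / 2 * (q - 2 / γ * |ρ|) ^ 2 = γ / 2 * q ^ 2 - 2 * |ρ| * q + 2 / γ * |ρ| ^ 2 := by
        field_simp
        ring
      rw [sq_abs] at h4
      linarith
    have h5 : γ / 2 * q ^ 2 ≤ 2 * (D * q) + 3 / γ * (η ^ 2 * q) + 2 / γ * ρ ^ 2 := by
      have : 3 * η ^ 2 / γ * q = 3 / γ * (η ^ 2 * q) := by ring
      linarith
    have h6 : q ^ 2 = 2 / γ * (γ / 2 * q ^ 2) := by field_simp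
    rw [h6]
    have h7 := mul_le_mul_of_nonneg_left h5 (by positivity : 0 ≤ 2 / γ)
    refine h7.trans (le_of_eq ?_)
    field_simp
    ring
  have he22 : e ^ 2 ≤ Λ ^ 2 * q ^ 2 := by
    have := pow_le_pow_left₀ he0 he2 2
    linarith [mul_pow Λ q 2]
  have hu2 : u ^ 2 ≤ T * (D * q) + 2 * (η ^ 2 * q) := by linarith
  set w := u - ρ with hw
  have hw2 : w ^ 2 ≤ 2 * T * (D * q) + 4 * (η ^ 2 * q) + 2 * ρ ^ 2 := by
    have : w ^ 2 ≤ 2 * u ^ 2 + 2 * ρ ^ 2 := by rw [hw]; linarith [sq_nonneg (u + ρ)]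
    linarith
  -- the B part
  set s : ℝ := γ ^ 2 / (32 * Λ ^ 2) with hs
  have hs0 : 0 < s := by positivity
  have hse : 2 * s * e ^ 2 ≤ γ / 4 * (D * q) + 3 / 8 * (η ^ 2 * q) + 1 / 4 * ρ ^ 2 := by
    have h1 : 2 * s * e ^ 2 ≤ 2 * s * (Λ ^ 2 * q ^ 2) :=
      mul_le_mul_of_nonneg_left he22 (by positivity)
    have h2 : 2 * s * (Λ ^ 2 * q ^ 2) = γ ^ 2 / 16 * q ^ 2 := by
      rw [hs]; field_simp; ring
    have h3 := mul_le_mul_of_nonneg_left hq2 (by positivity : 0 ≤ γ ^ 2 / 16)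
    have h4 : γ ^ 2 / 16 * (4 / γ * (D * q) + 6 / γ ^ 2 * (η ^ 2 * q) + 4 / γ ^ 2 * ρ ^ 2)
        = γ / 4 * (D * q) + 3 / 8 * (η ^ 2 * q) + 1 / 4 * ρ ^ 2 := by
      field_simp
      ring
    linarith
  have hamgm : ∀ z : ℝ, z * e ≤ s * e ^ 2 + 8 * Λ ^ 2 / γ ^ 2 * z ^ 2 := by
    intro z
    have h3 : 0 ≤ s * (e - 16 * Λ ^ 2 / γ ^ 2 * z) ^ 2 := by positivity
    have h4 : s * (e - 16 * Λ ^ 2 / γ ^ 2 * z) ^ 2
        = s * e ^ 2 - z * e + 8 * Λ ^ 2 / γ ^ 2 * z ^ 2 := by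
      rw [hs]; field_simp; ring
    linarith
  have hBpart : -(2 * D * e) + (w - e) ^ 2
      ≤ -(γ / 2) * (D * q) + (5 + 16 * Λ ^ 2 / γ ^ 2) * (η ^ 2 * q)
        + (3 + 8 * Λ ^ 2 / γ ^ 2) * ρ ^ 2 := by
    have h1 : e ^ 2 ≤ e * (D + w) := by
      have : 0 ≤ e * (D + u - ρ - e) := mul_nonneg he0 hD'
      rw [hw]; linarith
    have h2 : (w - e) ^ 2 ≤ w ^ 2 - w * e + D * e := by linarith
    have h3 : -(w * e) ≤ (s * e ^ 2 + 8 * Λ ^ 2 / γ ^ 2 * u ^ 2)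
        + (s * e ^ 2 + 8 * Λ ^ 2 / γ ^ 2 * ρ ^ 2) := by
      have a1 := hamgm (-u)
      have a2 := hamgm ρ
      have e1 : (-u) ^ 2 = u ^ 2 := by ring
      rw [e1] at a1
      rw [hw]; linarith
    have h4 : 8 * Λ ^ 2 / γ ^ 2 * u ^ 2 ≤ γ / 8 * (D * q) + 16 * Λ ^ 2 / γ ^ 2 * (η ^ 2 * q) := by
      have a1 := mul_le_mul_of_nonneg_left hu2 (by positivity : 0 ≤ 8 * Λ ^ 2 / γ ^ 2)
      have a2 := mul_le_mul_of_nonneg_right hT2 hDq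
      have e1 : 8 * Λ ^ 2 / γ ^ 2 * (T * (D * q) + 2 * (η ^ 2 * q))
          = 8 * Λ ^ 2 / γ ^ 2 * T * (D * q) + 16 * Λ ^ 2 / γ ^ 2 * (η ^ 2 * q) := by ring
      linarith
    have h5 : D * (γ * q) ≤ D * e := mul_le_mul_of_nonneg_left he1 hD
    have h6 : 2 * T * (D * q) ≤ γ / 8 * (D * q) :=
      mul_le_mul_of_nonneg_right (by linarith) hDq
    linarith
  have hBpart2 := mul_le_mul_of_nonneg_left hBpart hB0
  -- the A part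
  have hA1 : 2 * r * w ≤ γ / 4 * (p * q) + (8 / γ * T * (D * q) + 16 / γ * (η ^ 2 * q)
      + 8 / γ * ρ ^ 2) := by
    have h1 : 2 * r * w ≤ γ / 4 * r ^ 2 + 4 / γ * w ^ 2 := by
      have h2 : 0 ≤ γ / 4 * (r - 4 / γ * w) ^ 2 := by positivity
      have h3 : γ / 4 * (r - 4 / γ * w) ^ 2 = γ / 4 * r ^ 2 - 2 * r * w + 4 / γ * w ^ 2 := by
        field_simp
        ring
      linarith
    have h4 : γ / 4 * r ^ 2 ≤ γ / 4 * (p * q) := mul_le_mul_of_nonneg_left hr (by positivity)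
    have h5 := mul_le_mul_of_nonneg_left hw2 (by positivity : 0 ≤ 4 / γ)
    have h8 : 4 / γ * (2 * T * (D * q) + 4 * (η ^ 2 * q) + 2 * ρ ^ 2)
        = 8 / γ * T * (D * q) + 16 / γ * (η ^ 2 * q) + 8 / γ * ρ ^ 2 := by ring
    linarith
  have hA2 : -(2 * r * e) ≤ γ / 4 * (p * q) + 4 * Λ ^ 2 / γ * q ^ 2 := by
    have h1 : -(2 * r * e) ≤ γ / 4 * r ^ 2 + 4 / γ * e ^ 2 := by
      have h2 : 0 ≤ γ / 4 * (r + 4 / γ * e) ^ 2 := by positivity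
      have h3 : γ / 4 * (r + 4 / γ * e) ^ 2 = γ / 4 * r ^ 2 + 2 * r * e + 4 / γ * e ^ 2 := by
        field_simp
        ring
      linarith
    have h4 : γ / 4 * r ^ 2 ≤ γ / 4 * (p * q) := mul_le_mul_of_nonneg_left hr (by positivity)
    have h7 := mul_le_mul_of_nonneg_left he22 (by positivity : 0 ≤ 4 / γ)
    have h8 : 4 / γ * (Λ ^ 2 * q ^ 2) = 4 * Λ ^ 2 / γ * q ^ 2 := by ring
    linarith
  have hA3 : q * (D + w - e) ≤ D * q + q ^ 2 + (T / 2 * (D * q) + η ^ 2 * q) + 1 / 2 * ρ ^ 2 := by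
    have h1 := mul_nonneg hq he0
    have h2 : q * u ≤ q ^ 2 / 2 + u ^ 2 / 2 := by linarith [sq_nonneg (q - u)]
    have h3 : -(q * ρ) ≤ q ^ 2 / 2 + ρ ^ 2 / 2 := by linarith [sq_nonneg (q + ρ)]
    rw [hw]
    linarith
  have hA4 : -(p * e) ≤ -(γ * (p * q)) := by
    have := mul_le_mul_of_nonneg_left he1 hp
    linarith
  have hq2' := mul_le_mul_of_nonneg_left hq2 (by positivity : 0 ≤ 4 * Λ ^ 2 / γ + 1)
  have hAsum : -(p * e) + 2 * r * (w - e) + q * (D + w - e)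
      ≤ -(γ / 2) * (p * q)
        + (1 + 8 / γ * T + T / 2 + (4 * Λ ^ 2 / γ + 1) * (4 / γ)) * (D * q)
        + (16 / γ + 1 + (4 * Λ ^ 2 / γ + 1) * (6 / γ ^ 2)) * (η ^ 2 * q)
        + (8 / γ + 1 / 2 + (4 * Λ ^ 2 / γ + 1) * (4 / γ ^ 2)) * ρ ^ 2 := by
    linarith
  have hApart := mul_le_mul_of_nonneg_left hAsum hA0.le
  -- the first part
  have h1part : 2 * p * q + 4 * r ^ 2 + 4 * r * q + q ^ 2
      ≤ 8 * (p * q) + 12 / γ * (D * q) + 18 / γ ^ 2 * (η ^ 2 * q) + 12 / γ ^ 2 * ρ ^ 2 := by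
    have h1 : 4 * r * q ≤ 2 * r ^ 2 + 2 * q ^ 2 := by linarith [sq_nonneg (r - q)]
    have h3 : 3 * (4 / γ * (D * q) + 6 / γ ^ 2 * (η ^ 2 * q) + 4 / γ ^ 2 * ρ ^ 2)
        = 12 / γ * (D * q) + 18 / γ ^ 2 * (η ^ 2 * q) + 12 / γ ^ 2 * ρ ^ 2 := by ring
    linarith
  have e1 : A * (-(γ / 2) * (p * q)) = -8 * (p * q) := by
    have : A * (-(γ / 2) * (p * q)) = -(A * γ) / 2 * (p * q) := by ring
    rw [this, hAγ]; ring
  have f1 := mul_le_mul_of_nonneg_right hB hDq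
  have f2 := mul_le_mul_of_nonneg_right hK2 hηq
  have f3 := mul_le_mul_of_nonneg_right hK1 hρ2
  have e2 : D + u - ρ - e = D + w - e := by rw [hw]; ring
  rw [e2]
  linarith

end MP73203d
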