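import Pool.Agent.MP_73203d_an.TreeCore
import Pool.Agent.MP_73203d_an.LamMat

/-! Laminates of finite order: the algebra of one splitting. -/

open Finset

namespace MP73203d

variable {n m : ℕ}

/-- `W` is the point `U + r (a ⊗ ν, ...)`. -/
structure Seg (a : Fin n → ℝ) (ν : Fin m → ℝ) (r : ℝ) (U W : State n m) : Prop where
  hX : ∀ i j, W.1 i j - U.1 i j = r * (a i * ν j)
  hY : ∀ i, ∑ j, (W.2.1 i j - U.2.1 i j) * ν j = 0
  hZ : ∀ i, ∑ j, (W.2.2 i j - U.2.2 i j) * ν j = 0

lemma seg_of_conn {ν : Fin m → ℝ} {V W U : State n m} {c : ℝ} (h : ConnAlong ν V W)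
    (hU : U = c • V + (1 - c) • W) : ∃ a : Fin n → ℝ, (∀ i j, V.1 i j - W.1 i j = a i * ν j) ∧
      Seg a ν (1 - c) U V ∧ Seg a ν (-c) U W := by
  obtain ⟨a, h1, h2, h3⟩ := h
  have e1 : ∀ i j, U.1 i j = c * V.1 i j + (1 - c) * W.1 i j := fun i j => by rw [hU]; simp
  have e2 : ∀ i j, U.2.1 i j = c * V.2.1 i j + (1 - c) * W.2.1 i j := fun i j => by
    rw [hU]; simp
  have e3 : ∀ i j, U.2.2 i j = c * V.2.2 i j + (1 - c) * W.2.2 i j := fun i j => by
    rw [hU]; simp
  refine ⟨a, h1, ⟨fun i j => ?_, fun i => ?_, fun i => ?_⟩, ⟨fun i j => ?_, fun i => ?_,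
    fun i => ?_⟩⟩
  · rw [e1 i j]
    linear_combination (1 - c) * h1 i j
  · have : ∀ j, (V.2.1 i j - U.2.1 i j) * ν j
        = (1 - c) * ((V.2.1 i j - W.2.1 i j) * ν j) := by intro j; rw [e2 i j]; ring
    simp_rw [this]
    rw [← Finset.mul_sum, h2 i, mul_zero]
  · have : ∀ j, (V.2.2 i j - U.2.2 i j) * ν j
        = (1 - c) * ((V.2.2 i j - W.2.2 i j) * ν j) := by intro j; rw [e3 i j]; ring
    simp_rw [this]
    rw [← Finset.mul_sum, h3 i, mul_zero]
  · rw [e1 i j]
    linear_combination (-c) * h1 i j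
  · have : ∀ j, (W.2.1 i j - U.2.1 i j) * ν j
        = (-c) * ((V.2.1 i j - W.2.1 i j) * ν j) := by intro j; rw [e2 i j]; ring
    simp_rw [this]
    rw [← Finset.mul_sum, h2 i, mul_zero]
  · have : ∀ j, (W.2.2 i j - U.2.2 i j) * ν j
        = (-c) * ((V.2.2 i j - W.2.2 i j) * ν j) := by intro j; rw [e3 i j]; ring
    simp_rw [this]
    rw [← Finset.mul_sum, h3 i, mul_zero]

section
variable {U V W : State n m} {c : ℝ} (hU : U = c • V + (1 - c) • W)

include hU in
lemma avg2_Z (j k : Fin m) :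
    c * (V.2.2 j k - U.2.2 j k) + (1 - c) * (W.2.2 j k - U.2.2 j k) = 0 := by
  have : U.2.2 j k = c * V.2.2 j k + (1 - c) * W.2.2 j k := by rw [hU]; simp
  linear_combination - this

include hU in
lemma avg2_Y (i : Fin n) (k : Fin m) :
    c * (V.2.1 i k - U.2.1 i k) + (1 - c) * (W.2.1 i k - U.2.1 i k) = 0 := by
  have : U.2.1 i k = c * V.2.1 i k + (1 - c) * W.2.1 i k := by rw [hU]; simp
  linear_combination - this

include hU in
lemma avg2_X (i : Fin n) (k : Fin m) :
    c * (V.1 i k - U.1 i k) + (1 - c) * (W.1 i k - U.1 i k) = 0 := by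
  have : U.1 i k = c * V.1 i k + (1 - c) * W.1 i k := by rw [hU]; simp
  linear_combination - this

include hU in
lemma avg2_inc : c * incXY U V + (1 - c) * incXY U W = 0 := by
  unfold incXY
  rw [Finset.mul_sum, Finset.mul_sum, ← Finset.sum_add_distrib]
  refine Finset.sum_eq_zero fun i _ => ?_
  rw [Finset.mul_sum, Finset.mul_sum, ← Finset.sum_add_distrib]
  refine Finset.sum_eq_zero fun j _ => ?_
  linear_combination (U.2.1 i j) * avg2_X hU i j

/-- The trace of `M` along a segment. -/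
lemma tr_seg {a : Fin n → ℝ} {ν : Fin m → ℝ} {r : ℝ} {U W : State n m} (h : Seg a ν r U W) :
    ∑ j, MM W j j = (∑ j, MM U j j) + (∑ j, (W.2.2 j j - U.2.2 j j)) - incXY U W
      - ∑ i, ∑ j, U.1 i j * (W.2.1 i j - U.2.1 i j) := by
  have h3 : ∑ i, ∑ j, (W.1 i j - U.1 i j) * (W.2.1 i j - U.2.1 i j) = 0 := by
    refine Finset.sum_eq_zero fun i _ => ?_
    have : ∀ j, (W.1 i j - U.1 i j) * (W.2.1 i j - U.2.1 i j)
        = (r * a i) * ((W.2.1 i j - U.2.1 i j) * ν j) := by
      intro j; rw [h.hX i j]; ring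
    simp_rw [this]
    rw [← Finset.mul_sum, h.hY i, mul_zero]
  rw [tr_eq, tr_eq]
  unfold incXY
  have h4 : ∑ i, ∑ j, W.1 i j * W.2.1 i j
      = (∑ i, ∑ j, U.1 i j * U.2.1 i j)
        + (∑ i, ∑ j, (W.1 i j - U.1 i j) * U.2.1 i j)
        + (∑ i, ∑ j, U.1 i j * (W.2.1 i j - U.2.1 i j))
        + ∑ i, ∑ j, (W.1 i j - U.1 i j) * (W.2.1 i j - U.2.1 i j) := by
    simp_rw [← Finset.sum_add_distrib]
    exact Finset.sum_congr rfl fun i _ => Finset.sum_congr rfl fun j _ => by ring
  rw [h4, h3, Finset.sum_sub_distrib]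
  ring

include hU in
/-- `tr M` is a martingale. -/
lemma avg2_tr {a : Fin n → ℝ} {ν : Fin m → ℝ} {r s : ℝ} (h1 : Seg a ν r U V)
    (h2 : Seg a ν s U W) :
    c * (∑ j, MM V j j) + (1 - c) * (∑ j, MM W j j) = ∑ j, MM U j j := by
  rw [tr_seg h1, tr_seg h2]
  have i1 := avg2_inc hU
  have i2 : c * (∑ j, (V.2.2 j j - U.2.2 j j)) + (1 - c) * (∑ j, (W.2.2 j j - U.2.2 j j))
      = 0 := by
    rw [Finset.mul_sum, Finset.mul_sum, ← Finset.sum_add_distrib]
    exact Finset.sum_eq_zero fun j _ => avg2_Z hU j j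
  have i3 : c * (∑ i, ∑ j, U.1 i j * (V.2.1 i j - U.2.1 i j))
      + (1 - c) * (∑ i, ∑ j, U.1 i j * (W.2.1 i j - U.2.1 i j)) = 0 := by
    rw [Finset.mul_sum, Finset.mul_sum, ← Finset.sum_add_distrib]
    refine Finset.sum_eq_zero fun i _ => ?_
    rw [Finset.mul_sum, Finset.mul_sum, ← Finset.sum_add_distrib]
    refine Finset.sum_eq_zero fun j _ => ?_
    linear_combination (U.1 i j) * avg2_Y hU i j
  linear_combination i2 - i1 - i3

include hU in
/-- `s · M t` is a martingale if `t` is the normal. -/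
lemma avg2_Nst_normal {a : Fin n → ℝ} {ν : Fin m → ℝ} {r s : ℝ} (h1 : Seg a ν r U V)
    (h2 : Seg a ν s U W) (z : Fin m → ℝ) :
    c * Nst z ν V + (1 - c) * Nst z ν W = Nst z ν U := by
  rw [Nst_normal h1.hX h1.hY h1.hZ z, Nst_normal h2.hX h2.hY h2.hZ z]
  linear_combination -(∑ j, z j * ν j) * avg2_inc hU

include hU in
/-- `s · M t` is a martingale if `s` is orthogonal to the normal. -/
lemma avg2_Nst_orth {a : Fin n → ℝ} {ν : Fin m → ℝ} {r s : ℝ} (h1 : Seg a ν r U V)
    (h2 : Seg a ν s U W) (z t : Fin m → ℝ) (hz : ∑ j, z j * ν j = 0) :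
    c * Nst z t V + (1 - c) * Nst z t W = Nst z t U := by
  rw [Nst_orth h1.hX z t hz, Nst_orth h2.hX z t hz]
  have i1 : c * (∑ j, ∑ p, z j * (V.2.2 j p - U.2.2 j p) * t p)
      + (1 - c) * (∑ j, ∑ p, z j * (W.2.2 j p - U.2.2 j p) * t p) = 0 := by
    rw [Finset.mul_sum, Finset.mul_sum, ← Finset.sum_add_distrib]
    refine Finset.sum_eq_zero fun j _ => ?_
    rw [Finset.mul_sum, Finset.mul_sum, ← Finset.sum_add_distrib]
    refine Finset.sum_eq_zero fun p _ => ?_
    linear_combination (z j * t p) * avg2_Z hU j p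
  have i2 : c * (∑ i, (∑ j, U.1 i j * z j) * (∑ p, (V.2.1 i p - U.2.1 i p) * t p))
      + (1 - c) * (∑ i, (∑ j, U.1 i j * z j) * (∑ p, (W.2.1 i p - U.2.1 i p) * t p)) = 0 := by
    rw [Finset.mul_sum, Finset.mul_sum, ← Finset.sum_add_distrib]
    refine Finset.sum_eq_zero fun i _ => ?_
    have i3 : c * (∑ p, (V.2.1 i p - U.2.1 i p) * t p)
        + (1 - c) * (∑ p, (W.2.1 i p - U.2.1 i p) * t p) = 0 := by
      rw [Finset.mul_sum, Finset.mul_sum, ← Finset.sum_add_distrib]
      refine Finset.sum_eq_zero fun p _ => ?_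
      linear_combination (t p) * avg2_Y hU i p
    linear_combination (∑ j, U.1 i j * z j) * i3
  linear_combination i1 - i2

end

section
variable {P : (Fin m → ℝ) → State n m → State n m → Prop}

lemma bary_node (c : ℝ) (l r : Tr (State n m)) :
    bary (.node c l r) = c • bary l + (1 - c) • bary r := rfl

lemma mean_x (t : Tr (State n m)) :
    Tr.mean (fun U : State n m => ofMat n m U.1) t = ofMat n m (bary t).1 := by
  have : Tr.mean (fun U : State n m => ((ofMat n m : Mat n m →L[ℝ] EV n m).toLinearMap ∘ₗ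
      LinearMap.fst ℝ (Mat n m) (Mat n m × Mat m m)) U) t
      = ((ofMat n m : Mat n m →L[ℝ] EV n m).toLinearMap ∘ₗ
      LinearMap.fst ℝ (Mat n m) (Mat n m × Mat m m)) (bary t) :=
    Tr.mean_map _ _ t
  exact this

lemma mean_g (t : Tr (State n m)) :
    Tr.mean (fun U : State n m => ofMat n m U.2.1) t = ofMat n m (bary t).2.1 := by
  have : Tr.mean (fun U : State n m => ((ofMat n m : Mat n m →L[ℝ] EV n m).toLinearMap ∘ₗ
      LinearMap.fst ℝ (Mat n m) (Mat m m) ∘ₗ
      LinearMap.snd ℝ (Mat n m) (Mat n m × Mat m m)) U) t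
      = ((ofMat n m : Mat n m →L[ℝ] EV n m).toLinearMap ∘ₗ
      LinearMap.fst ℝ (Mat n m) (Mat m m) ∘ₗ
      LinearMap.snd ℝ (Mat n m) (Mat n m × Mat m m)) (bary t) :=
    Tr.mean_map _ _ t
  exact this

lemma mean_Nst_frame {β β' : Fin m → Fin m → ℝ} (hβ : Dual β β') (k : Fin m)
    {t : Tr (State n m)} (ht : IsLam (InFrame β) t) :
    Tr.mean (fun U : State n m => Nst (β' k) (β k) U) t = Nst (β' k) (β k) (bary t) := by
  induction t with
  | leaf U => rfl
  | node c l r hl hr =>
    obtain ⟨hc, hGl, hGr, ν, hν, hconn, l0, hl0⟩ := ht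
    subst hl0
    rw [Tr.mean_node_real, hl hGl, hr hGr]
    obtain ⟨a, -, s1, s2⟩ := seg_of_conn hconn (bary_node c l r)
    by_cases hlk : l0 = k
    · subst hlk
      exact avg2_Nst_normal (bary_node c l r) s1 s2 _
    · refine avg2_Nst_orth (bary_node c l r) s1 s2 _ _ ?_
      rw [hβ l0 k, if_neg hlk]

lemma mean_tr_lam {t : Tr (State n m)} (ht : IsLam P t) :
    Tr.mean (fun U : State n m => ∑ j, MM U j j) t = ∑ j, MM (bary t) j j := by
  induction t with
  | leaf U => rfl
  | node c l r hl hr =>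
    obtain ⟨hc, hGl, hGr, ν, hν, hconn, -⟩ := ht
    rw [Tr.mean_node_real, hl hGl, hr hGr]
    obtain ⟨a, -, s1, s2⟩ := seg_of_conn hconn (bary_node c l r)
    exact avg2_tr (bary_node c l r) s1 s2

/-- The admissible increments. -/
def Adm (d : EV n m) : Prop := ∃ (a : Fin n → ℝ) (ν : Fin m → ℝ), d = ofMat n m fun i j => a i * ν j

lemma inner_inc (U V W : State n m) :
    inner ℝ (ofMat n m V.1 - ofMat n m W.1) (ofMat n m U.2.1) = incXY U V - incXY U W := by
  rw [← map_sub, inner_ofMat]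
  unfold incXY
  rw [← Finset.sum_sub_distrib]
  refine Finset.sum_congr rfl fun i _ => ?_
  rw [← Finset.sum_sub_distrib]
  refine Finset.sum_congr rfl fun j _ => ?_
  simp only [Pi.sub_apply]
  ring

lemma orth_of_conn {ν : Fin m → ℝ} {V W : State n m} (h : ConnAlong ν V W) :
    inner ℝ (ofMat n m V.1 - ofMat n m W.1) (ofMat n m V.2.1 - ofMat n m W.2.1) = 0 := by
  obtain ⟨a, h1, h2, -⟩ := h
  rw [← map_sub, ← map_sub, inner_ofMat]
  refine Finset.sum_eq_zero fun i _ => ?_
  have : ∀ j, (V.1 - W.1) i j * (V.2.1 - W.2.1) i j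
      = a i * ((V.2.1 i j - W.2.1 i j) * ν j) := by
    intro j
    simp only [Pi.sub_apply]
    rw [h1 i j]
    ring
  simp_rw [this]
  rw [← Finset.mul_sum, h2 i, mul_zero]

lemma adm_of_conn {ν : Fin m → ℝ} {V W : State n m} (h : ConnAlong ν V W) :
    Adm (ofMat n m V.1 - ofMat n m W.1) := by
  obtain ⟨a, h1, -, -⟩ := h
  refine ⟨a, ν, ?_⟩
  rw [← map_sub]
  congr 1
  funext i j
  exact h1 i j

/-- A laminate with normals in a frame has the structure required by the core. -/
lemma good_frame {β β' : Fin m → Fin m → ℝ} (hβ : Dual β β')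
    {t : Tr (State n m)} (ht : IsLam (InFrame β) t) :
    Tr.Good (fun U : State n m => ofMat n m U.1) (fun U : State n m => ofMat n m U.2.1)
      (fun k (U : State n m) => - Nst (β' k) (β k) U) Adm t := by
  induction t with
  | leaf U => trivial
  | node c l r hl hr =>
    have ht' := ht
    obtain ⟨hc, hGl, hGr, ν, hν, hconn, l0, hl0⟩ := ht
    subst hl0
    refine ⟨hc, hl hGl, hr hGr, ?_, ⟨l0, ?_⟩, ?_⟩
    · rw [mean_x, mean_x, mean_g, mean_g]
      exact orth_of_conn hconn
    · have e : ∀ t' : Tr (State n m), IsLam (InFrame β) t' →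
          Tr.mean (fun U : State n m => - Nst (β' l0) (β l0) U) t'
            = - Nst (β' l0) (β l0) (bary t') := by
        intro t' h'
        have h1 : (fun U : State n m => - Nst (β' l0) (β l0) U)
            = fun U => (-1) * Nst (β' l0) (β l0) U := by funext U; ring
        rw [h1, Tr.mean_const_mul, mean_Nst_frame hβ l0 h']
        ring
      rw [e l hGl, e r hGr, mean_x, mean_x, mean_g, inner_inc]
      obtain ⟨a, -, s1, s2⟩ := seg_of_conn hconn (bary_node c l r)
      have n1 := Nst_normal s1.hX s1.hY s1.hZ (β' l0)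
      have n2 := Nst_normal s2.hX s2.hY s2.hZ (β' l0)
      rw [hβ l0 l0, if_pos rfl, one_mul] at n1 n2
      rw [n1, n2]
      ring
    · rw [mean_x, mean_x]
      exact adm_of_conn hconn

/-- A laminate with isotropic normals has the structure required by the core. -/
lemma good_iso {t : Tr (State n m)} (ht : IsLam Isotropic t) :
    Tr.Good (fun U : State n m => ofMat n m U.1) (fun U : State n m => ofMat n m U.2.1)
      (fun (_ : Fin m) (U : State n m) => - (∑ j, MM U j j) / m) Adm t := by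
  induction t with
  | leaf U => trivial
  | node c l r hl hr =>
    have ht' := ht
    obtain ⟨hc, hGl, hGr, ν, hν, hconn, hi1, hi2⟩ := ht
    have hm : (0 : ℝ) < m := by
      rcases Nat.eq_zero_or_pos m with h | h
      · subst h
        exact absurd (Subsingleton.elim ν 0) hν
      · exact_mod_cast h
    have hm' : 0 < m := by exact_mod_cast hm
    refine ⟨hc, hl hGl, hr hGr, ?_, ⟨⟨0, hm'⟩, ?_⟩, ?_⟩
    · rw [mean_x, mean_x, mean_g, mean_g]
      exact orth_of_conn hconn
    · have e : ∀ t' : Tr (State n m), IsLam Isotropic t' →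
          Tr.mean (fun U : State n m => - (∑ j, MM U j j) / m) t'
            = - (∑ j, MM (bary t') j j) / m := by
        intro t' h'
        have h1 : (fun U : State n m => - (∑ j, MM U j j) / m)
            = fun U => (-1 / (m : ℝ)) * (∑ j, MM U j j) := by funext U; ring
        rw [h1, Tr.mean_const_mul, mean_tr_lam h']
        ring
      rw [e l hGl, e r hGr, mean_x, mean_x, mean_g, inner_inc]
      obtain ⟨a, -, s1, s2⟩ := seg_of_conn hconn (bary_node c l r)
      have n1 := Nst_normal s1.hX s1.hY s1.hZ ν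
      have n2 := Nst_normal s2.hX s2.hY s2.hZ ν
      set N2 : ℝ := ∑ j, ν j ^ 2 with hN2
      have hN2pos : 0 < N2 := by
        obtain ⟨j, hj⟩ : ∃ j, ν j ≠ 0 := by
          by_contra h
          push Not at h
          exact hν (funext h)
        exact Finset.sum_pos' (fun i _ => sq_nonneg _) ⟨j, Finset.mem_univ _, by positivity⟩
      have e2 : ∑ j, ν j * ν j = N2 := by
        rw [hN2]; exact Finset.sum_congr rfl fun j _ => by ring
      rw [e2] at n1 n2
      rw [← Nst_eq] at hi1 hi2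
      have h4 : ((∑ j, MM (bary l) j j) - ∑ j, MM (bary r) j j) * N2
          = (m * (incXY (bary (.node c l r)) (bary r)
            - incXY (bary (.node c l r)) (bary l))) * N2 := by
        linear_combination - hi1 + hi2 + (m : ℝ) * n1 - (m : ℝ) * n2
      have h5 := mul_right_cancel₀ hN2pos.ne' h4
      field_simp
      linear_combination - h5
    · rw [mean_x, mean_x]
      exact adm_of_conn hconn

end

end MP73203d
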