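import Pool.Agent.MP_73203d_an.TreeMean
import Pool.Agent.MP_73203d_an.Step2

/-! Laminates of finite order: the estimates at one node. -/

namespace MP73203d

namespace Tr

variable {α J V : Type*} [NormedAddCommGroup V] [InnerProductSpace ℝ V] [Fintype J]

/-- The structure of a laminate: at each inner node the increments of `x` and `g` are orthogonal,
one of the functions `M j` is transported exactly, and the increment of `x` is admissible. -/
def Good (x g : α → V) (M : J → α → ℝ) (adm : V → Prop) : Tr α → Prop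
  | leaf _ => True
  | node c l r => (0 ≤ c ∧ c ≤ 1) ∧ Good x g M adm l ∧ Good x g M adm r ∧
      inner ℝ (mean x l - mean x r) (mean g l - mean g r) = 0 ∧
      (∃ j, mean (M j) l - mean (M j) r
        = inner ℝ (mean x l - mean x r) (mean g (node c l r))) ∧
      adm (mean x l - mean x r)

omit [Fintype J] in
lemma Good.wt {x g : α → V} {M : J → α → ℝ} {adm : V → Prop} {t : Tr α}
    (h : Good x g M adm t) : Wt t := by
  induction t with
  | leaf a => trivial
  | node c l r hl hr => exact ⟨h.1, hl h.2.1, hr h.2.2.1⟩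

/-- The analytic data on the ball of radius `R`. -/
structure Anal (f : V → ℝ) (F : V → V) (H : V → V →L[ℝ] V) (adm : V → Prop)
    (γ Λ R : ℝ) : Prop where
  hγ : 0 < γ
  hΛ : γ ≤ Λ
  hR : 0 ≤ R
  scal : ∀ (s : ℝ) (d : V), adm d → adm (s • d)
  hup : ∀ A X : V, ‖A‖ ≤ R → ‖X‖ ≤ R → f X ≤ f A + inner ℝ (F A) (X - A) + Λ * ‖X - A‖ ^ 2
  hdiff : ∀ s : ℝ, 0 < s → ∃ C : ℝ, 0 ≤ C ∧ ∀ A X : V, ‖A‖ ≤ R → ‖X‖ ≤ R →
    ‖F X - F A - H A (X - A)‖ ≤ s * ‖X - A‖ + C * ‖X - A‖ ^ 2
  hlow : ∀ A d : V, ‖A‖ ≤ R → ‖A + d‖ ≤ R → adm d →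
    f A + inner ℝ (F A) d + γ * ‖d‖ ^ 2 ≤ f (A + d)
  hH : ∀ A d : V, ‖A‖ ≤ R → adm d → γ * ‖d‖ ^ 2 ≤ inner ℝ (H A d) d

/-- The bounds on the leaves. -/
def LeafOK (x g : α → V) (M : J → α → ℝ) (f : V → ℝ) (F : V → V) (e : α → ℝ) (R E0 : ℝ)
    (a : α) : Prop :=
  ‖x a‖ ≤ R ∧ ‖g a - F (x a)‖ ≤ e a ∧ (∀ j, |M j a - f (x a)| ≤ e a) ∧ e a ≤ E0

section
variable {x g : α → V} {M : J → α → ℝ} {adm : V → Prop} {f : V → ℝ} {F : V → V}
  {H : V → V →L[ℝ] V} {γ Λ R E0 : ℝ} {e : α → ℝ}

/-- The energy excess. -/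
noncomputable def Dt (x : α → V) (f : V → ℝ) (t : Tr α) : ℝ :=
  mean (fun a => f (x a)) t - f (mean x t)

omit [Fintype J] in
lemma norm_x_le {t : Tr α} (hG : Good x g M adm t)
    (hL : All (LeafOK x g M f F e R E0) t) : ‖mean x t‖ ≤ R :=
  norm_mean_le hG.wt (hL.mono fun _ h => h.1)

omit [Fintype J] in
lemma eb_nonneg {t : Tr α} (hG : Good x g M adm t)
    (hL : All (LeafOK x g M f F e R E0) t) : 0 ≤ mean e t :=
  mean_nonneg hG.wt (hL.mono fun _ h => (norm_nonneg _).trans h.2.1)

omit [Fintype J] in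
lemma eb_le {t : Tr α} (hG : Good x g M adm t)
    (hL : All (LeafOK x g M f F e R E0) t) : mean e t ≤ E0 := by
  have := mean_mono hG.wt (ψ := e) (χ := fun _ => E0) (hL.mono fun _ h => h.2.2.2)
  rwa [mean_const] at this

omit [Fintype J] in
/-- `γ Var ≤ D`. -/
lemma var_le_D (An : Anal f F H adm γ Λ R) {t : Tr α} (hG : Good x g M adm t)
    (hL : All (LeafOK x g M f F e R E0) t) : γ * var x t ≤ Dt x f t := by
  induction t with
  | leaf a => rw [var_leaf]; simp [Dt, mean_leaf]
  | node c l r hl hr =>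
    have hXt := norm_x_le hG hL
    have hXl := norm_x_le hG.2.1 hL.1
    have hXr := norm_x_le hG.2.2.1 hL.2
    obtain ⟨hc, hGl, hGr, -, -, hadm⟩ := hG
    have il := hl hGl hL.1
    have ir := hr hGr hL.2
    set X := mean x (node c l r) with hX
    set d := mean x l - mean x r with hd
    have e1 := mean_left x c l r
    have e2 := mean_right x c l r
    rw [← hX, ← hd] at e1 e2
    have h1 := An.hlow X ((1 - c) • d) hXt (by rw [← e1]; exact hXl) (An.scal _ _ hadm)
    have h2 := An.hlow X ((-c) • d) hXt (by rw [← e2]; exact hXr) (An.scal _ _ hadm)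
    rw [← e1, real_inner_smul_right, norm_smul, mul_pow, Real.norm_eq_abs, sq_abs] at h1
    rw [← e2, real_inner_smul_right, norm_smul, mul_pow, Real.norm_eq_abs, sq_abs] at h2
    have h3 := mul_le_mul_of_nonneg_left h1 hc.1
    have h4 := mul_le_mul_of_nonneg_left h2 (by linarith [hc.2] : (0 : ℝ) ≤ 1 - c)
    have h5 := mul_le_mul_of_nonneg_left il hc.1
    have h6 := mul_le_mul_of_nonneg_left ir (by linarith [hc.2] : (0 : ℝ) ≤ 1 - c)
    rw [var_node, ← hd]
    unfold Dt at *
    rw [mean_node_real, ← hX]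
    linarith

omit [Fintype J] in
lemma D_nonneg (An : Anal f F H adm γ Λ R) {t : Tr α} (hG : Good x g M adm t)
    (hL : All (LeafOK x g M f F e R E0) t) : 0 ≤ Dt x f t :=
  (mul_nonneg An.hγ.le (var_nonneg x hG.wt)).trans (var_le_D An hG hL)

omit [Fintype J] in
/-- `D ≤ Λ Var`. -/
lemma D_le_var (An : Anal f F H adm γ Λ R) {t : Tr α} (hG : Good x g M adm t)
    (hL : All (LeafOK x g M f F e R E0) t) : Dt x f t ≤ Λ * var x t := by
  have hX := norm_x_le hG hL
  have h1 : All (fun a => f (x a) ≤ (f (mean x t) + inner ℝ (x a - mean x t) (F (mean x t)))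
      + Λ * ‖x a - mean x t‖ ^ 2) t := hL.mono fun a ha => by
    have := An.hup (mean x t) (x a) hX ha.1
    rw [real_inner_comm] at this
    exact this
  have h2 := mean_mono hG.wt h1
  rw [mean_add, mean_add, mean_const, mean_inner_left, mean_sub, mean_const, sub_self,
    inner_zero_left, mean_const_mul, ← var_eq] at h2
  unfold Dt
  linarith

omit [Fintype J] in
/-- The div-curl identity. -/
lemma mean_xg {t : Tr α} (hG : Good x g M adm t) :
    mean (fun a => inner ℝ (x a) (g a)) t = inner ℝ (mean x t) (mean g t) := by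
  induction t with
  | leaf a => rfl
  | node c l r hl hr =>
    obtain ⟨hc, hGl, hGr, horth, -, -⟩ := hG
    rw [mean_node_real, hl hGl, hr hGr, mean_node, mean_node]
    simp only [inner_add_left, inner_add_right, inner_sub_left, inner_sub_right,
      real_inner_smul_left, real_inner_smul_right] at horth ⊢
    linear_combination (c * (1 - c)) * horth

omit [Fintype J] in
/-- The elliptic inequality for a fixed quadratic form. -/
lemma quad_le (An : Anal f F H adm γ Λ R) {A : V} (hA : ‖A‖ ≤ R) {t : Tr α}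
    (hG : Good x g M adm t) : γ * var x t ≤
      mean (fun a => inner ℝ (H A (x a)) (x a)) t - inner ℝ (H A (mean x t)) (mean x t) := by
  induction t with
  | leaf a => rw [var_leaf]; simp [mean_leaf]
  | node c l r hl hr =>
    obtain ⟨hc, hGl, hGr, -, -, hadm⟩ := hG
    have il := mul_le_mul_of_nonneg_left (hl hGl) hc.1
    have ir := mul_le_mul_of_nonneg_left (hr hGr) (by linarith [hc.2] : (0 : ℝ) ≤ 1 - c)
    have h1 := An.hH A _ hA hadm
    have h2 := mul_le_mul_of_nonneg_left h1
      (mul_nonneg hc.1 (by linarith [hc.2] : (0 : ℝ) ≤ 1 - c))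
    rw [var_node, mean_node_real]
    have e1 : inner ℝ (H A (mean x (node c l r))) (mean x (node c l r))
        = c * inner ℝ (H A (mean x l)) (mean x l) + (1 - c) * inner ℝ (H A (mean x r)) (mean x r)
          - c * (1 - c) * inner ℝ (H A (mean x l - mean x r)) (mean x l - mean x r) := by
      rw [mean_node]
      simp only [map_add, map_sub, map_smul, inner_add_left, inner_add_right, inner_sub_left,
        inner_sub_right, real_inner_smul_left, real_inner_smul_right]
      ring
    rw [e1]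
    linarith

omit [Fintype J] in
/-- The bound for `ε = g - ∇f(x)`. -/
lemma eps_le {s C : ℝ} (hs : 0 < s) (hC : 0 ≤ C) (hCd : ∀ A X : V, ‖A‖ ≤ R → ‖X‖ ≤ R →
      ‖F X - F A - H A (X - A)‖ ≤ s * ‖X - A‖ + C * ‖X - A‖ ^ 2) {t : Tr α}
    (hG : Good x g M adm t) (hL : All (LeafOK x g M f F e R E0) t) :
    ‖mean g t - F (mean x t)‖ ≤ mean e t + (s * Real.sqrt (var x t) + C * var x t) := by
  have hX := norm_x_le hG hL
  set X := mean x t with hXd
  set ε := mean g t - F X with hε
  have hm : mean (fun a => inner ℝ (g a - F X) ε - inner ℝ (H X (x a - X)) ε) t = ‖ε‖ ^ 2 := by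
    rw [mean_sub, mean_inner_left, mean_sub, mean_const, ← hε]
    have e1 : mean (fun a => inner ℝ (H X (x a - X)) ε) t = 0 := by
      rw [mean_inner_left (fun a => H X (x a - X))]
      have : mean (fun a => H X (x a - X)) t = H X (mean (fun a => x a - X) t) :=
        mean_map (H X : V →ₗ[ℝ] V) (fun a => x a - X) t
      rw [this, mean_sub, mean_const, ← hXd, sub_self, map_zero, inner_zero_left]
    rw [e1, sub_zero, real_inner_self_eq_norm_sq]
  have hpt : All (fun a => inner ℝ (g a - F X) ε - inner ℝ (H X (x a - X)) ε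
      ≤ ‖ε‖ * (e a + (s * ‖x a - X‖ + C * ‖x a - X‖ ^ 2))) t := hL.mono fun a ha => by
    have e1 : inner ℝ (g a - F X) ε - inner ℝ (H X (x a - X)) ε
        = inner ℝ ((g a - F (x a)) + (F (x a) - F X - H X (x a - X))) ε := by
      rw [← inner_sub_left]
      congr 1
      abel
    rw [e1]
    refine (real_inner_le_norm _ _).trans ?_
    rw [mul_comm]
    refine mul_le_mul_of_nonneg_left ?_ (norm_nonneg _)
    refine (norm_add_le _ _).trans ?_
    have := hCd X (x a) hX ha.1
    have := ha.2.1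
    linarith
  have h1 := mean_mono hG.wt hpt
  have e5 : mean (fun a => ‖x a - X‖ ^ 2) t = var x t := by rw [var_eq]
  rw [hm, mean_const_mul, mean_add, mean_add, mean_const_mul, mean_const_mul, e5] at h1
  have h2 : mean (fun a => ‖x a - X‖) t ≤ Real.sqrt (var x t) := by
    refine Real.le_sqrt_of_sq_le ?_
    rw [← e5]
    exact mean_sq_le _ hG.wt
  have h4 : ‖ε‖ ^ 2 ≤ ‖ε‖ * (mean e t + (s * Real.sqrt (var x t) + C * var x t)) := by
    refine h1.trans (mul_le_mul_of_nonneg_left ?_ (norm_nonneg _))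
    have := mul_le_mul_of_nonneg_left h2 hs.le
    linarith
  by_cases h0 : ‖ε‖ = 0
  · rw [h0]
    have := eb_nonneg hG hL
    have := var_nonneg x hG.wt
    positivity
  · have hpos : 0 < ‖ε‖ := lt_of_le_of_ne (norm_nonneg _) (Ne.symm h0)
    rw [pow_two] at h4
    exact le_of_mul_le_mul_left h4 hpos

omit [Fintype J] in
/-- The variance is controlled by the fourth moment. -/
lemma var_le_fourth (An : Anal f F H adm γ Λ R) {C : ℝ}
    (hCd : ∀ A X : V, ‖A‖ ≤ R → ‖X‖ ≤ R →
      ‖F X - F A - H A (X - A)‖ ≤ γ / 4 * ‖X - A‖ + C * ‖X - A‖ ^ 2) {t : Tr α}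
    (hG : Good x g M adm t) (hL : All (LeafOK x g M f F e R E0) t) :
    γ / 2 * var x t ≤ 2 * R * mean e t
      + C ^ 2 / γ * mean (fun a => ‖x a - mean x t‖ ^ 4) t := by
  have hγ := An.hγ
  have hX := norm_x_le hG hL
  have hR0 := An.hR
  have hq := quad_le An hX hG
  set X := mean x t with hXd
  have hψ : mean (fun a => inner ℝ (x a - X) (g a - F X)) t = 0 := by
    have e1 : (fun a => inner ℝ (x a - X) (g a - F X)) = fun a =>
        (inner ℝ (x a) (g a) - inner ℝ (x a) (F X)) - inner ℝ (g a - F X) X := by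
      funext a
      rw [inner_sub_left, inner_sub_right, real_inner_comm X (g a - F X)]
    rw [e1, mean_sub, mean_sub, mean_xg hG, mean_inner_left, mean_inner_left, mean_sub,
      mean_const, ← hXd, inner_sub_left, real_inner_comm X (mean g t), real_inner_comm X (F X)]
    ring
  have hpt : All (fun a => (inner ℝ (H X (x a)) (x a) - inner ℝ (H X (x a)) X
      - inner ℝ (H X X) (x a) + inner ℝ (H X X) X) - γ / 2 * ‖x a - X‖ ^ 2
      ≤ inner ℝ (x a - X) (g a - F X) + (2 * R * e a + C ^ 2 / γ * ‖x a - X‖ ^ 4)) t :=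
    hL.mono fun a ha => by
    have e1 : inner ℝ (x a - X) (g a - F X) = inner ℝ (x a - X) (g a - F (x a))
        + inner ℝ (x a - X) (F (x a) - F X - H X (x a - X))
        + (inner ℝ (H X (x a)) (x a) - inner ℝ (H X (x a)) X
          - inner ℝ (H X X) (x a) + inner ℝ (H X X) X) := by
      have e2 : inner ℝ (H X (x a)) (x a) - inner ℝ (H X (x a)) X
          - inner ℝ (H X X) (x a) + inner ℝ (H X X) X
          = inner ℝ (x a - X) (H X (x a - X)) := by
        rw [real_inner_comm (H X (x a - X)) (x a - X), map_sub]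
        simp only [inner_sub_left, inner_sub_right]
        ring
      rw [e2, ← inner_add_right, ← inner_add_right]
      congr 1
      abel
    have hy : ‖x a - X‖ ≤ 2 * R := by
      refine (norm_sub_le _ _).trans ?_
      linarith [ha.1]
    have he0 : 0 ≤ e a := (norm_nonneg _).trans ha.2.1
    have b1 : -(2 * R * e a) ≤ inner ℝ (x a - X) (g a - F (x a)) := by
      have h1 := (abs_le.mp (abs_real_inner_le_norm (x a - X) (g a - F (x a)))).1
      have h2 := mul_le_mul hy ha.2.1 (norm_nonneg _) (by positivity)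
      linarith
    have b2 : -(‖x a - X‖ * (γ / 4 * ‖x a - X‖ + C * ‖x a - X‖ ^ 2))
        ≤ inner ℝ (x a - X) (F (x a) - F X - H X (x a - X)) := by
      have h1 := (abs_le.mp (abs_real_inner_le_norm (x a - X)
        (F (x a) - F X - H X (x a - X)))).1
      have h2 := mul_le_mul_of_nonneg_left (hCd X (x a) hX ha.1) (norm_nonneg (x a - X))
      linarith
    have b3 : C * ‖x a - X‖ ^ 3 ≤ γ / 4 * ‖x a - X‖ ^ 2 + C ^ 2 / γ * ‖x a - X‖ ^ 4 := by
      have h2 : 0 ≤ γ / 4 * (‖x a - X‖ - 2 * C / γ * ‖x a - X‖ ^ 2) ^ 2 := by positivity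
      have h3 : γ / 4 * (‖x a - X‖ - 2 * C / γ * ‖x a - X‖ ^ 2) ^ 2
          = γ / 4 * ‖x a - X‖ ^ 2 - C * ‖x a - X‖ ^ 3 + C ^ 2 / γ * ‖x a - X‖ ^ 4 := by
        field_simp
        ring
      linarith
    have e2 : ‖x a - X‖ * (γ / 4 * ‖x a - X‖ + C * ‖x a - X‖ ^ 2)
        = γ / 4 * ‖x a - X‖ ^ 2 + C * ‖x a - X‖ ^ 3 := by ring
    rw [e2] at b2
    rw [e1]
    linarith
  have hm := mean_mono hG.wt hpt
  have e3 : mean (fun a => inner ℝ (H X (x a)) X) t = inner ℝ (H X X) X := by
    rw [mean_inner_left (fun a => H X (x a))]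
    have : mean (fun a => H X (x a)) t = H X (mean x t) :=
      mean_map (H X : V →ₗ[ℝ] V) x t
    rw [this]
  have e4 : mean (fun a => inner ℝ (H X X) (x a)) t = inner ℝ (H X X) X := by
    have : (fun a => inner ℝ (H X X) (x a)) = fun a => inner ℝ (x a) (H X X) := by
      funext a; rw [real_inner_comm]
    rw [this, mean_inner_left, real_inner_comm]
  rw [mean_sub, mean_add, mean_sub, mean_sub, mean_const, mean_add, mean_add, mean_const_mul,
    mean_const_mul, mean_const_mul, e3, e4, hψ] at hm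
  have e5 : mean (fun a => ‖x a - X‖ ^ 2) t = var x t := by rw [var_eq]
  rw [e5] at hm
  linarith

end

end Tr

end MP73203d
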