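import Pool.Agent.MP_73203d_an.TreePot2

/-! Laminates of finite order: the gap for the excess. -/

namespace MP73203d

namespace Tr

variable {α J V : Type*} [NormedAddCommGroup V] [InnerProductSpace ℝ V] [Fintype J]
  {x g : α → V} {M : J → α → ℝ} {adm : V → Prop} {f : V → ℝ} {F : V → V}
  {H : V → V →L[ℝ] V} {γ Λ R E0 : ℝ} {e : α → ℝ}

omit [Fintype J] in
lemma varR_le {ψ : α → ℝ} {t : Tr α} (hw : Wt t) (h : All (fun a => |ψ a| ≤ e a ∧ e a ≤ E0) t) :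
    varR ψ t ≤ E0 * mean e t := by
  have h1 := mean_mono hw (ψ := fun a => ψ a ^ 2) (χ := fun a => E0 * e a)
    (h.mono fun a ha => by
      have h2 : 0 ≤ e a := (abs_nonneg _).trans ha.1
      have h3 := pow_le_pow_left₀ (abs_nonneg _) ha.1 2
      rw [sq_abs] at h3
      have h4 := mul_le_mul_of_nonneg_right ha.2 h2
      nlinarith)
  rw [mean_const_mul] at h1
  unfold varR
  nlinarith [sq_nonneg (mean ψ t)]

lemma sq_le_self_of_le_one {η : ℝ} (h0 : 0 < η) (h1 : η ≤ 1) : η ^ 2 ≤ η := by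
  nlinarith

lemma sum_sq_aux {a b c z : ℝ} (hb : b ^ 2 = z) :
    (a + (b + c)) ^ 2 ≤ 2 * a ^ 2 + 4 * z + 4 * c ^ 2 := by
  rw [← hb]
  nlinarith [sq_nonneg (a - (b + c)), sq_nonneg (b - c)]

lemma quad_aux {R v : ℝ} (hv : v ≤ 4 * R ^ 2) :
    2 * (4 * R ^ 2) * v - v ^ 2 ≤ 32 * R ^ 4 := by
  have h := mul_le_mul_of_nonneg_left hv (by positivity : 0 ≤ 2 * (4 * R ^ 2))
  have h2 := sq_nonneg v
  linarith

/-- The gap inequality. -/
lemma gap_ineq (An : Anal f F H adm γ Λ R) (hE0 : 0 ≤ E0) :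
    ∃ K C : ℝ, 0 ≤ K ∧ 0 ≤ C ∧ ∀ (M : J → α → ℝ) (η : ℝ) (t : Tr α), 0 < η → η ≤ 1 →
      Good x g M adm t → All (LeafOK x g M f F e R E0) t → mean e t ≤ η ^ 2 →
      Dt x f t ≤ K * Dt x f t ^ 2 + C * η := by
  have hγ := An.hγ
  have hΛ0 : 0 < Λ := lt_of_lt_of_le hγ An.hΛ
  have hR := An.hR
  obtain ⟨T, hT0, hT1, hT2⟩ : ∃ T : ℝ, 0 < T ∧ T ≤ γ / 64 ∧ 8 * Λ ^ 2 / γ ^ 2 * T ≤ γ / 8 := by
    refine ⟨min (γ / 64) (γ ^ 3 / (64 * Λ ^ 2)), by positivity, min_le_left _ _, ?_⟩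
    have h1 := mul_le_mul_of_nonneg_left (min_le_right (γ / 64) (γ ^ 3 / (64 * Λ ^ 2)))
      (by positivity : 0 ≤ 8 * Λ ^ 2 / γ ^ 2)
    refine h1.trans (le_of_eq ?_)
    field_simp
    ring
  obtain ⟨s, hs0, hs⟩ : ∃ s : ℝ, 0 < s ∧ 4 * s ^ 2 / γ ≤ T / 2 := by
    refine ⟨Real.sqrt (T * γ / 8), by positivity, ?_⟩
    rw [Real.sq_sqrt (by positivity)]
    refine le_of_eq ?_
    field_simp
    ring
  obtain ⟨Cs, hCs0, hCs⟩ := An.hdiff s hs0
  obtain ⟨Cq, hCq0, hCq⟩ := An.hdiff (γ / 4) (by positivity)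
  obtain ⟨Ds, hDs0, hDs⟩ : ∃ Ds : ℝ, 0 < Ds ∧ 4 * Cs ^ 2 / γ ^ 2 * Ds ≤ T / 2 := by
    refine ⟨T * γ ^ 2 / (8 * (Cs ^ 2 + 1)), by positivity, ?_⟩
    have h1 : 4 * Cs ^ 2 / γ ^ 2 * (T * γ ^ 2 / (8 * (Cs ^ 2 + 1)))
        = T / 2 * (Cs ^ 2 / (Cs ^ 2 + 1)) := by
      field_simp
      ring
    rw [h1]
    have h2 : Cs ^ 2 / (Cs ^ 2 + 1) ≤ 1 := by
      rw [div_le_one (by positivity)]
      linarith
    have := mul_le_mul_of_nonneg_left h2 (by positivity : 0 ≤ T / 2)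
    linarith
  set A : ℝ := 16 / γ with hA
  have hA0 : 0 < A := by rw [hA]; positivity
  set B : ℝ := 2 / γ * (12 / γ + A * (1 + 8 / γ * T + T / 2 + (4 * Λ ^ 2 / γ + 1) * (4 / γ)))
    + (2 * R) ^ 4 / Ds ^ 2 with hB
  have hB0 : 0 ≤ B := by rw [hB]; positivity
  have hBγ : 12 / γ + A * (1 + 8 / γ * T + T / 2 + (4 * Λ ^ 2 / γ + 1) * (4 / γ))
      ≤ B * γ / 2 := by
    have h1 : B * γ / 2 = 12 / γ + A * (1 + 8 / γ * T + T / 2 + (4 * Λ ^ 2 / γ + 1) * (4 / γ))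
        + (2 * R) ^ 4 / Ds ^ 2 * (γ / 2) := by
      rw [hB]; field_simp
    rw [h1]
    have : 0 ≤ (2 * R) ^ 4 / Ds ^ 2 * (γ / 2) := by positivity
    linarith
  have hBD : (2 * R) ^ 4 ≤ B * Ds ^ 2 := by
    have h1 : B * Ds ^ 2 = 2 / γ * (12 / γ
        + A * (1 + 8 / γ * T + T / 2 + (4 * Λ ^ 2 / γ + 1) * (4 / γ))) * Ds ^ 2
        + (2 * R) ^ 4 := by
      rw [hB, add_mul, div_mul_cancel₀ _ (by positivity)]
    rw [h1]
    have : 0 ≤ 2 / γ * (12 / γ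
        + A * (1 + 8 / γ * T + T / 2 + (4 * Λ ^ 2 / γ + 1) * (4 / γ))) * Ds ^ 2 := by positivity
    linarith
  set K2 : ℝ := 18 / γ ^ 2 + A * (16 / γ + 1 + (4 * Λ ^ 2 / γ + 1) * (6 / γ ^ 2))
      + B * (5 + 16 * Λ ^ 2 / γ ^ 2) with hK2
  set K1 : ℝ := 12 / γ ^ 2 + A * (8 / γ + 1 / 2 + (4 * Λ ^ 2 / γ + 1) * (4 / γ ^ 2))
      + B * (3 + 8 * Λ ^ 2 / γ ^ 2) with hK1
  have hcon : Const γ Λ T A B K1 K2 :=
    ⟨hT0.le, hT1, hT2, hA, hB0, hBγ, le_of_eq hK2.symm, le_of_eq hK1.symm⟩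
  have hK1n := hcon.K1_nonneg hγ
  have hK2n := hcon.K2_nonneg hγ
  have hEps : ∀ (M : J → α → ℝ) (t : Tr α), Good x g M adm t → All (LeafOK x g M f F e R E0) t → Dt x f t < Ds →
      ‖mean g t - F (mean x t)‖ ^ 2 ≤ T * Dt x f t + 2 * mean e t ^ 2 := by
    intro M t hG hL hD
    have h1 := eps_le hs0 hCs0 hCs hG hL
    have hV := var_nonneg x hG.wt
    have hVD := var_le_D An hG hL
    have hDn := D_nonneg An hG hL
    have he := eb_nonneg hG hL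
    set Vt := var x t
    set D := Dt x f t
    have hV' : Vt ≤ D / γ := by rw [le_div_iff₀ hγ]; linarith
    have h2 := pow_le_pow_left₀ (norm_nonneg _) h1 2
    have h3 : (mean e t + (s * Real.sqrt Vt + Cs * Vt)) ^ 2
        ≤ 2 * mean e t ^ 2 + 4 * (s ^ 2 * Vt) + 4 * (Cs ^ 2 * Vt ^ 2) := by
      have h4 : (s * Real.sqrt Vt) ^ 2 = s ^ 2 * Vt := by rw [mul_pow, Real.sq_sqrt hV]
      have h5 := sum_sq_aux (a := mean e t) (c := Cs * Vt) h4
      rwa [mul_pow Cs Vt 2] at h5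
    have h7 : 4 * (s ^ 2 * Vt) ≤ T / 2 * D := by
      have a1 := mul_le_mul_of_nonneg_left hV' (by positivity : 0 ≤ 4 * s ^ 2)
      have a2 := mul_le_mul_of_nonneg_right hs hDn
      have a3 : 4 * s ^ 2 * (D / γ) = 4 * s ^ 2 / γ * D := by ring
      linarith
    have h8 : 4 * (Cs ^ 2 * Vt ^ 2) ≤ T / 2 * D := by
      have a1 := mul_le_mul_of_nonneg_left (pow_le_pow_left₀ hV hV' 2)
        (by positivity : 0 ≤ 4 * Cs ^ 2)
      have a2 : 4 * Cs ^ 2 * (D / γ) ^ 2 = 4 * Cs ^ 2 / γ ^ 2 * D * D := by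
        field_simp
      have a3 := mul_le_mul_of_nonneg_right (mul_le_mul_of_nonneg_left hD.le
        (by positivity : 0 ≤ 4 * Cs ^ 2 / γ ^ 2)) hDn
      have a4 := mul_le_mul_of_nonneg_right hDs hDn
      linarith
    linarith
  set N : ℝ := (Fintype.card J : ℝ) with hN
  have hN0 : 0 ≤ N := by rw [hN]; positivity
  set C1 : ℝ := K1 * (N * E0) + K2 * (E0 * (4 * R ^ 2 + E0 / 2 + 16 * R ^ 4)) with hC1
  have hC10 : 0 ≤ C1 := by rw [hC1]; positivity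
  refine ⟨2 * Λ / γ * (Cq ^ 2 / γ * B), 2 * Λ / γ * (2 * R + Cq ^ 2 / γ * C1), by positivity,
    by positivity, ?_⟩
  intro M η t hη hη1 hG hL heη
  have heb := eb_nonneg hG hL
  have hpot := potential An hcon (κ := 1 / η) (by positivity) hDs0 hBD (hEps M)
    (norm_x_le hG hL) hG hL
  have h4 := var_le_fourth An hCq hG hL
  have hV4 := var_le_four hG hL
  have hV := var_nonneg x hG.wt
  have hDV := D_le_var An hG hL
  have hη2 : η ^ 2 ≤ η := sq_le_self_of_le_one hη hη1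
  -- the three terms
  have t1 : min (Ph x f A B (mean x t) t) (B * Ds ^ 2) ≤ B * Dt x f t ^ 2 := by
    refine (min_le_left _ _).trans (le_of_eq ?_)
    unfold Ph
    rw [sub_self, norm_zero]
    ring
  have t2 : ∑ j, varR (fun a => M j a - f (x a)) t ≤ N * E0 * η := by
    have h1 : ∀ j ∈ (Finset.univ : Finset J), varR (fun a => M j a - f (x a)) t ≤ E0 * η := by
      intro j _
      have h2 := varR_le (e := e) (E0 := E0) (ψ := fun a => M j a - f (x a)) hG.wt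
        (hL.mono fun a ha => ⟨ha.2.2.1 j, ha.2.2.2⟩)
      have h3 := mul_le_mul_of_nonneg_left (heη.trans hη2) hE0
      linarith
    have h2 := Finset.sum_le_sum h1
    rw [Finset.sum_const, Finset.card_univ, nsmul_eq_mul] at h2
    rw [hN]
    linarith
  have t3 : Pt x e (1 / η) R t ≤ (4 * R ^ 2 + E0 / 2 + 16 * R ^ 4) * η := by
    unfold Pt
    have h1 : mean e t * var x t ≤ η * (4 * R ^ 2) :=
      mul_le_mul (heη.trans hη2) hV4 hV hη.le
    have h2 : 1 / η / 2 * varR e t ≤ E0 / 2 * η := by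
      have a1 := varR_le (e := e) (E0 := E0) (ψ := e) hG.wt
        (hL.mono fun a ha => by
          have : 0 ≤ e a := (norm_nonneg _).trans ha.2.1
          exact ⟨le_of_eq (abs_of_nonneg this), ha.2.2.2⟩)
      have a2 := mul_le_mul_of_nonneg_left (a1.trans (mul_le_mul_of_nonneg_left heη hE0))
        (by positivity : 0 ≤ 1 / η / 2)
      refine a2.trans (le_of_eq ?_)
      field_simp
    have h3 : 1 / (2 * (1 / η)) * (2 * (4 * R ^ 2) * var x t - var x t ^ 2)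
        ≤ 16 * R ^ 4 * η := by
      have a1 : 2 * (4 * R ^ 2) * var x t - var x t ^ 2 ≤ 32 * R ^ 4 := quad_aux hV4
      have a2 := mul_le_mul_of_nonneg_left a1 (by positivity : 0 ≤ 1 / (2 * (1 / η)))
      refine a2.trans (le_of_eq ?_)
      field_simp
      ring
    linarith
  have hm4 : mean (fun a => ‖x a - mean x t‖ ^ 4) t ≤ B * Dt x f t ^ 2 + C1 * η := by
    have a1 := mul_le_mul_of_nonneg_left t2 hK1n
    have a2 := mul_le_mul_of_nonneg_left (mul_le_mul_of_nonneg_left t3 hE0) hK2n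
    rw [hC1]
    linarith
  have hfin := mul_le_mul_of_nonneg_left hm4 (by positivity : 0 ≤ Cq ^ 2 / γ)
  have he2 : 2 * R * mean e t ≤ 2 * R * η :=
    mul_le_mul_of_nonneg_left (heη.trans hη2) (by positivity)
  have h5 : γ / 2 * var x t ≤ 2 * R * η + Cq ^ 2 / γ * (B * Dt x f t ^ 2 + C1 * η) := by
    linarith
  have h6 := mul_le_mul_of_nonneg_left h5 (by positivity : 0 ≤ 2 * Λ / γ)
  have h7 : 2 * Λ / γ * (γ / 2 * var x t) = Λ * var x t := by field_simp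
  rw [h7] at h6
  linarith

end Tr

end MP73203d
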