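import Pool.Agent.MP_73203d_an.TreeProp
import Pool.Agent.MP_73203d_an.TreeAlg

/-! Laminates of finite order: the rigidity estimate. -/

open Finset

namespace MP73203d

variable {n m : ℕ}

/-- The point of `K_f` over `X`. -/
noncomputable def Gf (f : Mat n m → ℝ) (X : Mat n m) : State n m :=
  (X, (fun i j => fderiv ℝ f X (EE i j)), fun j k =>
    (∑ i, X i j * fderiv ℝ f X (EE i k)) - if j = k then f X else 0)

lemma onK_Gf {f : Mat n m → ℝ} (hf : Differentiable ℝ f) (X : Mat n m) : OnK f (Gf f X) := by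
  refine ⟨⟨hf X, fun H => ?_⟩, fun j k => rfl⟩
  conv_lhs => rw [mat_eq_sum H]
  simp only [map_sum, map_smul, smul_eq_mul, Gf]
  exact Finset.sum_congr rfl fun i _ => Finset.sum_congr rfl fun j _ => by ring

lemma eq_Gf {f : Mat n m → ℝ} {A : State n m} (h : OnK f A) : A = Gf f A.1 := by
  have hY : ∀ i j, A.2.1 i j = fderiv ℝ f A.1 (EE i j) := by
    intro i j
    rw [h.1.2 (EE i j)]
    simp only [EE, mul_ite, mul_one, mul_zero]
    rw [Finset.sum_eq_single i, Finset.sum_eq_single j]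
    · simp
    · intro l _ hl; simp [hl]
    · simp
    · intro k _ hk
      exact Finset.sum_eq_zero fun l _ => by simp [hk]
    · simp
  refine Prod.ext rfl (Prod.ext ?_ ?_)
  · funext i j; exact hY i j
  · funext j k
    rw [h.2 j k]
    simp only [Gf]
    simp_rw [hY]

lemma contDiff_Gf {f : Mat n m → ℝ} (hf : ContDiff ℝ 2 f) : ContDiff ℝ 1 (Gf f) := by
  have h1 : ContDiff ℝ 1 (fderiv ℝ f) := hf.fderiv_right (m := 1) (by norm_num)
  have h2 : ∀ (i : Fin n) (j : Fin m), ContDiff ℝ 1 fun X : Mat n m => fderiv ℝ f X (EE i j) :=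
    fun i j => h1.clm_apply contDiff_const
  have h0 : ContDiff ℝ 1 f := hf.of_le (by norm_num)
  refine contDiff_id.prodMk (ContDiff.prodMk ?_ ?_)
  · exact contDiff_pi.mpr fun i => contDiff_pi.mpr fun j => h2 i j
  · refine contDiff_pi.mpr fun j => contDiff_pi.mpr fun k => ?_
    refine ContDiff.sub ?_ ?_
    · refine ContDiff.sum fun i _ => ContDiff.mul ?_ (h2 i k)
      fun_prop
    · split_ifs
      · exact h0
      · exact contDiff_const

lemma lip_gen {V E : Type*} [NormedAddCommGroup V] [NormedSpace ℝ V] [FiniteDimensional ℝ V]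
    [NormedAddCommGroup E] [NormedSpace ℝ E] {h : V → E} (hh : ContDiff ℝ 1 h) (R : ℝ) :
    ∃ L : ℝ, 0 ≤ L ∧ ∀ x ∈ Metric.closedBall (0 : V) R, ∀ y ∈ Metric.closedBall (0 : V) R,
      ‖h y - h x‖ ≤ L * ‖y - x‖ := by
  have hc : ContinuousOn (fderiv ℝ h) (Metric.closedBall (0 : V) R) :=
    (hh.continuous_fderiv (by norm_num)).continuousOn
  obtain ⟨Λ, hΛ⟩ := (isCompact_closedBall (0 : V) R).exists_bound_of_continuousOn hc
  refine ⟨max Λ 0, le_max_right _ _, fun x hx y hy => ?_⟩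
  exact (convex_closedBall (0 : V) R).norm_image_sub_le_of_norm_fderiv_le
    (fun z _ => hh.differentiable (by norm_num) z)
    (fun z hz => (hΛ z hz).trans (le_max_left _ _)) hx hy

lemma le_infDist_of_forall {S : Type*} [PseudoMetricSpace S] {K : Set S} (hK : K.Nonempty)
    {C a : ℝ} (hC : 0 ≤ C) {U : S} (h : ∀ A ∈ K, a ≤ C * dist U A) :
    a ≤ C * Metric.infDist U K := by
  rcases hC.lt_or_eq with hpos | hzero
  · have h1 : a / C ≤ Metric.infDist U K := by
      rw [Metric.le_infDist hK]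
      intro A hA
      rw [div_le_iff₀ hpos]
      linarith [h A hA]
    rw [div_le_iff₀ hpos] at h1
    linarith
  · obtain ⟨A, hA⟩ := hK
    have := h A hA
    rw [← hzero, zero_mul] at this ⊢
    exact this

/-- The matrix `M(U) + f(X) I` is controlled by the distance to `K_f`. -/
lemma MM_bound (f : Mat n m → ℝ) {U : State n m} {R : ℝ} (hU : ‖U‖ ≤ R) (j k : Fin m) :
    |MM U j k + if j = k then f U.1 else 0| ≤ (1 + n * R) * ‖U - Gf f U.1‖ := by
  have hR : 0 ≤ R := (norm_nonneg _).trans hU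
  have e : MM U j k + (if j = k then f U.1 else 0)
      = (U.2.2 j k - (Gf f U.1).2.2 j k)
        - ∑ i, U.1 i j * (U.2.1 i k - (Gf f U.1).2.1 i k) := by
    simp only [MM, Gf, mul_sub, Finset.sum_sub_distrib]
    ring
  have h22 : |U.2.2 j k - (Gf f U.1).2.2 j k| ≤ ‖U - Gf f U.1‖ := by
    have h1 : ‖(U - Gf f U.1).2.2‖ ≤ ‖U - Gf f U.1‖ := (norm_snd_le _).trans (norm_snd_le _)
    have h2 := (norm_le_pi_norm ((U - Gf f U.1).2.2 j) k).trans
      (norm_le_pi_norm (U - Gf f U.1).2.2 j)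
    exact h2.trans h1
  have h21 : ∀ i, |U.2.1 i k - (Gf f U.1).2.1 i k| ≤ ‖U - Gf f U.1‖ := fun i => by
    have h1 : ‖(U - Gf f U.1).2.1‖ ≤ ‖U - Gf f U.1‖ := (norm_fst_le _).trans (norm_snd_le _)
    have h2 := (norm_le_pi_norm ((U - Gf f U.1).2.1 i) k).trans
      (norm_le_pi_norm (U - Gf f U.1).2.1 i)
    exact h2.trans h1
  have h10 : ∀ i, |U.1 i j| ≤ R := fun i => by
    have h1 : ‖U.1‖ ≤ R := (norm_fst_le _).trans hU
    exact ((norm_le_pi_norm (U.1 i) j).trans (norm_le_pi_norm U.1 i)).trans h1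
  have hs : |∑ i, U.1 i j * (U.2.1 i k - (Gf f U.1).2.1 i k)| ≤ n * (R * ‖U - Gf f U.1‖) := by
    refine (Finset.abs_sum_le_sum_abs _ _).trans ?_
    have : ∑ i : Fin n, |U.1 i j * (U.2.1 i k - (Gf f U.1).2.1 i k)|
        ≤ ∑ _i : Fin n, R * ‖U - Gf f U.1‖ := by
      refine Finset.sum_le_sum fun i _ => ?_
      rw [abs_mul]
      exact mul_le_mul (h10 i) (h21 i) (abs_nonneg _) hR
    refine this.trans (le_of_eq ?_)
    rw [Finset.sum_const, Finset.card_univ, Fintype.card_fin, nsmul_eq_mul]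
  rw [e]
  refine (abs_sub _ _).trans ?_
  linarith

lemma frame_bound (f : Mat n m → ℝ) {U : State n m} {R b : ℝ} (hU : ‖U‖ ≤ R)
    {s t : Fin m → ℝ} (hs : ∀ j, |s j| ≤ b) (ht : ∀ j, |t j| ≤ b)
    (hst : ∑ j, s j * t j = 1) :
    |- Nst s t U - f U.1| ≤ m ^ 2 * b ^ 2 * ((1 + n * R) * ‖U - Gf f U.1‖) := by
  have hR : 0 ≤ R := (norm_nonneg _).trans hU
  have e : - Nst s t U - f U.1
      = - ∑ j, ∑ k, s j * (MM U j k + if j = k then f U.1 else 0) * t k := by
    have h1 : ∑ j, ∑ k, s j * (MM U j k + if j = k then f U.1 else 0) * t k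
        = (∑ j, ∑ k, s j * MM U j k * t k) + ∑ j, ∑ k, (if j = k then s j * f U.1 * t k else 0) := by
      simp_rw [← Finset.sum_add_distrib]
      refine Finset.sum_congr rfl fun j _ => Finset.sum_congr rfl fun k _ => ?_
      split_ifs <;> ring
    rw [h1, Nst_eq]
    simp only [Finset.sum_ite_eq, Finset.mem_univ, if_true]
    have h2 : ∑ j, s j * f U.1 * t j = f U.1 := by
      have : ∀ j, s j * f U.1 * t j = f U.1 * (s j * t j) := fun j => by ring
      simp_rw [this]
      rw [← Finset.mul_sum, hst, mul_one]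
    rw [h2]
    ring
  rw [e, abs_neg]
  set δ := (1 + n * R) * ‖U - Gf f U.1‖ with hδ
  have hδ0 : 0 ≤ δ := by positivity
  refine (Finset.abs_sum_le_sum_abs _ _).trans ?_
  have h1 : ∀ j ∈ (Finset.univ : Finset (Fin m)),
      |∑ k, s j * (MM U j k + if j = k then f U.1 else 0) * t k| ≤ m * (b ^ 2 * δ) := by
    intro j _
    refine (Finset.abs_sum_le_sum_abs _ _).trans ?_
    have h2 : ∀ k ∈ (Finset.univ : Finset (Fin m)),
        |s j * (MM U j k + if j = k then f U.1 else 0) * t k| ≤ b ^ 2 * δ := by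
      intro k _
      have hb : 0 ≤ b := (abs_nonneg _).trans (hs j)
      rw [abs_mul, abs_mul]
      have h3 := mul_le_mul (mul_le_mul (hs j) (MM_bound f hU j k) (abs_nonneg _) hb) (ht k)
        (abs_nonneg _) (by positivity)
      refine h3.trans (le_of_eq ?_)
      rw [hδ]; ring
    refine (Finset.sum_le_sum h2).trans (le_of_eq ?_)
    rw [Finset.sum_const, Finset.card_univ, Fintype.card_fin, nsmul_eq_mul]
  refine (Finset.sum_le_sum h1).trans (le_of_eq ?_)
  rw [Finset.sum_const, Finset.card_univ, Fintype.card_fin, nsmul_eq_mul]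
  ring

lemma iso_bound (f : Mat n m → ℝ) {U : State n m} {R : ℝ} (hU : ‖U‖ ≤ R) (hm : 0 < m) :
    |- (∑ j, MM U j j) / m - f U.1| ≤ (1 + n * R) * ‖U - Gf f U.1‖ := by
  have hR : 0 ≤ R := (norm_nonneg _).trans hU
  have hm' : (0 : ℝ) < m := by exact_mod_cast hm
  have e : - (∑ j, MM U j j) / m - f U.1 = - (∑ j, (MM U j j + f U.1)) / m := by
    rw [Finset.sum_add_distrib]
    simp only [Finset.sum_const, Finset.card_univ, Fintype.card_fin, nsmul_eq_mul]
    field_simp
    ring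
  rw [e, abs_div, abs_neg, abs_of_pos hm', div_le_iff₀ hm']
  refine (Finset.abs_sum_le_sum_abs _ _).trans ?_
  have h1 : ∀ j ∈ (Finset.univ : Finset (Fin m)), |MM U j j + f U.1|
      ≤ (1 + n * R) * ‖U - Gf f U.1‖ := by
    intro j _
    have := MM_bound f hU j j
    rwa [if_pos rfl] at this
  refine (Finset.sum_le_sum h1).trans (le_of_eq ?_)
  rw [Finset.sum_const, Finset.card_univ, Fintype.card_fin, nsmul_eq_mul]
  ring

/-- The analytic data on a ball. -/
lemma exists_anal {f : Mat n m → ℝ} (hf : ContDiff ℝ 2 f) (hLH : StrictLH f) {R : ℝ}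
    (hR : 0 ≤ R) : ∃ γ Λ : ℝ, Tr.Anal (fun y : EV n m => f ((ofMat n m).symm y)) (FF f)
      (fderiv ℝ (FF f)) Adm γ Λ R := by
  obtain ⟨γ, hγ, hγLH⟩ := uniform_LH hf hLH R
  have hF := contDiff_FF hf
  have hphi := hasFDerivAt_phi hf
  obtain ⟨Λ, hΛ0, hΛ⟩ := up_phi hF hphi R
  refine ⟨γ, max γ Λ, hγ, le_max_left _ _, hR, ?_, ?_, ?_, ?_, ?_⟩
  · rintro s d ⟨a, ν, rfl⟩
    refine ⟨fun i => s * a i, ν, ?_⟩
    rw [← map_smul]
    congr 1
    funext i j
    simp only [Pi.smul_apply, smul_eq_mul]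
    ring
  · intro A X hA hX
    have h1 := hΛ A (mem_closedBall_zero_iff.mpr hA) X (mem_closedBall_zero_iff.mpr hX)
    have h2 := mul_le_mul_of_nonneg_right (le_max_right γ Λ) (sq_nonneg ‖X - A‖)
    linarith
  · intro s hs
    obtain ⟨C, hC, hCd⟩ := diff_F hF R hs
    exact ⟨C, hC, fun A X hA hX => hCd _ (mem_closedBall_zero_iff.mpr hA) _
      (mem_closedBall_zero_iff.mpr hX)⟩
  · rintro A d hA hAd ⟨a, ν, rfl⟩
    exact low_phi hF hphi (R := R) (γ := γ) (mem_closedBall_zero_iff.mpr hA)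
      (mem_closedBall_zero_iff.mpr hAd) (fun z hz => hγLH z hz a ν)
  · rintro A d hA ⟨a, ν, rfl⟩
    have h := hγLH A (mem_closedBall_zero_iff.mpr hA) a ν
    have h0 : 0 ≤ γ * ‖ofMat n m (fun i j => a i * ν j)‖ ^ 2 := by positivity
    linarith

/-- The rigidity estimate for laminates of finite order. -/
theorem lam_rigidity {f : Mat n m → ℝ} (hf : ContDiff ℝ 2 f) (hLH : StrictLH f) (R b : ℝ) :
    ∃ C : ℝ, 0 ≤ C ∧ ∀ t : Tr (State n m),
      ((∃ β β' : Fin m → Fin m → ℝ, Dual β β' ∧ (∀ k j, |β k j| ≤ b ∧ |β' k j| ≤ b) ∧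
          IsLam (InFrame β) t) ∨ IsLam Isotropic t) →
      Tr.All (fun U => ‖U‖ ≤ R) t →
      ∃ A, OnK f A ∧ Tr.mean (fun U => dist U A ^ 2) t
        ≤ C * Real.sqrt (Tr.mean (fun U => Metric.infDist U {A | OnK f A}) t) := by
  set K : Set (State n m) := {A | OnK f A} with hK
  have hd := hf.differentiable (by norm_num : (2 : WithTop ℕ∞) ≠ 0)
  have hKne : K.Nonempty := ⟨_, onK_Gf hd 0⟩
  set R0 := max R 0 with hR0
  have hR00 : 0 ≤ R0 := le_max_right _ _
  set N0 := ‖(ofMat n m : Mat n m →L[ℝ] EV n m)‖ with hN0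
  set R' := N0 * R0 with hR'
  have hR'0 : 0 ≤ R' := by positivity
  obtain ⟨γ, Λ, An⟩ := exists_anal hf hLH hR'0
  -- the distance to `K_f`
  have hΨ : ContDiff ℝ 1 fun U : State n m => U - Gf f U.1 :=
    contDiff_id.sub ((contDiff_Gf hf).comp contDiff_fst)
  obtain ⟨C1, hC1, hC1d⟩ := le_dist_of_vanish hΨ R0
  have hC1' : ∀ U : State n m, ‖U‖ ≤ R0 → ‖U - Gf f U.1‖ ≤ C1 * Metric.infDist U K := by
    intro U hU
    refine le_infDist_of_forall hKne hC1 fun A hA => ?_
    refine hC1d U (mem_closedBall_zero_iff.mpr hU) A ?_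
    rw [← eq_Gf hA, sub_self]
  have hGlip : ContDiff ℝ 1 fun y : EV n m => Gf f ((ofMat n m).symm y) :=
    (contDiff_Gf hf).comp (ofMat n m).symm.contDiff
  obtain ⟨L, hL0, hLd⟩ := lip_gen hGlip R'
  set D0 : ℝ := R0 + ‖Gf f (0 : Mat n m)‖ with hD0
  have hD00 : 0 ≤ D0 := by positivity
  have hdist : ∀ U : State n m, ‖U‖ ≤ R0 → Metric.infDist U K ≤ D0 := by
    intro U hU
    have h0 : Gf f (0 : Mat n m) ∈ K := onK_Gf hd 0
    refine (Metric.infDist_le_dist_of_mem h0).trans ?_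
    rw [dist_eq_norm]
    exact (norm_sub_le _ _).trans (by linarith)
  set C3 : ℝ := C1 * (N0 + (1 + n * R0) * (m ^ 2 * b ^ 2 + 1)) with hC3
  have hC30 : 0 ≤ C3 := by positivity
  obtain ⟨C, hC, hcore⟩ := Tr.tree_core (J := Fin m)
    (x := fun U : State n m => ofMat n m U.1)
    (g := fun U : State n m => ofMat n m U.2.1)
    (e := fun U : State n m => C3 * Metric.infDist U K) An (E0 := C3 * D0) (by positivity)
  refine ⟨2 * C1 ^ 2 * D0 * Real.sqrt D0 + 2 * L ^ 2 * (C * Real.sqrt C3), by positivity, ?_⟩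
  intro t ht htR
  have htR0 : Tr.All (fun U => ‖U‖ ≤ R0) t := htR.mono fun U hU => hU.trans (le_max_left _ _)
  have hwt : Tr.Wt t := by
    rcases ht with ⟨β, β', hβ, -, ht⟩ | ht
    · exact (good_frame hβ ht).wt
    · exact (good_iso ht).wt
  have hxR : ∀ U : State n m, ‖U‖ ≤ R0 → ‖ofMat n m U.1‖ ≤ R' := by
    intro U hU
    refine ((ofMat n m : Mat n m →L[ℝ] EV n m).le_opNorm _).trans ?_
    exact mul_le_mul_of_nonneg_left ((norm_fst_le _).trans hU) (norm_nonneg _)
  have hg : ∀ U : State n m, ‖U‖ ≤ R0 → ‖ofMat n m U.2.1 - FF f (ofMat n m U.1)‖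
      ≤ C3 * Metric.infDist U K := by
    intro U hU
    have e1 : FF f (ofMat n m U.1) = ofMat n m (Gf f U.1).2.1 := by
      rw [FF, ContinuousLinearEquiv.symm_apply_apply, repr_apply]
      rfl
    rw [e1, ← map_sub]
    refine ((ofMat n m : Mat n m →L[ℝ] EV n m).le_opNorm _).trans ?_
    have h1 : ‖U.2.1 - (Gf f U.1).2.1‖ ≤ ‖U - Gf f U.1‖ :=
      (norm_fst_le (U - Gf f U.1).2).trans (norm_snd_le (U - Gf f U.1))
    have h2 := mul_le_mul_of_nonneg_left (h1.trans (hC1' U hU)) (norm_nonneg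
      (ofMat n m : Mat n m →L[ℝ] EV n m))
    refine h2.trans ?_
    rw [hC3, ← hN0]
    have h3 : 0 ≤ C1 * ((1 + n * R0) * (m ^ 2 * b ^ 2 + 1)) * Metric.infDist U K := by
      have := Metric.infDist_nonneg (x := U) (s := K)
      positivity
    linarith
  have hvar : Tr.var (fun U : State n m => ofMat n m U.1) t
      ≤ C * Real.sqrt C3 * Real.sqrt (Tr.mean (fun U => Metric.infDist U K) t) := by
    have hfin : ∀ M : Fin m → State n m → ℝ,
        Tr.Good (fun U : State n m => ofMat n m U.1) (fun U : State n m => ofMat n m U.2.1)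
          M Adm t →
        (∀ U : State n m, ‖U‖ ≤ R0 → ∀ j, |M j U - f U.1|
          ≤ (m ^ 2 * b ^ 2 + 1) * ((1 + n * R0) * ‖U - Gf f U.1‖)) →
        Tr.var (fun U : State n m => ofMat n m U.1) t
          ≤ C * Real.sqrt C3 * Real.sqrt (Tr.mean (fun U => Metric.infDist U K) t) := by
      intro M hG hM
      have hM2 : ∀ U : State n m, ‖U‖ ≤ R0 → ∀ j,
          |M j U - f ((ofMat n m).symm (ofMat n m U.1))| ≤ C3 * Metric.infDist U K := by
        intro U hU j
        rw [ContinuousLinearEquiv.symm_apply_apply]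
        refine (hM U hU j).trans ?_
        have h2 := mul_le_mul_of_nonneg_left (hC1' U hU)
          (by positivity : 0 ≤ ((m : ℝ) ^ 2 * b ^ 2 + 1) * (1 + n * R0))
        have h3 : 0 ≤ C1 * N0 * Metric.infDist U K := by
          have := Metric.infDist_nonneg (x := U) (s := K)
          positivity
        rw [hC3]
        linarith
      have h1 := hcore M t hG (htR0.mono fun U hU => ⟨hxR U hU, hg U hU, hM2 U hU,
        mul_le_mul_of_nonneg_left (hdist U hU) hC30⟩)
      rw [Tr.mean_const_mul, Real.sqrt_mul hC30] at h1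
      rw [mul_assoc]
      exact h1
    rcases ht with ⟨β, β', hβ, hb, ht⟩ | ht
    · refine hfin _ (good_frame hβ ht) fun U hU j => ?_
      have h1 := frame_bound f hU (b := b) (fun i => (hb j i).2) (fun i => (hb j i).1)
        (by rw [hβ j j, if_pos rfl])
      have h2 : 0 ≤ (1 + n * R0) * ‖U - Gf f U.1‖ := by positivity
      refine h1.trans ?_
      linarith
    · refine hfin _ (good_iso ht) fun U hU j => ?_
      have h1 := iso_bound f hU (lt_of_le_of_lt (Nat.zero_le _) j.2)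
      have h2 : 0 ≤ (1 + n * R0) * ‖U - Gf f U.1‖ := by positivity
      have h3 : 0 ≤ (m : ℝ) ^ 2 * b ^ 2 * ((1 + n * R0) * ‖U - Gf f U.1‖) := by positivity
      refine h1.trans ?_
      linarith
  refine ⟨Gf f (bary t).1, onK_Gf hd _, ?_⟩
  have hxb : ‖ofMat n m (bary t).1‖ ≤ R' := by
    rw [← mean_x]
    exact Tr.norm_mean_le hwt (htR0.mono fun U hU => hxR U hU)
  set δ := Tr.mean (fun U => Metric.infDist U K) t with hδ
  have hδ0 : 0 ≤ δ := Tr.mean_nonneg hwt (Tr.all_of_forall (fun U => Metric.infDist_nonneg) t)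
  have hδD : δ ≤ D0 := by
    have := Tr.mean_mono hwt (ψ := fun U => Metric.infDist U K) (χ := fun _ => D0)
      (htR0.mono fun U hU => hdist U hU)
    rwa [Tr.mean_const] at this
  have hpt : Tr.All (fun U => dist U (Gf f (bary t).1) ^ 2
      ≤ (2 * C1 ^ 2 * D0) * Metric.infDist U K
        + (2 * L ^ 2) * ‖ofMat n m U.1 - ofMat n m (bary t).1‖ ^ 2) t := by
    refine htR0.mono fun U hU => ?_
    have h1 := hC1' U hU
    have h2 := hLd _ (mem_closedBall_zero_iff.mpr hxb) _ (mem_closedBall_zero_iff.mpr (hxR U hU))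
    rw [ContinuousLinearEquiv.symm_apply_apply, ContinuousLinearEquiv.symm_apply_apply] at h2
    have h3 : dist U (Gf f (bary t).1) ≤ C1 * Metric.infDist U K
        + L * ‖ofMat n m U.1 - ofMat n m (bary t).1‖ := by
      have h4 := dist_triangle U (Gf f U.1) (Gf f (bary t).1)
      rw [dist_eq_norm U (Gf f U.1), dist_eq_norm (Gf f U.1)] at h4
      linarith
    have h5 := pow_le_pow_left₀ dist_nonneg h3 2
    set p := Metric.infDist U K
    set q := ‖ofMat n m U.1 - ofMat n m (bary t).1‖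
    have hp0 : 0 ≤ p := Metric.infDist_nonneg
    have h6 : p ^ 2 ≤ D0 * p := by
      rw [pow_two]
      exact mul_le_mul_of_nonneg_right (hdist U hU) hp0
    have h7 := mul_le_mul_of_nonneg_left h6 (by positivity : 0 ≤ 2 * C1 ^ 2)
    have h8 := sq_nonneg (C1 * p - L * q)
    linarith
  have hm := Tr.mean_mono hwt hpt
  rw [Tr.mean_add, Tr.mean_const_mul, Tr.mean_const_mul, ← hδ] at hm
  have hv2 : Tr.mean (fun U : State n m => ‖ofMat n m U.1 - ofMat n m (bary t).1‖ ^ 2) t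
      = Tr.var (fun U : State n m => ofMat n m U.1) t := by
    rw [Tr.var_eq, mean_x]
  rw [hv2] at hm
  have hδs : δ ≤ Real.sqrt D0 * Real.sqrt δ := by
    have h1 : δ = Real.sqrt δ * Real.sqrt δ := (Real.mul_self_sqrt hδ0).symm
    have h2 := mul_le_mul_of_nonneg_right (Real.sqrt_le_sqrt hδD) (Real.sqrt_nonneg δ)
    linarith
  have a1 := mul_le_mul_of_nonneg_left hδs (by positivity : 0 ≤ 2 * C1 ^ 2 * D0)
  have a2 := mul_le_mul_of_nonneg_left hvar (by positivity : 0 ≤ 2 * L ^ 2)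
  linarith

end MP73203d
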