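import Pool.Agent.MP_73203d_an.TreeDefs

/-! Means over the leaves of finite weighted trees. -/

namespace MP73203d

namespace Tr

variable {α W W' : Type*} [AddCommGroup W] [Module ℝ W] [AddCommGroup W'] [Module ℝ W']

lemma mean_leaf (ψ : α → W) (a : α) : mean ψ (leaf a) = ψ a := rfl

lemma mean_node (ψ : α → W) (c : ℝ) (l r : Tr α) :
    mean ψ (node c l r) = c • mean ψ l + (1 - c) • mean ψ r := rfl

lemma mean_node_real (ψ : α → ℝ) (c : ℝ) (l r : Tr α) :
    mean ψ (node c l r) = c * mean ψ l + (1 - c) * mean ψ r := rfl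

lemma mean_map (L : W →ₗ[ℝ] W') (ψ : α → W) (t : Tr α) :
    mean (fun a => L (ψ a)) t = L (mean ψ t) := by
  induction t with
  | leaf a => rfl
  | node c l r hl hr => rw [mean_node, mean_node, hl, hr, map_add, map_smul, map_smul]

lemma mean_add (ψ χ : α → W) (t : Tr α) :
    mean (fun a => ψ a + χ a) t = mean ψ t + mean χ t := by
  induction t with
  | leaf a => rfl
  | node c l r hl hr => rw [mean_node, mean_node, mean_node, hl, hr]; module

lemma mean_sub (ψ χ : α → W) (t : Tr α) :
    mean (fun a => ψ a - χ a) t = mean ψ t - mean χ t := by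
  induction t with
  | leaf a => rfl
  | node c l r hl hr => rw [mean_node, mean_node, mean_node, hl, hr]; module

lemma mean_const (w : W) (t : Tr α) : mean (fun _ => w) t = w := by
  induction t with
  | leaf a => rfl
  | node c l r hl hr => rw [mean_node, hl, hr]; module

lemma mean_const_mul (c : ℝ) (ψ : α → ℝ) (t : Tr α) :
    mean (fun a => c * ψ a) t = c * mean ψ t := by
  induction t with
  | leaf a => rfl
  | node c l r hl hr => rw [mean_node_real, mean_node_real, hl, hr]; ring

lemma mean_mono {ψ χ : α → ℝ} {t : Tr α} (hw : Wt t) (h : All (fun a => ψ a ≤ χ a) t) :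
    mean ψ t ≤ mean χ t := by
  induction t with
  | leaf a => exact h
  | node c l r hl hr =>
    have h1 := mul_le_mul_of_nonneg_left (hl hw.2.1 h.1) hw.1.1
    have h2 := mul_le_mul_of_nonneg_left (hr hw.2.2 h.2) (by linarith [hw.1.2] : (0 : ℝ) ≤ 1 - c)
    rw [mean_node_real, mean_node_real]
    linarith

lemma all_of_forall {p : α → Prop} (h : ∀ a, p a) (t : Tr α) : All p t := by
  induction t with
  | leaf a => exact h a
  | node c l r hl hr => exact ⟨hl, hr⟩

lemma All.mono {p q : α → Prop} (h : ∀ a, p a → q a) {t : Tr α} (ht : All p t) : All q t := by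
  induction t with
  | leaf a => exact h a ht
  | node c l r hl hr => exact ⟨hl ht.1, hr ht.2⟩

lemma mean_nonneg {ψ : α → ℝ} {t : Tr α} (hw : Wt t) (h : All (fun a => 0 ≤ ψ a) t) :
    0 ≤ mean ψ t := by
  have := mean_mono (ψ := fun _ => (0 : ℝ)) hw h
  rwa [mean_const] at this

lemma mean_sq_le (ψ : α → ℝ) {t : Tr α} (hw : Wt t) :
    (mean ψ t) ^ 2 ≤ mean (fun a => ψ a ^ 2) t := by
  set c := mean ψ t with hc
  have h := mean_nonneg (ψ := fun a => (ψ a - c) ^ 2) hw (all_of_forall (fun a => sq_nonneg _) t)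
  have e : mean (fun a => (ψ a - c) ^ 2) t = mean (fun a => ψ a ^ 2) t - 2 * c * c + c ^ 2 := by
    have : (fun a => (ψ a - c) ^ 2) = fun a => (ψ a ^ 2 - (2 * c) * ψ a) + c ^ 2 := by
      funext a; ring
    rw [this, mean_add, mean_sub, mean_const_mul, mean_const]
  rw [e] at h
  nlinarith

lemma abs_mean_le {ψ χ : α → ℝ} {t : Tr α} (hw : Wt t) (h : All (fun a => |ψ a| ≤ χ a) t) :
    |mean ψ t| ≤ mean χ t := by
  rw [abs_le]
  constructor
  · have := mean_mono (ψ := fun a => (-1) * χ a) (χ := ψ) hw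
      (h.mono fun a ha => by linarith [(abs_le.mp ha).1])
    rw [mean_const_mul] at this
    linarith
  · exact mean_mono hw (h.mono fun a ha => (abs_le.mp ha).2)

variable {V : Type*} [NormedAddCommGroup V] [InnerProductSpace ℝ V]

lemma mean_inner_left (x : α → V) (z : V) (t : Tr α) :
    mean (fun a => inner ℝ (x a) z) t = inner ℝ (mean x t) z := by
  induction t with
  | leaf a => rfl
  | node c l r hl hr =>
    rw [mean_node_real, mean_node, hl, hr, inner_add_left, real_inner_smul_left,
      real_inner_smul_left]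

lemma norm_mean_le {x : α → V} {R : ℝ} {t : Tr α} (hw : Wt t) (h : All (fun a => ‖x a‖ ≤ R) t) :
    ‖mean x t‖ ≤ R := by
  induction t with
  | leaf a => exact h
  | node c l r hl hr =>
    rw [mean_node]
    refine (norm_add_le _ _).trans ?_
    rw [norm_smul, norm_smul, Real.norm_eq_abs, Real.norm_eq_abs, abs_of_nonneg hw.1.1,
      abs_of_nonneg (by linarith [hw.1.2] : (0 : ℝ) ≤ 1 - c)]
    have h1 := mul_le_mul_of_nonneg_left (hl hw.2.1 h.1) hw.1.1
    have h2 := mul_le_mul_of_nonneg_left (hr hw.2.2 h.2) (by linarith [hw.1.2] : (0 : ℝ) ≤ 1 - c)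
    linarith

/-- The variance. -/
noncomputable def var (x : α → V) (t : Tr α) : ℝ :=
  mean (fun a => ‖x a‖ ^ 2) t - ‖mean x t‖ ^ 2

lemma mean_sq_sub (x : α → V) (z : V) (t : Tr α) :
    mean (fun a => ‖x a - z‖ ^ 2) t = var x t + ‖mean x t - z‖ ^ 2 := by
  have e : (fun a => ‖x a - z‖ ^ 2) = fun a => (‖x a‖ ^ 2 - 2 * inner ℝ (x a) z) + ‖z‖ ^ 2 := by
    funext a; rw [norm_sub_sq_real]
  rw [e, mean_add, mean_sub, mean_const_mul, mean_const, mean_inner_left, norm_sub_sq_real]
  unfold var
  ring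

lemma var_eq (x : α → V) (t : Tr α) :
    var x t = mean (fun a => ‖x a - mean x t‖ ^ 2) t := by
  rw [mean_sq_sub, sub_self, norm_zero]; ring

lemma var_nonneg (x : α → V) {t : Tr α} (hw : Wt t) : 0 ≤ var x t := by
  rw [var_eq]
  exact mean_nonneg hw (all_of_forall (fun a => sq_nonneg _) t)

lemma var_leaf (x : α → V) (a : α) : var x (leaf a) = 0 := by
  unfold var
  rw [mean_leaf, mean_leaf, sub_self]

lemma mean_left (x : α → V) (c : ℝ) (l r : Tr α) :
    mean x l = mean x (node c l r) + (1 - c) • (mean x l - mean x r) := by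
  rw [mean_node]; module

lemma mean_right (x : α → V) (c : ℝ) (l r : Tr α) :
    mean x r = mean x (node c l r) + (-c) • (mean x l - mean x r) := by
  rw [mean_node]; module

lemma var_node (x : α → V) (c : ℝ) (l r : Tr α) :
    var x (node c l r) = c * var x l + (1 - c) * var x r
      + c * (1 - c) * ‖mean x l - mean x r‖ ^ 2 := by
  unfold var
  rw [mean_node_real]
  have e1 : ‖mean x (node c l r)‖ ^ 2 = c ^ 2 * ‖mean x l‖ ^ 2
      + 2 * (c * (1 - c)) * inner ℝ (mean x l) (mean x r) + (1 - c) ^ 2 * ‖mean x r‖ ^ 2 := by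
    rw [mean_node, norm_add_sq_real, norm_smul, norm_smul, real_inner_smul_left,
      real_inner_smul_right, mul_pow, mul_pow, Real.norm_eq_abs, Real.norm_eq_abs, sq_abs, sq_abs]
    ring
  rw [e1, norm_sub_sq_real]
  ring

/-- The variance of a real function. -/
noncomputable def varR (ψ : α → ℝ) (t : Tr α) : ℝ := mean (fun a => ψ a ^ 2) t - (mean ψ t) ^ 2

lemma varR_leaf (ψ : α → ℝ) (a : α) : varR ψ (leaf a) = 0 := by
  unfold varR
  rw [mean_leaf, mean_leaf, sub_self]

lemma varR_nonneg (ψ : α → ℝ) {t : Tr α} (hw : Wt t) : 0 ≤ varR ψ t := by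
  have := mean_sq_le ψ hw
  unfold varR
  linarith

lemma varR_node (ψ : α → ℝ) (c : ℝ) (l r : Tr α) :
    varR ψ (node c l r) = c * varR ψ l + (1 - c) * varR ψ r
      + c * (1 - c) * (mean ψ l - mean ψ r) ^ 2 := by
  unfold varR
  rw [mean_node_real, mean_node_real]
  ring

end Tr

end MP73203d
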