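import Pool.Agent.MP_73203d_an.TreeCore

/-! Laminates of finite order: the fourth moment. -/

namespace MP73203d

namespace Tr

variable {α J V : Type*} [NormedAddCommGroup V] [InnerProductSpace ℝ V] [Fintype J]
  {x g : α → V} {M : J → α → ℝ} {adm : V → Prop} {f : V → ℝ} {F : V → V}
  {H : V → V →L[ℝ] V} {γ Λ R E0 : ℝ} {e : α → ℝ}

omit [Fintype J] in
lemma var_le_four {t : Tr α} (hG : Good x g M adm t)
    (hL : All (LeafOK x g M f F e R E0) t) : var x t ≤ 4 * R ^ 2 := by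
  rw [var_eq]
  have hX := norm_x_le hG hL
  have := mean_mono hG.wt (ψ := fun a => ‖x a - mean x t‖ ^ 2) (χ := fun _ => 4 * R ^ 2)
    (hL.mono fun a ha => by
      have h1 : ‖x a - mean x t‖ ≤ 2 * R := (norm_sub_le _ _).trans (by linarith [ha.1])
      have h2 := pow_le_pow_left₀ (norm_nonneg _) h1 2
      linarith [mul_pow 2 R 2])
  rwa [mean_const] at this

/-- The correction for the error terms. -/
noncomputable def Pt (x : α → V) (e : α → ℝ) (κ R : ℝ) (t : Tr α) : ℝ :=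
  mean e t * var x t + κ / 2 * varR e t
    + 1 / (2 * κ) * (2 * (4 * R ^ 2) * var x t - var x t ^ 2)

omit [Fintype J] in
lemma Pt_nonneg {κ : ℝ} (hκ : 0 < κ) {t : Tr α}
    (hG : Good x g M adm t) (hL : All (LeafOK x g M f F e R E0) t) : 0 ≤ Pt x e κ R t := by
  have h1 := var_nonneg x hG.wt
  have h2 := eb_nonneg hG hL
  have h3 := varR_nonneg e hG.wt
  have h4 := var_le_four hG hL
  have h5 : 0 ≤ 2 * (4 * R ^ 2) * var x t - var x t ^ 2 := by
    have := mul_le_mul_of_nonneg_right h4 h1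
    nlinarith
  unfold Pt
  positivity

omit [Fintype J] in
lemma Pt_node {κ : ℝ} (hκ : 0 < κ) {c : ℝ} {l r : Tr α}
    (hG : Good x g M adm (node c l r)) (hL : All (LeafOK x g M f F e R E0) (node c l r)) :
    c * Pt x e κ R l + (1 - c) * Pt x e κ R r
      + mean e (node c l r) * (c * (1 - c) * ‖mean x l - mean x r‖ ^ 2)
      ≤ Pt x e κ R (node c l r) := by
  have hV4 := var_le_four hG hL
  obtain ⟨hc, hGl, hGr, -, -, -⟩ := hG
  have hcc : 0 ≤ c * (1 - c) := mul_nonneg hc.1 (by linarith [hc.2])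
  set q := c * (1 - c) * ‖mean x l - mean x r‖ ^ 2 with hq
  have hq0 : 0 ≤ q := by positivity
  have hV := var_node x c l r
  rw [← hq] at hV
  have hv := varR_node e c l r
  have he := mean_node_real e c l r
  set Vl := var x l
  set Vr := var x r
  set el := mean e l
  set er := mean e r
  set V := var x (node c l r)
  have hVl : 0 ≤ Vl := var_nonneg x hGl.wt
  have hVr : 0 ≤ Vr := var_nonneg x hGr.wt
  unfold Pt
  rw [hv, he]
  set b := c * Vl + (1 - c) * Vr with hb
  have hb0 : 0 ≤ b := add_nonneg (mul_nonneg hc.1 hVl) (mul_nonneg (by linarith [hc.2]) hVr)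
  have hbV : b ≤ V := by linarith
  have h1 : 1 / (2 * κ) * (2 * (4 * R ^ 2) * b - b ^ 2)
      ≤ 1 / (2 * κ) * (2 * (4 * R ^ 2) * V - V ^ 2) := by
    refine mul_le_mul_of_nonneg_left ?_ (by positivity)
    nlinarith [mul_nonneg (sub_nonneg.mpr hbV) (sub_nonneg.mpr (hbV.trans hV4)),
      mul_nonneg (sub_nonneg.mpr hbV) (sub_nonneg.mpr hV4)]
  have h2 : (el - er) * (Vl - Vr) ≤ κ / 2 * (el - er) ^ 2 + 1 / (2 * κ) * (Vl - Vr) ^ 2 := by
    have h3 : 0 ≤ κ / 2 * ((el - er) - 1 / κ * (Vl - Vr)) ^ 2 := by positivity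
    have h4 : κ / 2 * ((el - er) - 1 / κ * (Vl - Vr)) ^ 2
        = κ / 2 * (el - er) ^ 2 - (el - er) * (Vl - Vr) + 1 / (2 * κ) * (Vl - Vr) ^ 2 := by
      field_simp
      ring
    linarith
  have h3 := mul_le_mul_of_nonneg_left h2 hcc
  have e1 : c * (el * Vl) + (1 - c) * (er * Vr)
      = (c * el + (1 - c) * er) * b + c * (1 - c) * ((el - er) * (Vl - Vr)) := by
    rw [hb]; ring
  have e2 : c * (2 * (4 * R ^ 2) * Vl - Vl ^ 2) + (1 - c) * (2 * (4 * R ^ 2) * Vr - Vr ^ 2)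
      = (2 * (4 * R ^ 2) * b - b ^ 2) - c * (1 - c) * (Vl - Vr) ^ 2 := by
    rw [hb]; ring
  have e3 : V = b + q := by rw [hb]; linarith
  have e4 : 1 / (2 * κ) * (c * (2 * (4 * R ^ 2) * Vl - Vl ^ 2)
      + (1 - c) * (2 * (4 * R ^ 2) * Vr - Vr ^ 2))
      = 1 / (2 * κ) * (2 * (4 * R ^ 2) * b - b ^ 2)
        - 1 / (2 * κ) * (c * (1 - c) * (Vl - Vr) ^ 2) := by
    rw [e2]; ring
  have e5 : (c * el + (1 - c) * er) * V = (c * el + (1 - c) * er) * b
      + (c * el + (1 - c) * er) * q := by rw [e3]; ring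
  linarith

/-- The constants of the method. -/
structure Const (γ Λ T A B K1 K2 : ℝ) : Prop where
  hT0 : 0 ≤ T
  hT1 : T ≤ γ / 64
  hT2 : 8 * Λ ^ 2 / γ ^ 2 * T ≤ γ / 8
  hA : A = 16 / γ
  hB0 : 0 ≤ B
  hB : 12 / γ + A * (1 + 8 / γ * T + T / 2 + (4 * Λ ^ 2 / γ + 1) * (4 / γ)) ≤ B * γ / 2
  hK2 : 18 / γ ^ 2 + A * (16 / γ + 1 + (4 * Λ ^ 2 / γ + 1) * (6 / γ ^ 2))
      + B * (5 + 16 * Λ ^ 2 / γ ^ 2) ≤ K2
  hK1 : 12 / γ ^ 2 + A * (8 / γ + 1 / 2 + (4 * Λ ^ 2 / γ + 1) * (4 / γ ^ 2))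
      + B * (3 + 8 * Λ ^ 2 / γ ^ 2) ≤ K1

/-- The polynomial potential. -/
noncomputable def Ph (x : α → V) (f : V → ℝ) (A B : ℝ) (x0 : V) (t : Tr α) : ℝ :=
  (‖mean x t - x0‖ ^ 2) ^ 2 + A * (‖mean x t - x0‖ ^ 2 * Dt x f t) + B * Dt x f t ^ 2

omit [Fintype J] in
/-- The excess of a child. -/
lemma Dt_child {c : ℝ} {l r : Tr α} {j : J}
    (htr : mean (M j) l - mean (M j) r
        = inner ℝ (mean x l - mean x r) (mean g (node c l r))) :
    Dt x f l = Dt x f (node c l r)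
        + inner ℝ ((1 - c) • (mean x l - mean x r)) (mean g (node c l r) - F (mean x (node c l r)))
        - (1 - c) * (mean (fun a => M j a - f (x a)) l - mean (fun a => M j a - f (x a)) r)
        - (f (mean x l) - f (mean x (node c l r))
            - inner ℝ (F (mean x (node c l r))) ((1 - c) • (mean x l - mean x r))) ∧
      Dt x f r = Dt x f (node c l r)
        + inner ℝ ((-c) • (mean x l - mean x r)) (mean g (node c l r) - F (mean x (node c l r)))
        - (-c) * (mean (fun a => M j a - f (x a)) l - mean (fun a => M j a - f (x a)) r)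
        - (f (mean x r) - f (mean x (node c l r))
            - inner ℝ (F (mean x (node c l r))) ((-c) • (mean x l - mean x r))) := by
  have e1 := mean_node_real (fun a => f (x a)) c l r
  set X := mean x (node c l r)
  set Y := mean g (node c l r)
  set d := mean x l - mean x r
  unfold Dt
  rw [mean_sub, mean_sub, real_inner_smul_left, real_inner_smul_left, real_inner_smul_right,
    real_inner_smul_right, inner_sub_right, ← htr, real_inner_comm d (F X), e1]
  constructor <;> ring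

end Tr

end MP73203d
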