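import Pool.Agent.MP_73203d_an.TreePot

/-! Laminates of finite order: the fourth moment is controlled by the square of the excess. -/

namespace MP73203d

namespace Tr

variable {α J V : Type*} [NormedAddCommGroup V] [InnerProductSpace ℝ V] [Fintype J]
  {x g : α → V} {M : J → α → ℝ} {adm : V → Prop} {f : V → ℝ} {F : V → V}
  {H : V → V →L[ℝ] V} {γ Λ R E0 T A B K1 K2 : ℝ} {e : α → ℝ}

lemma Const.K1_nonneg (hγ : 0 < γ) (h : Const γ Λ T A B K1 K2) : 0 ≤ K1 := by
  have := h.hK1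
  have hA : 0 ≤ A := by rw [h.hA]; positivity
  have hB := h.hB0
  have : 0 ≤ 12 / γ ^ 2 + A * (8 / γ + 1 / 2 + (4 * Λ ^ 2 / γ + 1) * (4 / γ ^ 2))
      + B * (3 + 8 * Λ ^ 2 / γ ^ 2) := by positivity
  linarith [h.hK1]

lemma Const.K2_nonneg (hγ : 0 < γ) (h : Const γ Λ T A B K1 K2) : 0 ≤ K2 := by
  have hA : 0 ≤ A := by rw [h.hA]; positivity
  have hB := h.hB0
  have : 0 ≤ 18 / γ ^ 2 + A * (16 / γ + 1 + (4 * Λ ^ 2 / γ + 1) * (6 / γ ^ 2))
      + B * (5 + 16 * Λ ^ 2 / γ ^ 2) := by positivity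
  linarith [h.hK2]

/-- One child of a node. -/
lemma child_le (An : Anal f F H adm γ Λ R) (hc : Const γ Λ T A B K1 K2) {X x0 d ε : V}
    {D δ η s D' : ℝ} {X' : V} (hX : ‖X‖ ≤ R) (hX' : ‖X'‖ ≤ R) (hd : adm d)
    (hε : ‖ε‖ ^ 2 ≤ T * D + 2 * η ^ 2) (hD : 0 ≤ D) (hD0 : 0 ≤ D')
    (hXX : X' = X + s • d) (hDD : D' = D + inner ℝ (s • d) ε - s * δ
      - (f X' - f X - inner ℝ (F X) (s • d))) :
    (‖X' - x0‖ ^ 2) ^ 2 + A * (‖X' - x0‖ ^ 2 * D') + B * D' ^ 2
      ≤ ((‖X - x0‖ ^ 2) ^ 2 + A * (‖X - x0‖ ^ 2 * D) + B * D ^ 2)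
        + s * (4 * ‖X - x0‖ ^ 2 * inner ℝ (X - x0) d
            + A * (‖X - x0‖ ^ 2 * (inner ℝ d ε - δ) + 2 * inner ℝ (X - x0) d * D)
            + 2 * B * D * (inner ℝ d ε - δ))
        + s ^ 2 * (K1 * δ ^ 2 + K2 * (η ^ 2 * ‖d‖ ^ 2)) := by
  have hγ := An.hγ
  have hsd := An.scal s d hd
  have hlow := An.hlow X (s • d) hX (by rw [← hXX]; exact hX') hsd
  have hup := An.hup X X' hX hX'
  have e0 : X' - X = s • d := by rw [hXX]; abel
  rw [← hXX] at hlow
  rw [e0] at hup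
  have hr : (inner ℝ (X - x0) (s • d)) ^ 2 ≤ ‖X - x0‖ ^ 2 * ‖s • d‖ ^ 2 := by
    have h1 := abs_real_inner_le_norm (X - x0) (s • d)
    have h2 := pow_le_pow_left₀ (abs_nonneg _) h1 2
    rw [sq_abs, mul_pow] at h2
    exact h2
  have hu : (inner ℝ (s • d) ε) ^ 2 ≤ (T * D + 2 * η ^ 2) * ‖s • d‖ ^ 2 := by
    have h1 := abs_real_inner_le_norm (s • d) ε
    have h2 := pow_le_pow_left₀ (abs_nonneg _) h1 2
    rw [sq_abs, mul_pow] at h2
    have h3 := mul_le_mul_of_nonneg_right hε (sq_nonneg ‖s • d‖)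
    linarith
  have key := step_real2 (p := ‖X - x0‖ ^ 2) (q := ‖s • d‖ ^ 2) (r := inner ℝ (X - x0) (s • d))
    (u := inner ℝ (s • d) ε) (ρ := s * δ) (η := η)
    (e := f X' - f X - inner ℝ (F X) (s • d)) hγ An.hΛ (sq_nonneg _) (sq_nonneg _) hD hr hu
    (by linarith) (by linarith) (by rw [← hDD]; exact hD0) hc.hT0 hc.hT1 hc.hT2 hc.hA hc.hB0
    hc.hB hc.hK2 hc.hK1
  rw [← hDD] at key
  have e1 : ‖X' - x0‖ ^ 2 = ‖X - x0‖ ^ 2 + 2 * inner ℝ (X - x0) (s • d) + ‖s • d‖ ^ 2 := by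
    have : X' - x0 = (X - x0) + s • d := by rw [hXX]; abel
    rw [this, norm_add_sq_real]
  have e2 : ‖s • d‖ ^ 2 = s ^ 2 * ‖d‖ ^ 2 := by
    rw [norm_smul, mul_pow, Real.norm_eq_abs, sq_abs]
  have e3 : inner ℝ (X - x0) (s • d) = s * inner ℝ (X - x0) d := real_inner_smul_right _ _ _
  have e4 : inner ℝ (s • d) ε = s * inner ℝ d ε := real_inner_smul_left _ _ _
  have e5 : f X' - f X - inner ℝ (F X) (s • d) = D + s * inner ℝ d ε - s * δ - D' := by
    rw [hDD, e4]; ring
  rw [e5, e4, e3, e2] at key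
  rw [e1, e3, e2]
  linarith

/-- The fourth moment. -/
lemma potential (An : Anal f F H adm γ Λ R) (hc : Const γ Λ T A B K1 K2) {κ Ds : ℝ}
    (hκ : 0 < κ) (hDs : 0 < Ds) (hBD : (2 * R) ^ 4 ≤ B * Ds ^ 2)
    (hEps : ∀ t : Tr α, Good x g M adm t → All (LeafOK x g M f F e R E0) t → Dt x f t < Ds →
      ‖mean g t - F (mean x t)‖ ^ 2 ≤ T * Dt x f t + 2 * mean e t ^ 2)
    {x0 : V} (hx0 : ‖x0‖ ≤ R) {t : Tr α} (hG : Good x g M adm t)
    (hL : All (LeafOK x g M f F e R E0) t) :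
    mean (fun a => ‖x a - x0‖ ^ 4) t ≤ min (Ph x f A B x0 t) (B * Ds ^ 2)
      + K1 * ∑ j, varR (fun a => M j a - f (x a)) t + K2 * (E0 * Pt x e κ R t) := by
  have hγ := An.hγ
  have hK1 := hc.K1_nonneg hγ
  have hK2 := hc.K2_nonneg hγ
  have hB0 := hc.hB0
  have hA0 : 0 ≤ A := by rw [hc.hA]; positivity
  induction t with
  | leaf a =>
    have h1 : ∑ j, varR (fun a => M j a - f (x a)) (leaf a) = 0 :=
      Finset.sum_eq_zero fun j _ => varR_leaf _ _
    have h2 : Pt x e κ R (leaf a) = 0 := by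
      unfold Pt
      rw [varR_leaf, var_leaf]
      ring
    have h3 : Ph x f A B x0 (leaf a) = ‖x a - x0‖ ^ 4 := by
      unfold Ph Dt
      rw [mean_leaf, mean_leaf]
      ring
    have h4 : ‖x a - x0‖ ^ 4 ≤ B * Ds ^ 2 := by
      have h5 : ‖x a - x0‖ ≤ 2 * R := (norm_sub_le _ _).trans (by linarith [hL.1])
      exact (pow_le_pow_left₀ (norm_nonneg _) h5 4).trans hBD
    rw [h1, h2, h3, mean_leaf, min_eq_left h4]
    linarith
  | node c l r hl hr =>
    have hPn := Pt_node hκ hG hL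
    have hX := norm_x_le hG hL
    have hDn := D_nonneg An hG hL
    have heb := eb_nonneg hG hL
    have heb' := eb_le hG hL
    have hG' := hG
    obtain ⟨hc01, hGl, hGr, horth, ⟨j, hj⟩, hadm⟩ := hG
    have hXl := norm_x_le hGl hL.1
    have hXr := norm_x_le hGr hL.2
    have hDl := D_nonneg An hGl hL.1
    have hDr := D_nonneg An hGr hL.2
    have il := mul_le_mul_of_nonneg_left (hl hGl hL.1) hc01.1
    have ir := mul_le_mul_of_nonneg_left (hr hGr hL.2) (by linarith [hc01.2] : (0 : ℝ) ≤ 1 - c)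
    have hcc : 0 ≤ c * (1 - c) := mul_nonneg hc01.1 (by linarith [hc01.2])
    set δ := mean (fun a => M j a - f (x a)) l - mean (fun a => M j a - f (x a)) r with hδ
    set d := mean x l - mean x r with hd
    have hDs2 : 0 ≤ B * Ds ^ 2 := by positivity
    -- the sum of the variances
    have hS : c * ∑ j, varR (fun a => M j a - f (x a)) l
        + (1 - c) * ∑ j, varR (fun a => M j a - f (x a)) r + c * (1 - c) * δ ^ 2
        ≤ ∑ j, varR (fun a => M j a - f (x a)) (node c l r) := by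
      have e1 : ∑ i, varR (fun a => M i a - f (x a)) (node c l r)
          = c * ∑ i, varR (fun a => M i a - f (x a)) l
            + (1 - c) * ∑ i, varR (fun a => M i a - f (x a)) r
            + ∑ i, c * (1 - c) * (mean (fun a => M i a - f (x a)) l
                - mean (fun a => M i a - f (x a)) r) ^ 2 := by
        rw [Finset.mul_sum, Finset.mul_sum, ← Finset.sum_add_distrib, ← Finset.sum_add_distrib]
        exact Finset.sum_congr rfl fun i _ => varR_node _ c l r
      have e2 := Finset.single_le_sum (f := fun i => c * (1 - c) *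
        (mean (fun a => M i a - f (x a)) l - mean (fun a => M i a - f (x a)) r) ^ 2)
        (fun i _ => mul_nonneg hcc (sq_nonneg _)) (Finset.mem_univ j)
      rw [e1, hδ]
      linarith
    have hmain : c * min (Ph x f A B x0 l) (B * Ds ^ 2)
        + (1 - c) * min (Ph x f A B x0 r) (B * Ds ^ 2)
        ≤ min (Ph x f A B x0 (node c l r)) (B * Ds ^ 2)
          + c * (1 - c) * (K1 * δ ^ 2 + K2 * (mean e (node c l r) ^ 2 * ‖d‖ ^ 2)) := by
      have hpos : 0 ≤ c * (1 - c) * (K1 * δ ^ 2 + K2 * (mean e (node c l r) ^ 2 * ‖d‖ ^ 2)) := by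
        positivity
      have hbd : c * min (Ph x f A B x0 l) (B * Ds ^ 2)
          + (1 - c) * min (Ph x f A B x0 r) (B * Ds ^ 2) ≤ B * Ds ^ 2 := by
        have h1 := mul_le_mul_of_nonneg_left (min_le_right (Ph x f A B x0 l) (B * Ds ^ 2)) hc01.1
        have h2 := mul_le_mul_of_nonneg_left (min_le_right (Ph x f A B x0 r) (B * Ds ^ 2))
          (by linarith [hc01.2] : (0 : ℝ) ≤ 1 - c)
        linarith
      rcases le_or_gt Ds (Dt x f (node c l r)) with hcase | hcase
      · have h1 : B * Ds ^ 2 ≤ Ph x f A B x0 (node c l r) := by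
          unfold Ph
          have h2 := pow_le_pow_left₀ hDs.le hcase 2
          have h3 := mul_le_mul_of_nonneg_left h2 hB0
          have h4 : 0 ≤ (‖mean x (node c l r) - x0‖ ^ 2) ^ 2
              + A * (‖mean x (node c l r) - x0‖ ^ 2 * Dt x f (node c l r)) := by positivity
          linarith
        rw [min_eq_right h1]
        linarith
      · have hε := hEps _ hG' hL hcase
        obtain ⟨hcl, hcr⟩ := Dt_child (f := f) (F := F) hj
        rw [← hδ, ← hd] at hcl hcr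
        have k1 := child_le An hc (x0 := x0) hX hXl hadm hε hDn hDl (mean_left x c l r) hcl
        have k2 := child_le An hc (x0 := x0) hX hXr hadm hε hDn hDr (mean_right x c l r) hcr
        have k1' := mul_le_mul_of_nonneg_left k1 hc01.1
        have k2' := mul_le_mul_of_nonneg_left k2 (by linarith [hc01.2] : (0 : ℝ) ≤ 1 - c)
        have hΦ : c * Ph x f A B x0 l + (1 - c) * Ph x f A B x0 r
            ≤ Ph x f A B x0 (node c l r)
              + c * (1 - c) * (K1 * δ ^ 2 + K2 * (mean e (node c l r) ^ 2 * ‖d‖ ^ 2)) := by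
          unfold Ph
          linarith
        have h1 := mul_le_mul_of_nonneg_left (min_le_left (Ph x f A B x0 l) (B * Ds ^ 2)) hc01.1
        have h2 := mul_le_mul_of_nonneg_left (min_le_left (Ph x f A B x0 r) (B * Ds ^ 2))
          (by linarith [hc01.2] : (0 : ℝ) ≤ 1 - c)
        have h3 : c * min (Ph x f A B x0 l) (B * Ds ^ 2)
            + (1 - c) * min (Ph x f A B x0 r) (B * Ds ^ 2)
            - c * (1 - c) * (K1 * δ ^ 2 + K2 * (mean e (node c l r) ^ 2 * ‖d‖ ^ 2))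
            ≤ min (Ph x f A B x0 (node c l r)) (B * Ds ^ 2) :=
          le_min (by linarith) (by linarith)
        linarith
    have hS' := mul_le_mul_of_nonneg_left hS hK1
    have hE0 : 0 ≤ E0 := heb.trans heb'
    have hP' := mul_le_mul_of_nonneg_left (mul_le_mul_of_nonneg_left hPn hE0) hK2
    have he2 : mean e (node c l r) ^ 2 * (c * (1 - c) * ‖d‖ ^ 2)
        ≤ E0 * (mean e (node c l r) * (c * (1 - c) * ‖d‖ ^ 2)) := by
      have h1 : 0 ≤ c * (1 - c) * ‖d‖ ^ 2 := by positivity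
      have h2 : mean e (node c l r) ^ 2 ≤ E0 * mean e (node c l r) := by
        rw [pow_two]
        exact mul_le_mul_of_nonneg_right heb' heb
      have := mul_le_mul_of_nonneg_right h2 h1
      linarith
    have he3 := mul_le_mul_of_nonneg_left he2 hK2
    rw [mean_node_real (fun a => ‖x a - x0‖ ^ 4)]
    linarith

end Tr

end MP73203d
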