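import Pool.Agent.MP_73203d_an.TreeGap

/-! Laminates of finite order: the variance is controlled by the errors at the leaves. -/

namespace MP73203d

namespace Tr

variable {α J V : Type*} [NormedAddCommGroup V] [InnerProductSpace ℝ V] [Fintype J]
  {x g : α → V} {M : J → α → ℝ} {adm : V → Prop} {f : V → ℝ} {F : V → V}
  {H : V → V →L[ℝ] V} {γ Λ R E0 : ℝ} {e : α → ℝ}

omit [Fintype J] in
/-- The excess of a node seen from a child. -/
lemma D_from_child (An : Anal f F H adm γ Λ R) {X Xi Y Yi d : V} {s δ D Di φ φi : ℝ}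
    (hX : ‖X‖ ≤ R) (hXi : ‖Xi‖ ≤ R) (hd : adm d) (hXX : Xi = X + s • d)
    (hφ : φi = φ + s * inner ℝ d Y - s * δ) (hY : inner ℝ d Yi = inner ℝ d Y)
    (hD : D = φ - f X) (hDi : Di = φi - f Xi) :
    D ≤ Di + 2 * R * ‖Yi - F Xi‖ + s * δ := by
  have h1 := An.hlow Xi (-s • d) hXi (by rw [hXX]; simpa using hX) (An.scal _ _ hd)
  have e1 : Xi + -s • d = X := by rw [hXX]; module
  rw [e1, real_inner_smul_right] at h1
  have h2 : 0 ≤ γ * ‖-s • d‖ ^ 2 := mul_nonneg An.hγ.le (sq_nonneg _)
  have h3 : inner ℝ (X - Xi) (Yi - F Xi) ≤ 2 * R * ‖Yi - F Xi‖ := by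
    refine (real_inner_le_norm _ _).trans ?_
    refine mul_le_mul_of_nonneg_right ?_ (norm_nonneg _)
    exact (norm_sub_le _ _).trans (by linarith)
  have e2 : X - Xi = -s • d := by rw [hXX]; module
  rw [e2, real_inner_smul_left, inner_sub_right, hY, real_inner_comm (F Xi) d] at h3
  rw [hD, hDi, hφ]
  linarith

omit [Fintype J] in
/-- Small mean error forces a small excess. -/
lemma prop_small (An : Anal f F H adm γ Λ R) {c0 C : ℝ} (hc0 : 0 < c0)
    (hC : 0 ≤ C) (hgap : ∀ (M : J → α → ℝ) (η : ℝ) (t : Tr α), 0 < η → η ≤ 1 →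
      Good x g M adm t → All (LeafOK x g M f F e R E0) t → mean e t ≤ η ^ 2 →
      Dt x f t ≤ c0 → Dt x f t ≤ C * η) :
    ∃ η1 : ℝ, 0 < η1 ∧ η1 ≤ 1 ∧ ∀ (M : J → α → ℝ) (t : Tr α), Good x g M adm t →
      All (LeafOK x g M f F e R E0) t → mean e t < η1 ^ 2 → Dt x f t ≤ c0 := by
  have hγ := An.hγ
  have hR := An.hR
  obtain ⟨C1, hC10, hC1⟩ := An.hdiff 1 one_pos
  set Z : ℝ := C + 2 * R * (1 + Real.sqrt (C / γ) + C1 * (C / γ)) + 2 with hZ
  have hZ0 : 0 < Z := by
    have : 0 ≤ C + 2 * R * (1 + Real.sqrt (C / γ) + C1 * (C / γ)) := by positivity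
    rw [hZ]; linarith
  obtain ⟨θ, hθ0, hθ1, hθ⟩ : ∃ θ : ℝ, 0 < θ ∧ θ ≤ 1 ∧ Z * θ ≤ c0 := by
    refine ⟨min 1 (c0 / Z), by positivity, min_le_left _ _, ?_⟩
    have h1 := mul_le_mul_of_nonneg_left (min_le_right 1 (c0 / Z)) hZ0.le
    refine h1.trans (le_of_eq ?_)
    field_simp
  have hθ2 : θ ^ 2 ≤ θ := by nlinarith
  have hη1 : θ ^ 2 ≤ 1 := by linarith
  have hη4 : (θ ^ 2) ^ 2 ≤ θ := by nlinarith [sq_nonneg θ]
  refine ⟨θ ^ 2, by positivity, hη1, ?_⟩
  intro M t
  induction t with
  | leaf a =>
    intro _ _ _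
    have : Dt x f (leaf a) = 0 := by
      unfold Dt
      rw [mean_leaf, mean_leaf, sub_self]
    rw [this]; exact hc0.le
  | node c l r hl hr =>
    intro hG hL het
    have hX := norm_x_le hG hL
    have heb := eb_nonneg hG hL
    have hG' := hG
    obtain ⟨hc01, hGl, hGr, horth, ⟨j, hj⟩, hadm⟩ := hG
    -- the estimate from one child
    have key : ∀ (i : Tr α) (s : ℝ), Good x g M adm i → All (LeafOK x g M f F e R E0) i →
        Dt x f i ≤ c0 → mean e i ≤ mean e (node c l r) →
        mean x i = mean x (node c l r) + s • (mean x l - mean x r) →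
        mean g i = mean g (node c l r) + s • (mean g l - mean g r) →
        mean (fun a => f (x a)) i = mean (fun a => f (x a)) (node c l r)
          + s * (mean (fun a => f (x a)) l - mean (fun a => f (x a)) r) →
        mean (fun a => M j a - f (x a)) i - mean (fun a => M j a - f (x a)) (node c l r)
          = s * (mean (fun a => M j a - f (x a)) l - mean (fun a => M j a - f (x a)) r) →
        Dt x f (node c l r) ≤ c0 := by
      intro i s hGi hLi hDi hei hxi hgi hφi hri
      have hXi := norm_x_le hGi hLi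
      have hebi := eb_nonneg hGi hLi
      have hD1 := hgap M (θ ^ 2) i (by positivity) hη1 hGi hLi (hei.trans het.le) hDi
      have hV1 := var_le_D An hGi hLi
      have hV0 := var_nonneg x hGi.wt
      have hε := eps_le one_pos hC10 hC1 hGi hLi
      have hrj : mean (fun a => M j a - f (x a)) l - mean (fun a => M j a - f (x a)) r
          = (mean (M j) l - mean (M j) r)
            - (mean (fun a => f (x a)) l - mean (fun a => f (x a)) r) := by
        rw [mean_sub, mean_sub]; ring
      have hkey := D_from_child An (X := mean x (node c l r)) (Xi := mean x i)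
        (Y := mean g (node c l r)) (Yi := mean g i) (d := mean x l - mean x r) (s := s)
        (δ := mean (fun a => M j a - f (x a)) l - mean (fun a => M j a - f (x a)) r)
        (D := Dt x f (node c l r)) (Di := Dt x f i)
        (φ := mean (fun a => f (x a)) (node c l r)) (φi := mean (fun a => f (x a)) i)
        hX hXi hadm hxi
        (by rw [← hj, hrj, hφi]; ring)
        (by rw [hgi, inner_add_right, real_inner_smul_right, horth, mul_zero, add_zero])
        rfl rfl
      rw [← hri] at hkey
      have hr1 : mean (fun a => M j a - f (x a)) i ≤ mean e i :=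
        mean_mono hGi.wt (hLi.mono fun a ha => (abs_le.mp (ha.2.2.1 j)).2)
      have hr2 : -mean e (node c l r) ≤ mean (fun a => M j a - f (x a)) (node c l r) :=
        (abs_le.mp (abs_mean_le hG'.wt (hL.mono fun a ha => ha.2.2.1 j))).1
      have hVi : var x i ≤ C / γ * θ ^ 2 := by
        have h1 : var x i ≤ C * θ ^ 2 / γ := by
          rw [le_div_iff₀ hγ]
          linarith
        refine h1.trans (le_of_eq ?_)
        ring
      have hsq : Real.sqrt (var x i) ≤ Real.sqrt (C / γ) * θ := by
        have h1 := Real.sqrt_le_sqrt hVi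
        rwa [Real.sqrt_mul (by positivity), Real.sqrt_sq hθ0.le] at h1
      have hεle : ‖mean g i - F (mean x i)‖
          ≤ (1 + Real.sqrt (C / γ) + C1 * (C / γ)) * θ := by
        have h1 : mean e i ≤ θ := by linarith
        have h2 : C1 * var x i ≤ C1 * (C / γ) * θ := by
          have h3 : C / γ * θ ^ 2 ≤ C / γ * θ :=
            mul_le_mul_of_nonneg_left hθ2 (by positivity)
          have := mul_le_mul_of_nonneg_left (hVi.trans h3) hC10
          linarith
        rw [one_mul] at hε
        linarith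
      have h5 := mul_le_mul_of_nonneg_left hεle (by positivity : 0 ≤ 2 * R)
      have h6 : C * θ ^ 2 ≤ C * θ := mul_le_mul_of_nonneg_left hθ2 hC
      have h7 : Z * θ = C * θ + 2 * R * ((1 + Real.sqrt (C / γ) + C1 * (C / γ)) * θ)
          + 2 * θ := by rw [hZ]; ring
      linarith
    have hel : mean e (node c l r) = c * mean e l + (1 - c) * mean e r := mean_node_real e c l r
    rcases le_total (mean e l) (mean e r) with hlr | hlr
    · have h1 : mean e l ≤ mean e (node c l r) := by
        rw [hel]
        have := mul_le_mul_of_nonneg_left hlr (by linarith [hc01.2] : (0 : ℝ) ≤ 1 - c)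
        linarith
      refine key l (1 - c) hGl hL.1 (hl hGl hL.1 (lt_of_le_of_lt h1 het)) h1
        (mean_left x c l r) ?_ ?_ ?_
      · rw [mean_node]; module
      · rw [mean_node_real]; ring
      · rw [mean_node_real]; ring
    · have h1 : mean e r ≤ mean e (node c l r) := by
        rw [hel]
        have := mul_le_mul_of_nonneg_left hlr hc01.1
        linarith
      refine key r (-c) hGr hL.2 (hr hGr hL.2 (lt_of_le_of_lt h1 het)) h1
        (mean_right x c l r) ?_ ?_ ?_
      · rw [mean_node]; module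
      · rw [mean_node_real]; ring
      · rw [mean_node_real]; ring

/-- The variance of a laminate of finite order is controlled by the mean error at the leaves,
independently of the order. -/
theorem tree_core (An : Anal f F H adm γ Λ R) (hE0 : 0 ≤ E0) :
    ∃ C : ℝ, 0 ≤ C ∧ ∀ (M : J → α → ℝ) (t : Tr α), Good x g M adm t → All (LeafOK x g M f F e R E0) t →
      var x t ≤ C * Real.sqrt (mean e t) := by
  have hγ := An.hγ
  obtain ⟨K, C, hK, hC, hgap⟩ := gap_ineq (J := J) (x := x) (g := g) (e := e) An hE0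
  have hgap' : ∀ (M : J → α → ℝ) (η : ℝ) (t : Tr α), 0 < η → η ≤ 1 →
      Good x g M adm t → All (LeafOK x g M f F e R E0) t → mean e t ≤ η ^ 2 →
      Dt x f t ≤ 1 / (2 * (K + 1)) → Dt x f t ≤ 2 * C * η := by
    intro M η t h0 h1 hG hL he hD
    have h2 := hgap M η t h0 h1 hG hL he
    have h3 := D_nonneg An hG hL
    have h4 : K * Dt x f t ^ 2 ≤ Dt x f t / 2 := by
      have h5 := mul_le_mul_of_nonneg_right hD h3
      have h6 : 0 ≤ (K + 1) := by linarith
      have h7 := mul_le_mul_of_nonneg_left h5 h6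
      have h8 : (K + 1) * (1 / (2 * (K + 1)) * Dt x f t) = Dt x f t / 2 := by
        field_simp
      have h9 := sq_nonneg (Dt x f t)
      linarith
    linarith
  obtain ⟨η1, hη0, hη1, hprop⟩ := prop_small An (c0 := 1 / (2 * (K + 1))) (C := 2 * C)
    (by positivity) (by positivity) hgap'
  refine ⟨4 * R ^ 2 / η1 + 2 * C / γ, by positivity, ?_⟩
  intro M t hG hL
  have heb := eb_nonneg hG hL
  have hV4 := var_le_four hG hL
  have hV1 := var_le_D An hG hL
  have hs0 := Real.sqrt_nonneg (mean e t)
  rw [add_mul]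
  rcases lt_or_ge (mean e t) (η1 ^ 2) with hcase | hcase
  · have hD := hprop M t hG hL hcase
    have h1 : 0 ≤ 4 * R ^ 2 / η1 * Real.sqrt (mean e t) := by positivity
    have h2 : Dt x f t ≤ 2 * C * Real.sqrt (mean e t) := by
      rcases heb.lt_or_eq with hpos | hzero
      · refine hgap' M (Real.sqrt (mean e t)) t (Real.sqrt_pos.mpr hpos) ?_ hG hL ?_ hD
        · have h3 : mean e t ≤ 1 := by nlinarith
          rw [← Real.sqrt_one]
          exact Real.sqrt_le_sqrt h3
        · rw [Real.sq_sqrt heb]
      · rw [← hzero, Real.sqrt_zero, mul_zero]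
        refine le_of_forall_pos_le_add fun ε hε => ?_
        have h3 := hgap' M (min 1 (ε / (2 * C + 1))) t (by positivity) (min_le_left _ _) hG hL
          (by rw [← hzero]; positivity) hD
        have h4 : 2 * C * min 1 (ε / (2 * C + 1)) ≤ ε := by
          have h5 := mul_le_mul_of_nonneg_left (min_le_right 1 (ε / (2 * C + 1)))
            (by positivity : 0 ≤ 2 * C + 1)
          have h6 : (2 * C + 1) * (ε / (2 * C + 1)) = ε := by field_simp
          have h7 : 0 ≤ min 1 (ε / (2 * C + 1)) := by positivity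
          linarith
        linarith
    have h3 : var x t ≤ 2 * C / γ * Real.sqrt (mean e t) := by
      have h4 : var x t ≤ 2 * C * Real.sqrt (mean e t) / γ := by
        rw [le_div_iff₀ hγ]
        linarith
      refine h4.trans (le_of_eq ?_)
      ring
    linarith
  · have h1 : η1 ≤ Real.sqrt (mean e t) := Real.le_sqrt_of_sq_le hcase
    have h2 : 4 * R ^ 2 ≤ 4 * R ^ 2 / η1 * Real.sqrt (mean e t) := by
      have h3 := mul_le_mul_of_nonneg_left h1 (by positivity : 0 ≤ 4 * R ^ 2 / η1)
      have h4 : 4 * R ^ 2 / η1 * η1 = 4 * R ^ 2 := by field_simp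
      linarith
    have h5 : 0 ≤ 2 * C / γ * Real.sqrt (mean e t) := by positivity
    linarith

end Tr

end MP73203d
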