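import Pool.Agent.MP_73203d_an.TreeMain
import Pool.Agent.MP_73203d_an.QCLH

/-! MP_73203d_an: rigidity of the set `K_f` of the stationarity inclusion for laminates of
arbitrary finite order with normals in a frame, or with isotropic normals, with a constant that
does not depend on the order. -/

open MP73203d

namespace Pool.Agent.MP_73203d_an.WaveConeFramesOld

theorem result {n m : ℕ} (f : Mat n m → ℝ) (hf : ContDiff ℝ 2 f)
    (hc : StrictLH f ∨ StronglyQuasiconvex f) (R b : ℝ) :
    ∃ C : ℝ, 0 ≤ C ∧ ∀ t : Tr (State n m),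
      ((∃ β β' : Fin m → Fin m → ℝ, Dual β β' ∧ (∀ k j, |β k j| ≤ b ∧ |β' k j| ≤ b) ∧
          IsLam (InFrame β) t) ∨ IsLam Isotropic t) →
      Tr.All (fun U => ‖U‖ ≤ R) t →
      ∃ A, OnK f A ∧ Tr.mean (fun U => dist U A ^ 2) t
        ≤ C * Real.sqrt (Tr.mean (fun U => Metric.infDist U {A | OnK f A}) t) := by
  have hLH : StrictLH f := by
    rcases hc with h | h
    · exact h
    · exact strictLH_of_stronglyQuasiconvex hf h
  exact lam_rigidity hf hLH R b

end Pool.Agent.MP_73203d_an.WaveConeFramesOld
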