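import Pool.Agent.MP_73203d_an.WvLim

/-! Bounds for the waves. -/

namespace Pool.Agent.SLG.Wv

open MeasureTheory

theorem um_norm {ε : ℝ} (hε : 0 ≤ ε) (x : E2) : ‖um ε⁻¹ 0 x‖ ≤ ε := by
  rw [pi_norm_le_iff_of_nonneg hε]
  intro i
  rw [Real.norm_eq_abs]
  have hs : ∀ y, |ε * Real.sin y| ≤ ε := fun y => by
    rw [abs_mul, abs_of_nonneg hε]
    exact mul_le_of_le_one_right hε (Real.abs_sin_le_one y)
  have hcs : ∀ y, |ε * Real.cos y| ≤ ε := fun y => by
    rw [abs_mul, abs_of_nonneg hε]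
    exact mul_le_of_le_one_right hε (Real.abs_cos_le_one y)
  fin_cases i
  all_goals simp only [um, inv_inv]
  · simpa using hs _
  · simpa using hcs _
  · simpa using hs _
  · simpa using hcs _
  · simpa using hs _
  · simpa using hcs _
  · simpa using hε

theorem um_sq {N : ℝ} (hN : N ≠ 0) (x : E2) : sq (Jac (um N 0) x) = 4 := by
  have hs : sq (Jac (um N 0) x) = ∑ i : Fin 7, (Jac (um N 0) x i 0 ^ 2 + Jac (um N 0) x i 1 ^ 2) := by
    unfold sq; exact Finset.sum_congr rfl fun i _ => Fin.sum_univ_two _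
  rw [hs, Fin.sum_univ_seven, um_Jac hN]
  have h1 := Real.sin_sq_add_cos_sq (N * x 0)
  have h2 := Real.sin_sq_add_cos_sq (N * x 1)
  simp only [JW]
  simp
  set a := Real.cos (N * x 0)
  set b := Real.sin (N * x 0)
  set c := Real.cos (N * x 1)
  set d := Real.sin (N * x 1)
  linear_combination (2 * (c ^ 2 + d ^ 2)) * h1 + 3 * h2

theorem um_bound (R : ℝ) : ∃ B : ℝ, ∀ (k : ℕ) (x : E2), ‖x‖ ≤ R →
    ‖Jac (um ((k : ℝ) + 1) 1) x‖ ≤ B := by
  refine ⟨2 + 4 * |R|, fun k x hx => ?_⟩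
  have hN : ((k : ℝ) + 1) ≠ 0 := by positivity
  have hR : 0 ≤ |R| := abs_nonneg R
  have hxR : ‖x‖ ≤ |R| := hx.trans (le_abs_self R)
  have c0 : |x 0| ≤ |R| := by
    have := PiLp.norm_apply_le x 0
    rw [Real.norm_eq_abs] at this
    exact this.trans hxR
  have c1 : |x 1| ≤ |R| := by
    have := PiLp.norm_apply_le x 1
    rw [Real.norm_eq_abs] at this
    exact this.trans hxR
  rw [um_Jac hN]
  have ha := Real.abs_cos_le_one (((k : ℝ) + 1) * x 0)
  have hb := Real.abs_sin_le_one (((k : ℝ) + 1) * x 0)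
  have hc := Real.abs_cos_le_one (((k : ℝ) + 1) * x 1)
  have hd := Real.abs_sin_le_one (((k : ℝ) + 1) * x 1)
  set a := Real.cos (((k : ℝ) + 1) * x 0)
  set b := Real.sin (((k : ℝ) + 1) * x 0)
  set c := Real.cos (((k : ℝ) + 1) * x 1)
  set d := Real.sin (((k : ℝ) + 1) * x 1)
  have hac : |a * c| ≤ 1 := by
    rw [abs_mul]; exact mul_le_one₀ ha (abs_nonneg _) hc
  have hbd : |b * d| ≤ 1 := by
    rw [abs_mul]; exact mul_le_one₀ hb (abs_nonneg _) hd
  have had : |a * d| ≤ 1 := by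
    rw [abs_mul]; exact mul_le_one₀ ha (abs_nonneg _) hd
  have hbc : |b * c| ≤ 1 := by
    rw [abs_mul]; exact mul_le_one₀ hb (abs_nonneg _) hc
  rw [abs_le] at ha hb hc hd hac hbd had hbc c0 c1
  have hB : (0:ℝ) ≤ 2 + 4 * |R| := by positivity
  rw [pi_norm_le_iff_of_nonneg hB]
  intro i
  rw [pi_norm_le_iff_of_nonneg hB]
  intro j
  rw [Real.norm_eq_abs, abs_le]
  fin_cases i <;> fin_cases j
  all_goals simp only [JW]
  all_goals simp
  all_goals constructor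
  all_goals linarith [c0.1, c0.2, c1.1, c1.2, ha.1, ha.2, hb.1, hb.2, hc.1, hc.2, hd.1, hd.2,
    hac.1, hac.2, hbd.1, hbd.2, had.1, had.2, hbc.1, hbc.2]

theorem um_close (k : ℕ) (x : E2) :
    ‖um ((k : ℝ) + 1) 1 x - wl x‖ ≤ 1 / ((k : ℝ) + 1) := by
  have hN : (0:ℝ) < (k : ℝ) + 1 := by positivity
  have hN' : (0:ℝ) ≤ ((k : ℝ) + 1)⁻¹ := by positivity
  rw [one_div, pi_norm_le_iff_of_nonneg hN']
  intro i
  rw [Real.norm_eq_abs]
  have hs : ∀ y, |((k : ℝ) + 1)⁻¹ * Real.sin y| ≤ ((k : ℝ) + 1)⁻¹ := fun y => by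
    rw [abs_mul, abs_of_nonneg hN']
    exact mul_le_of_le_one_right hN' (Real.abs_sin_le_one y)
  have hcs : ∀ y, |((k : ℝ) + 1)⁻¹ * Real.cos y| ≤ ((k : ℝ) + 1)⁻¹ := fun y => by
    rw [abs_mul, abs_of_nonneg hN']
    exact mul_le_of_le_one_right hN' (Real.abs_cos_le_one y)
  fin_cases i
  all_goals simp only [um, wl]
  · simpa using hs _
  · simpa using hcs _
  · simpa using hs _
  · simpa using hcs _
  · simpa using hs _
  · simpa using hcs _
  · simpa using hN'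

end Pool.Agent.SLG.Wv
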