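import Mathlib
import Pool.Agent.SLG.Defs

/-! The strongly polyconvex integrand of `MP_73203d_an/NoWeakClosure`: definition, smoothness
and strong polyconvexity. -/

namespace Pool.Agent.SLG.Wv

open MeasureTheory

/-- `f` is strongly polyconvex: for some `γ > 0`, `f X - γ |X|²` is a convex function of `X`
and its `2 × 2` minors. -/
def StronglyPolyconvex {n : ℕ} (f : Mat n → ℝ) : Prop :=
  ∃ γ : ℝ, 0 < γ ∧ ∃ g : Mat n × (Fin n → Fin n → ℝ) → ℝ,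
    ConvexOn ℝ Set.univ g ∧ ∀ X : Mat n, f X - γ * sq X = g (X, minor X)

/-- One channel. -/
noncomputable def chan (L M O : ℝ) : ℝ := 2 * (L - 3 / 2 * M) ^ 2 + 1 / 2 * M ^ 2 + 6 * O ^ 2

/-- The quadratic form in `X` and its minors. -/
noncomputable def Gw (X : Mat 7) (m : Fin 7 → Fin 7 → ℝ) : ℝ :=
  chan (2 * X 0 0 - X 0 1) (m 2 4 - m 3 5) (X 0 1)
  + chan (2 * X 1 0 - X 1 1) (-(m 2 5 + m 3 4)) (X 1 1)
  + chan (2 * X 2 1 - X 2 0) (m 4 0 - m 5 1) (X 2 0)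
  + chan (2 * X 3 1 - X 3 0) (-(m 4 1 + m 5 0)) (X 3 0)
  + chan (-(X 4 0 + X 4 1)) (m 0 2 - m 1 3) (X 4 0 - X 4 1)
  + chan (-(X 5 0 + X 5 1)) (-(m 0 3 + m 1 2)) (X 5 0 - X 5 1)

/-- The integrand without the last row. -/
noncomputable def fw (X : Mat 7) : ℝ := Gw X (minor X)

/-- The integrand. -/
noncomputable def fI (X : Mat 7) : ℝ :=
  2 * fw X + X 6 0 ^ 2 + 1 / 2 * X 6 1 ^ 2 + Real.sqrt (1 + (X 6 0 + fw X) ^ 2)
    - Real.sqrt (1 + (X 6 0 + 3) ^ 2)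

theorem fw_contDiff : ContDiff ℝ ((⊤ : ℕ∞) : WithTop ℕ∞) fw := by
  unfold fw Gw chan minor
  fun_prop

theorem sqrt_contDiff {E : Type*} [NormedAddCommGroup E] [NormedSpace ℝ E] {h : E → ℝ}
    {k : WithTop ℕ∞} (hh : ContDiff ℝ k h) :
    ContDiff ℝ k (fun x => Real.sqrt (1 + (h x) ^ 2)) := by
  apply ContDiff.sqrt
  · fun_prop
  · intro x; positivity

theorem fI_contDiff : ContDiff ℝ ((⊤ : ℕ∞) : WithTop ℕ∞) fI := by
  unfold fI
  have h0 := fw_contDiff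
  have h1 : ContDiff ℝ ((⊤ : ℕ∞) : WithTop ℕ∞) (fun X : Mat 7 => X 6 0 + fw X) := by fun_prop
  have h2 : ContDiff ℝ ((⊤ : ℕ∞) : WithTop ℕ∞) (fun X : Mat 7 => X 6 0 + 3) := by fun_prop
  have h3 := sqrt_contDiff h1
  have h4 := sqrt_contDiff h2
  have h5 : ContDiff ℝ ((⊤ : ℕ∞) : WithTop ℕ∞) (fun X : Mat 7 => X 6 0 ^ 2) := by fun_prop
  have h6 : ContDiff ℝ ((⊤ : ℕ∞) : WithTop ℕ∞) (fun X : Mat 7 => 1 / 2 * X 6 1 ^ 2) := by
    fun_prop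
  exact ((((contDiff_const.mul h0).add h5).add h6).add h3).sub h4

/-! ### Convexity -/

theorem chan_nonneg (L M O : ℝ) : 0 ≤ chan L M O := by unfold chan; positivity

theorem chan_conv (L M O L' M' O' : ℝ) {a b : ℝ} (ha : 0 ≤ a) (hb : 0 ≤ b) (hab : a + b = 1) :
    chan (a * L + b * L') (a * M + b * M') (a * O + b * O') ≤ a * chan L M O + b * chan L' M' O' := by
  have h := mul_nonneg (mul_nonneg ha hb) (chan_nonneg (L - L') (M - M') (O - O'))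
  have hb' : b = 1 - a := by linarith
  subst hb'
  have e : a * chan L M O + (1 - a) * chan L' M' O'
      - chan (a * L + (1 - a) * L') (a * M + (1 - a) * M') (a * O + (1 - a) * O')
      = a * (1 - a) * chan (L - L') (M - M') (O - O') := by
    unfold chan; ring
  linarith

/-- Channel with the margin, first kind. -/
noncomputable def chA (x y M : ℝ) : ℝ := chan (2 * x - y) M y - 1 / 10 * (x ^ 2 + y ^ 2)

/-- Channel with the margin, second kind. -/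
noncomputable def chB (x y M : ℝ) : ℝ := chan (-(x + y)) M (x - y) - 1 / 10 * (x ^ 2 + y ^ 2)

theorem chA_nonneg (x y M : ℝ) : 0 ≤ chA x y M := by
  unfold chA chan
  nlinarith [sq_nonneg (M - 3 / 5 * (2 * x - y)), sq_nonneg (2 * x - y), sq_nonneg (2 * x - 2 * y),
    sq_nonneg x, sq_nonneg y]

theorem chB_nonneg (x y M : ℝ) : 0 ≤ chB x y M := by
  unfold chB chan
  nlinarith [sq_nonneg (M + 3 / 5 * (x + y)), sq_nonneg (x + y), sq_nonneg (x - y),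
    sq_nonneg x, sq_nonneg y]

theorem chA_conv (x y M x' y' M' : ℝ) {a b : ℝ} (ha : 0 ≤ a) (hb : 0 ≤ b) (hab : a + b = 1) :
    chA (a * x + b * x') (a * y + b * y') (a * M + b * M') ≤ a * chA x y M + b * chA x' y' M' := by
  have h := mul_nonneg (mul_nonneg ha hb) (chA_nonneg (x - x') (y - y') (M - M'))
  have hb' : b = 1 - a := by linarith
  subst hb'
  have e : a * chA x y M + (1 - a) * chA x' y' M'
      - chA (a * x + (1 - a) * x') (a * y + (1 - a) * y') (a * M + (1 - a) * M')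
      = a * (1 - a) * chA (x - x') (y - y') (M - M') := by
    unfold chA chan; ring
  linarith

theorem chB_conv (x y M x' y' M' : ℝ) {a b : ℝ} (ha : 0 ≤ a) (hb : 0 ≤ b) (hab : a + b = 1) :
    chB (a * x + b * x') (a * y + b * y') (a * M + b * M') ≤ a * chB x y M + b * chB x' y' M' := by
  have h := mul_nonneg (mul_nonneg ha hb) (chB_nonneg (x - x') (y - y') (M - M'))
  have hb' : b = 1 - a := by linarith
  subst hb'
  have e : a * chB x y M + (1 - a) * chB x' y' M'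
      - chB (a * x + (1 - a) * x') (a * y + (1 - a) * y') (a * M + (1 - a) * M')
      = a * (1 - a) * chB (x - x') (y - y') (M - M') := by
    unfold chB chan; ring
  linarith

theorem Gw_conv (X X' : Mat 7) (m m' : Fin 7 → Fin 7 → ℝ) {a b : ℝ} (ha : 0 ≤ a) (hb : 0 ≤ b)
    (hab : a + b = 1) :
    Gw (a • X + b • X') (a • m + b • m') ≤ a * Gw X m + b * Gw X' m' := by
  have h1 := chan_conv (2 * X 0 0 - X 0 1) (m 2 4 - m 3 5) (X 0 1)
    (2 * X' 0 0 - X' 0 1) (m' 2 4 - m' 3 5) (X' 0 1) ha hb hab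
  have h2 := chan_conv (2 * X 1 0 - X 1 1) (-(m 2 5 + m 3 4)) (X 1 1)
    (2 * X' 1 0 - X' 1 1) (-(m' 2 5 + m' 3 4)) (X' 1 1) ha hb hab
  have h3 := chan_conv (2 * X 2 1 - X 2 0) (m 4 0 - m 5 1) (X 2 0)
    (2 * X' 2 1 - X' 2 0) (m' 4 0 - m' 5 1) (X' 2 0) ha hb hab
  have h4 := chan_conv (2 * X 3 1 - X 3 0) (-(m 4 1 + m 5 0)) (X 3 0)
    (2 * X' 3 1 - X' 3 0) (-(m' 4 1 + m' 5 0)) (X' 3 0) ha hb hab
  have h5 := chan_conv (-(X 4 0 + X 4 1)) (m 0 2 - m 1 3) (X 4 0 - X 4 1)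
    (-(X' 4 0 + X' 4 1)) (m' 0 2 - m' 1 3) (X' 4 0 - X' 4 1) ha hb hab
  have h6 := chan_conv (-(X 5 0 + X 5 1)) (-(m 0 3 + m 1 2)) (X 5 0 - X 5 1)
    (-(X' 5 0 + X' 5 1)) (-(m' 0 3 + m' 1 2)) (X' 5 0 - X' 5 1) ha hb hab
  unfold Gw
  simp only [Pi.add_apply, Pi.smul_apply, smul_eq_mul]
  ring_nf at h1 h2 h3 h4 h5 h6 ⊢
  linarith


theorem sqrt_pair (s t : ℝ) :
    1 + s * t ≤ Real.sqrt (1 + s ^ 2) * Real.sqrt (1 + t ^ 2) := by
  rw [← Real.sqrt_mul (by positivity)]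
  apply Real.le_sqrt_of_sq_le
  nlinarith [sq_nonneg (s - t)]

theorem sqrt_conv (s t : ℝ) {a b : ℝ} (ha : 0 ≤ a) (hb : 0 ≤ b) (hab : a + b = 1) :
    Real.sqrt (1 + (a * s + b * t) ^ 2) ≤ a * Real.sqrt (1 + s ^ 2) + b * Real.sqrt (1 + t ^ 2) := by
  have hpq := sqrt_pair s t
  set p := Real.sqrt (1 + s ^ 2) with hp
  set q := Real.sqrt (1 + t ^ 2) with hq
  have hp2 : p ^ 2 = 1 + s ^ 2 := Real.sq_sqrt (by positivity)
  have hq2 : q ^ 2 = 1 + t ^ 2 := Real.sq_sqrt (by positivity)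
  have hp0 : 0 ≤ p := Real.sqrt_nonneg _
  have hq0 : 0 ≤ q := Real.sqrt_nonneg _
  apply Real.sqrt_le_iff.mpr
  refine ⟨by positivity, ?_⟩
  have hb' : b = 1 - a := by linarith
  subst hb'
  have e1 : (a * p + (1 - a) * q) ^ 2 - (1 + (a * s + (1 - a) * t) ^ 2)
      = 2 * (a * (1 - a) * (p * q - (1 + s * t))) := by
    have : (a * p + (1 - a) * q) ^ 2
        = a ^ 2 * p ^ 2 + (1 - a) ^ 2 * q ^ 2 + 2 * (a * (1 - a)) * (p * q) := by ring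
    rw [this, hp2, hq2]; ring
  have h2 := mul_nonneg (mul_nonneg ha hb) (sub_nonneg.mpr hpq)
  linarith

/-- `t ^ 2 / 2 - √(1 + t ^ 2)` is convex. -/
theorem sqrt_semi (s t : ℝ) {a b : ℝ} (ha : 0 ≤ a) (hb : 0 ≤ b) (hab : a + b = 1) :
    1 / 2 * (a * s + b * t) ^ 2 - Real.sqrt (1 + (a * s + b * t) ^ 2) ≤
      a * (1 / 2 * s ^ 2 - Real.sqrt (1 + s ^ 2)) + b * (1 / 2 * t ^ 2 - Real.sqrt (1 + t ^ 2)) := by
  have hb' : b = 1 - a := by linarith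
  subst hb'
  set p := Real.sqrt (1 + s ^ 2) with hp
  set q := Real.sqrt (1 + t ^ 2) with hq
  set r := Real.sqrt (1 + (a * s + (1 - a) * t) ^ 2) with hr
  have hp2 : p ^ 2 = 1 + s ^ 2 := Real.sq_sqrt (by positivity)
  have hq2 : q ^ 2 = 1 + t ^ 2 := Real.sq_sqrt (by positivity)
  have hr2 : r ^ 2 = 1 + (a * s + (1 - a) * t) ^ 2 := Real.sq_sqrt (by positivity)
  have hp1 : 1 ≤ p := by rw [hp]; apply Real.one_le_sqrt.mpr; nlinarith [sq_nonneg s]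
  have hq1 : 1 ≤ q := by rw [hq]; apply Real.one_le_sqrt.mpr; nlinarith [sq_nonneg t]
  have hr1 : 1 ≤ r := by
    rw [hr]; apply Real.one_le_sqrt.mpr; nlinarith [sq_nonneg (a * s + (1 - a) * t)]
  have hc := sqrt_conv s t ha hb hab
  rw [← hp, ← hq, ← hr] at hc
  -- (a p + b q - r) (a p + b q + r) = 2 a b (p q - 1 - s t) ≤ a b (s - t)²
  have hab2 : 0 ≤ a * (1 - a) := mul_nonneg ha hb
  have e1 : (a * p + (1 - a) * q) ^ 2 - r ^ 2 = 2 * (a * (1 - a)) * (p * q - 1 - s * t) := by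
    rw [hr2]
    have : (a * p + (1 - a) * q) ^ 2 = a ^ 2 * p ^ 2 + (1 - a) ^ 2 * q ^ 2 + 2 * (a * (1 - a)) * (p * q) := by
      ring
    rw [this, hp2, hq2]; ring
  have e2 : p * q - 1 - s * t ≤ 1 / 2 * (s - t) ^ 2 := by nlinarith [sq_nonneg (p - q)]
  have e3 : (a * p + (1 - a) * q) ^ 2 - r ^ 2 ≤ a * (1 - a) * (s - t) ^ 2 := by
    rw [e1]; nlinarith
  have e4 : 2 * (a * p + (1 - a) * q - r) ≤ a * (1 - a) * (s - t) ^ 2 := by
    have h5 : (1:ℝ) ≤ a * p + (1 - a) * q := by nlinarith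
    have h6 : 0 ≤ a * p + (1 - a) * q - r := by linarith
    nlinarith
  nlinarith

theorem theta_mono {s t : ℝ} (h : s ≤ t) :
    s + Real.sqrt (1 + s ^ 2) ≤ t + Real.sqrt (1 + t ^ 2) := by
  set q := Real.sqrt (1 + t ^ 2) with hq
  have hq2 : q ^ 2 = 1 + t ^ 2 := Real.sq_sqrt (by positivity)
  have hq0 : 0 ≤ q := Real.sqrt_nonneg _
  have h1 : Real.sqrt (1 + s ^ 2) ≤ q + (t - s) := by
    apply Real.sqrt_le_iff.mpr
    refine ⟨by linarith, ?_⟩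
    have h2 : 0 ≤ t + q := by nlinarith [Real.abs_le_sqrt (show t ^ 2 ≤ 1 + t ^ 2 by linarith), neg_abs_le t]
    nlinarith [mul_nonneg (sub_nonneg.mpr h) h2]
  linarith

/-- The convex function of `X` and its minors. -/
noncomputable def gI (p : Mat 7 × (Fin 7 → Fin 7 → ℝ)) : ℝ :=
  (p.1 6 0 + Gw p.1 p.2) + Real.sqrt (1 + (p.1 6 0 + Gw p.1 p.2) ^ 2)
  + (chA (p.1 0 0) (p.1 0 1) (p.2 2 4 - p.2 3 5)
    + chA (p.1 1 0) (p.1 1 1) (-(p.2 2 5 + p.2 3 4))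
    + chA (p.1 2 1) (p.1 2 0) (p.2 4 0 - p.2 5 1)
    + chA (p.1 3 1) (p.1 3 0) (-(p.2 4 1 + p.2 5 0))
    + chB (p.1 4 0) (p.1 4 1) (p.2 0 2 - p.2 1 3)
    + chB (p.1 5 0) (p.1 5 1) (-(p.2 0 3 + p.2 1 2)))
  + (2 / 5 * p.1 6 0 ^ 2 - 4 * p.1 6 0 - 9 / 2 + 1 / 2 * (p.1 6 0 + 3) ^ 2
      - Real.sqrt (1 + (p.1 6 0 + 3) ^ 2))
  + 2 / 5 * p.1 6 1 ^ 2

theorem gI_conv : ConvexOn ℝ Set.univ gI := by
  refine ⟨convex_univ, ?_⟩
  rintro ⟨X, m⟩ - ⟨X', m'⟩ - a b ha hb hab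
  have hG := Gw_conv X X' m m' ha hb hab
  set T := X 6 0 + Gw X m with hT
  set T' := X' 6 0 + Gw X' m' with hT'
  have h0 : (a • X + b • X') 6 0 + Gw (a • X + b • X') (a • m + b • m') ≤ a * T + b * T' := by
    have : (a • X + b • X') 6 0 = a * X 6 0 + b * X' 6 0 := by simp
    rw [this, hT, hT']; linarith
  have h1 := theta_mono h0
  have h2 := sqrt_conv T T' ha hb hab
  have c1 := chA_conv (X 0 0) (X 0 1) (m 2 4 - m 3 5) (X' 0 0) (X' 0 1) (m' 2 4 - m' 3 5) ha hb hab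
  have c2 := chA_conv (X 1 0) (X 1 1) (-(m 2 5 + m 3 4)) (X' 1 0) (X' 1 1) (-(m' 2 5 + m' 3 4)) ha hb hab
  have c3 := chA_conv (X 2 1) (X 2 0) (m 4 0 - m 5 1) (X' 2 1) (X' 2 0) (m' 4 0 - m' 5 1) ha hb hab
  have c4 := chA_conv (X 3 1) (X 3 0) (-(m 4 1 + m 5 0)) (X' 3 1) (X' 3 0) (-(m' 4 1 + m' 5 0)) ha hb hab
  have c5 := chB_conv (X 4 0) (X 4 1) (m 0 2 - m 1 3) (X' 4 0) (X' 4 1) (m' 0 2 - m' 1 3) ha hb hab
  have c6 := chB_conv (X 5 0) (X 5 1) (-(m 0 3 + m 1 2)) (X' 5 0) (X' 5 1) (-(m' 0 3 + m' 1 2)) ha hb hab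
  have h3 := sqrt_semi (X 6 0 + 3) (X' 6 0 + 3) ha hb hab
  have h4 : (a * X 6 0 + b * X' 6 0) ^ 2 ≤ a * X 6 0 ^ 2 + b * X' 6 0 ^ 2 := by
    have hb' : b = 1 - a := by linarith
    subst hb'
    nlinarith [mul_nonneg (mul_nonneg ha hb) (sq_nonneg (X 6 0 - X' 6 0))]
  have h5 : (a * X 6 1 + b * X' 6 1) ^ 2 ≤ a * X 6 1 ^ 2 + b * X' 6 1 ^ 2 := by
    have hb' : b = 1 - a := by linarith
    subst hb'
    nlinarith [mul_nonneg (mul_nonneg ha hb) (sq_nonneg (X 6 1 - X' 6 1))]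
  have e3 : a * (X 6 0 + 3) + b * (X' 6 0 + 3) = a * X 6 0 + b * X' 6 0 + 3 := by
    linear_combination 3 * hab
  rw [e3] at h3
  have e5 : m = fun p q => m p q := rfl
  simp only [smul_eq_mul]
  unfold gI
  simp only [Prod.smul_mk, Prod.mk_add_mk]
  rw [← hT, ← hT']
  have r1 : ∀ p q, (a • m + b • m') p q = a * m p q + b * m' p q := fun p q => by simp
  have r2 : ∀ p q, (a • X + b • X') p q = a * X p q + b * X' p q := fun p q => by simp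
  have k1 : a * m 2 4 + b * m' 2 4 - (a * m 3 5 + b * m' 3 5) = a * (m 2 4 - m 3 5) + b * (m' 2 4 - m' 3 5) := by ring
  have k2 : -(a * m 2 5 + b * m' 2 5 + (a * m 3 4 + b * m' 3 4)) = a * (-(m 2 5 + m 3 4)) + b * (-(m' 2 5 + m' 3 4)) := by ring
  have k3 : a * m 4 0 + b * m' 4 0 - (a * m 5 1 + b * m' 5 1) = a * (m 4 0 - m 5 1) + b * (m' 4 0 - m' 5 1) := by ring
  have k4 : -(a * m 4 1 + b * m' 4 1 + (a * m 5 0 + b * m' 5 0)) = a * (-(m 4 1 + m 5 0)) + b * (-(m' 4 1 + m' 5 0)) := by ring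
  have k5 : a * m 0 2 + b * m' 0 2 - (a * m 1 3 + b * m' 1 3) = a * (m 0 2 - m 1 3) + b * (m' 0 2 - m' 1 3) := by ring
  have k6 : -(a * m 0 3 + b * m' 0 3 + (a * m 1 2 + b * m' 1 2)) = a * (-(m 0 3 + m 1 2)) + b * (-(m' 0 3 + m' 1 2)) := by ring
  rw [r2 6 0] at h1 ⊢
  simp only [r1, r2, k1, k2, k3, k4, k5, k6]
  linarith [h1, h2, c1, c2, c3, c4, c5, c6, h3, h4, h5]

theorem fI_spc : StronglyPolyconvex fI := by
  refine ⟨1 / 10, by norm_num, gI, gI_conv, fun X => ?_⟩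
  unfold gI fI
  have hs : sq X = ∑ i : Fin 7, (X i 0 ^ 2 + X i 1 ^ 2) := by
    unfold sq; exact Finset.sum_congr rfl fun i _ => Fin.sum_univ_two _
  rw [hs, Fin.sum_univ_seven]
  have h : fw X = chan (2 * X 0 0 - X 0 1) (minor X 2 4 - minor X 3 5) (X 0 1)
      + chan (2 * X 1 0 - X 1 1) (-(minor X 2 5 + minor X 3 4)) (X 1 1)
      + chan (2 * X 2 1 - X 2 0) (minor X 4 0 - minor X 5 1) (X 2 0)
      + chan (2 * X 3 1 - X 3 0) (-(minor X 4 1 + minor X 5 0)) (X 3 0)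
      + chan (-(X 4 0 + X 4 1)) (minor X 0 2 - minor X 1 3) (X 4 0 - X 4 1)
      + chan (-(X 5 0 + X 5 1)) (-(minor X 0 3 + minor X 1 2)) (X 5 0 - X 5 1) := rfl
  have h' : Gw X (minor X) = fw X := rfl
  simp only [h']
  unfold chA chB
  linarith [h]

end Pool.Agent.SLG.Wv
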