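import Pool.Agent.MP_73203d_an.WvDefs

/-! Derivatives of the integrand along lines. -/

namespace Pool.Agent.SLG.Wv

open MeasureTheory

theorem chan_deriv (L L' M δ m2 O O' : ℝ) :
    HasDerivAt (fun t : ℝ => chan (L + t * L') (M + t * δ + t ^ 2 * m2) (O + t * O'))
      (4 * (L - 3 / 2 * M) * (L' - 3 / 2 * δ) + M * δ + 12 * O * O') 0 := by
  have hid := hasDerivAt_id (0:ℝ)
  have h1 : HasDerivAt (fun t : ℝ => L + t * L') L' 0 := by
    simpa using (hid.mul_const L').const_add L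
  have h2 : HasDerivAt (fun t : ℝ => M + t * δ + t ^ 2 * m2) δ 0 := by
    have := ((hid.mul_const δ).const_add M).add ((hid.pow 2).mul_const m2)
    exact this.congr_deriv (by simp)
  have h3 : HasDerivAt (fun t : ℝ => O + t * O') O' 0 := by
    simpa using (hid.mul_const O').const_add O
  have h4 := (((h1.sub (h2.const_mul (3 / 2))).pow 2).const_mul 2).add
    (((h2.pow 2).const_mul (1 / 2)))
  have h5 := h4.add ((h3.pow 2).const_mul 6)
  unfold chan
  refine h5.congr_deriv ?_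
  simp
  ring

/-- The bilinear form of a minor. -/
noncomputable def dm (X H : Mat 7) (p q : Fin 7) : ℝ :=
  X p 0 * H q 1 + H p 0 * X q 1 - X p 1 * H q 0 - H p 1 * X q 0

/-- One term of the derivative. -/
noncomputable def dch (L L' M δ O O' : ℝ) : ℝ :=
  4 * (L - 3 / 2 * M) * (L' - 3 / 2 * δ) + M * δ + 12 * O * O'

/-- The derivative of `fw`. -/
noncomputable def dfw (X H : Mat 7) : ℝ :=
  dch (2 * X 0 0 - X 0 1) (2 * H 0 0 - H 0 1) (minor X 2 4 - minor X 3 5) (dm X H 2 4 - dm X H 3 5)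
    (X 0 1) (H 0 1)
  + dch (2 * X 1 0 - X 1 1) (2 * H 1 0 - H 1 1) (-(minor X 2 5 + minor X 3 4))
    (-(dm X H 2 5 + dm X H 3 4)) (X 1 1) (H 1 1)
  + dch (2 * X 2 1 - X 2 0) (2 * H 2 1 - H 2 0) (minor X 4 0 - minor X 5 1)
    (dm X H 4 0 - dm X H 5 1) (X 2 0) (H 2 0)
  + dch (2 * X 3 1 - X 3 0) (2 * H 3 1 - H 3 0) (-(minor X 4 1 + minor X 5 0))
    (-(dm X H 4 1 + dm X H 5 0)) (X 3 0) (H 3 0)
  + dch (-(X 4 0 + X 4 1)) (-(H 4 0 + H 4 1)) (minor X 0 2 - minor X 1 3)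
    (dm X H 0 2 - dm X H 1 3) (X 4 0 - X 4 1) (H 4 0 - H 4 1)
  + dch (-(X 5 0 + X 5 1)) (-(H 5 0 + H 5 1)) (-(minor X 0 3 + minor X 1 2))
    (-(dm X H 0 3 + dm X H 1 2)) (X 5 0 - X 5 1) (H 5 0 - H 5 1)

theorem fw_deriv (X H : Mat 7) : HasDerivAt (fun t : ℝ => fw (X + t • H)) (dfw X H) 0 := by
  have h1 := chan_deriv (2 * X 0 0 - X 0 1) (2 * H 0 0 - H 0 1) (minor X 2 4 - minor X 3 5)
    (dm X H 2 4 - dm X H 3 5) (minor H 2 4 - minor H 3 5) (X 0 1) (H 0 1)
  have h2 := chan_deriv (2 * X 1 0 - X 1 1) (2 * H 1 0 - H 1 1) (-(minor X 2 5 + minor X 3 4))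
    (-(dm X H 2 5 + dm X H 3 4)) (-(minor H 2 5 + minor H 3 4)) (X 1 1) (H 1 1)
  have h3 := chan_deriv (2 * X 2 1 - X 2 0) (2 * H 2 1 - H 2 0) (minor X 4 0 - minor X 5 1)
    (dm X H 4 0 - dm X H 5 1) (minor H 4 0 - minor H 5 1) (X 2 0) (H 2 0)
  have h4 := chan_deriv (2 * X 3 1 - X 3 0) (2 * H 3 1 - H 3 0) (-(minor X 4 1 + minor X 5 0))
    (-(dm X H 4 1 + dm X H 5 0)) (-(minor H 4 1 + minor H 5 0)) (X 3 0) (H 3 0)
  have h5 := chan_deriv (-(X 4 0 + X 4 1)) (-(H 4 0 + H 4 1)) (minor X 0 2 - minor X 1 3)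
    (dm X H 0 2 - dm X H 1 3) (minor H 0 2 - minor H 1 3) (X 4 0 - X 4 1) (H 4 0 - H 4 1)
  have h6 := chan_deriv (-(X 5 0 + X 5 1)) (-(H 5 0 + H 5 1)) (-(minor X 0 3 + minor X 1 2))
    (-(dm X H 0 3 + dm X H 1 2)) (-(minor H 0 3 + minor H 1 2)) (X 5 0 - X 5 1) (H 5 0 - H 5 1)
  have h := ((((h1.add h2).add h3).add h4).add h5).add h6
  refine (h.congr_of_eventuallyEq ?_).congr_deriv ?_
  · refine Filter.Eventually.of_forall fun t => ?_
    simp only [fw, Gw, Pi.add_apply]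
    congr 1
    · congr 1
      · congr 1
        · congr 1
          · congr 1
            all_goals
              congr 1 <;>
              · simp only [minor, dm, Pi.add_apply, Pi.smul_apply, smul_eq_mul]
                ring
          · congr 1 <;>
            · simp only [minor, dm, Pi.add_apply, Pi.smul_apply, smul_eq_mul]
              ring
        · congr 1 <;>
          · simp only [minor, dm, Pi.add_apply, Pi.smul_apply, smul_eq_mul]
            ring
      · congr 1 <;>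
        · simp only [minor, dm, Pi.add_apply, Pi.smul_apply, smul_eq_mul]
          ring
    · congr 1 <;>
      · simp only [minor, dm, Pi.add_apply, Pi.smul_apply, smul_eq_mul]
        ring
  · simp only [dfw, dch]

/-- The Jacobian matrix of the wave, with last row `(p, q)`. -/
noncomputable def JW (a b c d p q : ℝ) : Mat 7 :=
  ![![a, 0], ![b, 0], ![0, c], ![0, d], ![-(a * c - b * d), -(a * c - b * d)],
    ![a * d + b * c, a * d + b * c], ![p, q]]

theorem JW_vals {a b c d : ℝ} (p q : ℝ) (h1 : a ^ 2 + b ^ 2 = 1) (h2 : c ^ 2 + d ^ 2 = 1) :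
    minor (JW a b c d p q) 2 4 - minor (JW a b c d p q) 3 5 = a ∧
    -(minor (JW a b c d p q) 2 5 + minor (JW a b c d p q) 3 4) = b ∧
    minor (JW a b c d p q) 4 0 - minor (JW a b c d p q) 5 1 = c ∧
    -(minor (JW a b c d p q) 4 1 + minor (JW a b c d p q) 5 0) = d ∧
    minor (JW a b c d p q) 0 2 - minor (JW a b c d p q) 1 3 = a * c - b * d ∧
    -(minor (JW a b c d p q) 0 3 + minor (JW a b c d p q) 1 2) = -(a * d + b * c) := by
  simp only [minor, JW]
  refine ⟨?_, ?_, ?_, ?_, ?_, ?_⟩ <;> simp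
  · linear_combination a * h2
  · linear_combination b * h2
  · linear_combination c * h1
  · linear_combination d * h1

theorem fw_JW {a b c d : ℝ} (p q : ℝ) (h1 : a ^ 2 + b ^ 2 = 1) (h2 : c ^ 2 + d ^ 2 = 1) :
    fw (JW a b c d p q) = 3 := by
  obtain ⟨e1, e2, e3, e4, e5, e6⟩ := JW_vals p q h1 h2
  unfold fw Gw
  rw [e1, e2, e3, e4, e5, e6]
  simp only [JW, chan]
  simp
  linear_combination (1 + c ^ 2 + d ^ 2) * h1 + 2 * h2

theorem dfw_JW {a b c d : ℝ} (p q : ℝ) (h1 : a ^ 2 + b ^ 2 = 1) (h2 : c ^ 2 + d ^ 2 = 1)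
    (H : Mat 7) : dfw (JW a b c d p q) H = 0 := by
  obtain ⟨e1, e2, e3, e4, e5, e6⟩ := JW_vals p q h1 h2
  unfold dfw
  rw [e1, e2, e3, e4, e5, e6]
  simp only [JW, dch, dm]
  simp
  linear_combination (2 * c * H 2 0 - 4 * c * H 2 1 + 2 * d * H 3 0 - 4 * d * H 3 1) * h1
    + (-4 * a * H 0 0 + 2 * a * H 0 1 - 4 * b * H 1 0 + 2 * b * H 1 1) * h2


theorem fw_zero (p q : ℝ) : fw (JW 0 0 0 0 p q) = 0 := by
  unfold fw Gw
  simp only [JW, chan, minor]
  simp

theorem dfw_zero (p q : ℝ) (H : Mat 7) : dfw (JW 0 0 0 0 p q) H = 0 := by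
  unfold dfw
  simp only [JW, dch, dm, minor]
  simp

/-- Derivative of `√(1 + s²)` along a curve. -/
theorem sqrt_deriv {s : ℝ → ℝ} {s0 s' : ℝ} (h : HasDerivAt s s' 0) (h0 : s 0 = s0) :
    HasDerivAt (fun t => Real.sqrt (1 + (s t) ^ 2)) (s0 / Real.sqrt (1 + s0 ^ 2) * s') 0 := by
  have h1 : HasDerivAt (fun t => 1 + (s t) ^ 2) (2 * s0 * s') 0 := by
    have := (h.pow 2).const_add 1
    exact this.congr_deriv (by rw [h0]; simp)
  have h2 := h1.sqrt (by positivity)
  refine h2.congr_deriv ?_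
  rw [h0]
  have : Real.sqrt (1 + s0 ^ 2) ≠ 0 := by positivity
  field_simp

/-- Derivative of the integrand along a line, at a matrix where `fw` has zero derivative. -/
theorem fI_deriv {X H : Mat 7} {P : ℝ} (hP : fw X = P) (hd : dfw X H = 0) :
    fderiv ℝ fI X H = 2 * X 6 0 * H 6 0 + X 6 1 * H 6 1
      + ((X 6 0 + P) / Real.sqrt (1 + (X 6 0 + P) ^ 2)
        - (X 6 0 + 3) / Real.sqrt (1 + (X 6 0 + 3) ^ 2)) * H 6 0 := by
  have hid := hasDerivAt_id (0:ℝ)
  have hf : DifferentiableAt ℝ fI X := (fI_contDiff.differentiable (by simp)) X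
  have hl : HasDerivAt (fun t : ℝ => X + t • H) H 0 := by
    have := (hid.smul_const H).const_add X
    exact this.congr_deriv (by simp)
  have h1 : HasDerivAt (fun t : ℝ => fI (X + t • H)) (fderiv ℝ fI X H) 0 := by
    have h2 : HasFDerivAt fI (fderiv ℝ fI X) ((fun t : ℝ => X + t • H) 0) := by
      simpa using hf.hasFDerivAt
    exact h2.comp_hasDerivAt (0:ℝ) hl
  have g0 : HasDerivAt (fun t : ℝ => fw (X + t • H)) 0 0 := by
    have := fw_deriv X H
    rwa [hd] at this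
  have c0 : ∀ i j, HasDerivAt (fun t : ℝ => (X + t • H) i j) (H i j) 0 := by
    intro i j
    have := (hid.mul_const (H i j)).const_add (X i j)
    refine (this.congr_deriv (by simp)).congr_of_eventuallyEq ?_
    exact Filter.Eventually.of_forall fun t => by simp
  have s1 := sqrt_deriv (s := fun t : ℝ => (X + t • H) 6 0 + fw (X + t • H)) (s0 := X 6 0 + P)
    ((c0 6 0).add g0) (by simp [hP])
  have s2 := sqrt_deriv (s := fun t : ℝ => (X + t • H) 6 0 + 3) (s0 := X 6 0 + 3)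
    ((c0 6 0).add_const 3) (by simp)
  have k1 : HasDerivAt (fun t : ℝ => ((X + t • H) 6 0) ^ 2) (2 * X 6 0 * H 6 0) 0 := by
    have := (c0 6 0).pow 2
    exact this.congr_deriv (by simp)
  have k2 : HasDerivAt (fun t : ℝ => 1 / 2 * ((X + t • H) 6 1) ^ 2) (X 6 1 * H 6 1) 0 := by
    have := ((c0 6 1).pow 2).const_mul (1 / 2)
    exact this.congr_deriv (by simp; ring)
  have k := ((((g0.const_mul 2).add k1).add k2).add s1).sub s2
  have h3 := h1.unique k
  rw [h3]
  ring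


theorem single_apply (i k : Fin 7) (j l : Fin 2) :
    (Pi.single i (Pi.single j (1:ℝ)) : Mat 7) k l = if k = i ∧ l = j then 1 else 0 := by
  by_cases h : k = i
  · subst h
    by_cases h2 : l = j
    · subst h2; simp
    · simp [h2]
  · simp [h]

/-- Gradient of the integrand. -/
theorem Grd_fI {X : Mat 7} {P : ℝ} (hP : fw X = P) (hd : ∀ H, dfw X H = 0) (i : Fin 7)
    (j : Fin 2) :
    Grd fI X i j = if i = 6 then (if j = 0 then 2 * X 6 0
      + ((X 6 0 + P) / Real.sqrt (1 + (X 6 0 + P) ^ 2)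
        - (X 6 0 + 3) / Real.sqrt (1 + (X 6 0 + 3) ^ 2)) else X 6 1) else 0 := by
  unfold Grd
  rw [fI_deriv hP (hd _), single_apply, single_apply]
  by_cases hi : i = 6
  · subst hi
    fin_cases j <;> simp
  · have : ¬ ((6 : Fin 7) = i) := fun h => hi h.symm
    simp [this, hi]

end Pool.Agent.SLG.Wv
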