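import Pool.Agent.MP_73203d_an.WvStat

/-! The limit map is not a weak solution. -/

namespace Pool.Agent.SLG.Wv

open MeasureTheory

/-- `u` is critical for outer variations of `∫_Ω f(Du)`: a weak solution of
`div Df(Du) = 0`. -/
def OuterCritical {n : ℕ} (f : Mat n → ℝ) (Ω : Set E2) (u : E2 → Fin n → ℝ) : Prop :=
  ∀ φ : E2 → Fin n → ℝ, ContDiff ℝ ((⊤ : ℕ∞) : WithTop ℕ∞) φ → HasCompactSupport φ →
    tsupport φ ⊆ Ω → ∫ x in Ω, ∑ i, ∑ j, Grd f (Jac u x) i j * Jac φ x i j = 0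

theorem div_sqrt_smooth {E : Type*} [NormedAddCommGroup E] [NormedSpace ℝ E] {h : E → ℝ}
    (hh : Sm h) : Sm (fun x => h x / Real.sqrt (1 + (h x) ^ 2)) := by
  unfold Sm
  apply ContDiff.div hh (sqrt_contDiff hh)
  intro x; positivity

theorem div_sqrt_deriv {s : ℝ → ℝ} {s0 s' : ℝ} (h : HasDerivAt s s' 0) (h0 : s 0 = s0) :
    HasDerivAt (fun t => s t / Real.sqrt (1 + (s t) ^ 2)) (s' / Real.sqrt (1 + s0 ^ 2) ^ 3) 0 := by
  have h1 := sqrt_deriv h h0
  have hp : 0 < Real.sqrt (1 + s0 ^ 2) := by positivity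
  have h2 := h.div h1 (by rw [h0]; positivity)
  refine h2.congr_deriv ?_
  rw [h0]
  have h3 : Real.sqrt (1 + s0 ^ 2) ^ 2 = 1 + s0 ^ 2 := Real.sq_sqrt (by positivity)
  set r := Real.sqrt (1 + s0 ^ 2) with hr
  field_simp
  rw [h3]; ring

/-- The components of `Df(Dw)`. -/
noncomputable def V0 (x : E2) : ℝ :=
  4 * x 0 + (2 * x 0 / Real.sqrt (1 + (2 * x 0) ^ 2)
    - (2 * x 0 + 3) / Real.sqrt (1 + (2 * x 0 + 3) ^ 2))

noncomputable def V1 (x : E2) : ℝ := -(4 * x 1)

theorem V0_smooth : Sm V0 := by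
  unfold V0
  have h1 : Sm (fun x : E2 => 2 * x 0) := by unfold Sm; fun_prop
  have h2 : Sm (fun x : E2 => 2 * x 0 + 3) := by unfold Sm; fun_prop
  have h3 : Sm (fun x : E2 => 4 * x 0) := by unfold Sm; fun_prop
  exact h3.add ((div_sqrt_smooth h1).sub (div_sqrt_smooth h2))

theorem V1_smooth : Sm V1 := by unfold V1 Sm; fun_prop

theorem pd_V0 (x : E2) : pd 0 V0 x = 4 + (2 / Real.sqrt (1 + (2 * x 0) ^ 2) ^ 3
    - 2 / Real.sqrt (1 + (2 * x 0 + 3) ^ 2) ^ 3) := by
  apply pd_eq V0_smooth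
  have c0 := coord_deriv x (ee 0) 0
  have e : (ee 0) 0 = 1 := by simp [ee]
  rw [e] at c0
  have c2 : HasDerivAt (fun t : ℝ => 2 * (x + t • ee 0) 0) 2 0 := by
    simpa using c0.const_mul 2
  have c4 : HasDerivAt (fun t : ℝ => 4 * (x + t • ee 0) 0) 4 0 := by
    simpa using c0.const_mul 4
  have c3 : HasDerivAt (fun t : ℝ => 2 * (x + t • ee 0) 0 + 3) 2 0 := c2.add_const 3
  have d1 := div_sqrt_deriv c2 (s0 := 2 * x 0) (by simp)
  have d2 := div_sqrt_deriv c3 (s0 := 2 * x 0 + 3) (by simp)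
  exact c4.add (d1.sub d2)

theorem pd_V1 (x : E2) : pd 1 V1 x = -4 := by
  apply pd_eq V1_smooth
  exact (((coord_deriv x (ee 1) 1).const_mul 4).neg).congr_deriv (by simp [ee])

theorem Grd_wl (x : E2) (i : Fin 7) (j : Fin 2) :
    Grd fI (Jac wl x) i j = if i = 6 then (if j = 0 then V0 x else V1 x) else 0 := by
  rw [wl_Jac, Grd_fI (fw_zero _ _) (fun H => dfw_zero _ _ H)]
  have e0 : JW 0 0 0 0 (2 * x 0) (-(4 * x 1)) 6 0 = 2 * x 0 := by simp [JW]
  have e1 : JW 0 0 0 0 (2 * x 0) (-(4 * x 1)) 6 1 = -(4 * x 1) := by simp [JW]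
  rw [e0, e1]
  by_cases hi : i = 6
  · rw [if_pos hi, if_pos hi]
    by_cases hj : j = 0
    · rw [if_pos hj, if_pos hj]; unfold V0; rw [add_zero]; ring
    · rw [if_neg hj, if_neg hj]; rfl
  · rw [if_neg hi, if_neg hi]

theorem wl_div {Ω : Set E2} (hΩ : IsOpen Ω) (h : OuterCritical fI Ω wl) :
    ∀ x ∈ Ω, pd 0 V0 x + pd 1 V1 x = 0 := by
  have hcont : Continuous (fun x => pd 0 V0 x + pd 1 V1 x) :=
    (pd_cont V0_smooth 0).add (pd_cont V1_smooth 1)
  have hae : ∀ᵐ x ∂(volume : Measure E2), x ∈ Ω → pd 0 V0 x + pd 1 V1 x = 0 := by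
    refine hΩ.ae_eq_zero_of_integral_contDiff_smul_eq_zero
      (hcont.locallyIntegrable.locallyIntegrableOn Ω) ?_
    intro g hg hc hs
    -- the vector test function
    set φ : E2 → Fin 7 → ℝ := fun x i => if i = 6 then g x else 0 with hφ
    have hφs : Sm φ := by
      apply contDiff_pi.mpr
      intro i
      by_cases hi : i = 6
      · simp only [hφ, if_pos hi]; exact hg
      · simp only [hφ, if_neg hi]; exact contDiff_const
    have hφ0 : ∀ x, g x = 0 → φ x = 0 := by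
      intro x hx; funext i; simp [hφ, hx]
    have hsupp : Function.support φ ⊆ Function.support g := by
      intro x hx hgx
      exact hx (hφ0 x hgx)
    have hts : tsupport φ ⊆ tsupport g := closure_mono hsupp
    have hφc : HasCompactSupport φ := hc.mono' (hsupp.trans subset_closure)
    have h1 := h φ hφs hφc (hts.trans hs)
    have h6 : (fun y => φ y 6) = g := by funext y; simp [hφ]
    have e1 : ∀ x, ∑ i, ∑ j, Grd fI (Jac wl x) i j * Jac φ x i j
        = V0 x * pd 0 g x + V1 x * pd 1 g x := by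
      intro x
      rw [sum_last _ (fun i j hi => by rw [Grd_wl, if_neg hi, zero_mul])]
      rw [Grd_wl, Grd_wl, if_pos rfl, if_pos rfl, if_pos rfl, if_neg (by decide),
        Jac_apply hφs, Jac_apply hφs, h6]
    simp only [e1] at h1
    rw [setIntegral_eq_integral_of_forall_compl_eq_zero] at h1
    · have hg' : Sm g := hg
      rw [integral_add (int_mul V0_smooth.continuous (pd_cont hg' 0) (pd_compact hc 0))
        (int_mul V1_smooth.continuous (pd_cont hg' 1) (pd_compact hc 1)), parts V0_smooth hg' hc,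
        parts V1_smooth hg' hc, ← neg_add,
        ← integral_add (int_mul (pd_cont V0_smooth 0) hg'.continuous hc)
        (int_mul (pd_cont V1_smooth 1) hg'.continuous hc)] at h1
      have h2 := neg_eq_zero.mp h1
      rw [← h2]
      refine integral_congr_ae (Filter.Eventually.of_forall fun x => ?_)
      simp only [smul_eq_mul]
      ring
    · intro x hx
      have hxs : x ∉ tsupport g := fun h => hx (hs h)
      have hz : fderiv ℝ g x = 0 := by
        have := (support_fderiv_subset ℝ (f := g))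
        by_contra hne
        exact hxs (this hne)
      simp [pd, hz]
  -- continuity
  intro x hx
  by_contra hne
  have hopen : IsOpen (Ω ∩ {y | pd 0 V0 y + pd 1 V1 y ≠ 0}) :=
    hΩ.inter (isOpen_ne_fun hcont continuous_const)
  have hpos := hopen.measure_pos (volume : Measure E2) ⟨x, hx, hne⟩
  have hnull : volume (Ω ∩ {y | pd 0 V0 y + pd 1 V1 y ≠ 0}) = 0 := by
    refine measure_mono_null ?_ (ae_iff.mp hae)
    intro y hy
    simp only [Set.mem_setOf_eq]
    exact fun hh => hy.2 (hh hy.1)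
  exact absurd hnull hpos.ne'

theorem wl_not {Ω : Set E2} (hΩ : IsOpen Ω) (hne : Ω.Nonempty) : ¬ OuterCritical fI Ω wl := by
  intro h
  have hd := wl_div hΩ h
  have key : ∀ x ∈ Ω, x 0 = -(3 / 4) := by
    intro x hx
    have h1 := hd x hx
    rw [pd_V0, pd_V1] at h1
    have hp : 0 < Real.sqrt (1 + (2 * x 0) ^ 2) := by positivity
    have hq : 0 < Real.sqrt (1 + (2 * x 0 + 3) ^ 2) := by positivity
    have h2 : 2 / Real.sqrt (1 + (2 * x 0) ^ 2) ^ 3 = 2 / Real.sqrt (1 + (2 * x 0 + 3) ^ 2) ^ 3 := by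
      linarith
    rw [div_eq_div_iff (by positivity) (by positivity)] at h2
    have h3 : Real.sqrt (1 + (2 * x 0 + 3) ^ 2) ^ 3 = Real.sqrt (1 + (2 * x 0) ^ 2) ^ 3 := by
      linarith
    have h4 : Real.sqrt (1 + (2 * x 0 + 3) ^ 2) = Real.sqrt (1 + (2 * x 0) ^ 2) :=
      (pow_left_inj₀ hq.le hp.le (by norm_num)).mp h3
    have h5 := congrArg (fun t => t ^ 2) h4
    simp only at h5
    rw [Real.sq_sqrt (by positivity), Real.sq_sqrt (by positivity)] at h5
    linarith
  obtain ⟨x, hx⟩ := hne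
  have hc : Continuous (fun t : ℝ => x + t • ee 0) := by fun_prop
  have hev : ∀ᶠ t in nhds (0:ℝ), x + t • ee 0 ∈ Ω := by
    have : (fun t : ℝ => x + t • ee 0) 0 ∈ Ω := by simpa using hx
    exact hc.continuousAt.eventually (hΩ.mem_nhds this)
  have hev2 : ∀ᶠ t in nhds (0:ℝ), t = 0 := by
    filter_upwards [hev] with t ht
    have h1 := key _ ht
    have h2 := key _ hx
    have h3 : (x + t • ee 0) 0 = x 0 + t := by simp [ee]
    linarith
  have h4 : ({0} : Set ℝ) ∈ nhds (0:ℝ) := by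
    filter_upwards [hev2] with t ht
    exact ht
  have h5 : IsOpen ({0} : Set ℝ) := by
    rw [isOpen_iff_mem_nhds]; rintro y rfl; exact h4
  exact not_isOpen_singleton (0:ℝ) h5

end Pool.Agent.SLG.Wv
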