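import Pool.Agent.MP_73203d_an.WvU

/-! Stationarity of the waves. -/

namespace Pool.Agent.SLG.Wv

open MeasureTheory

theorem pd_cont {g : E2 → ℝ} (hg : Sm g) (j : Fin 2) : Continuous (pd j g) := by
  unfold pd
  have h1 : Continuous (fderiv ℝ g) := hg.continuous_fderiv (by simp)
  exact h1.clm_apply continuous_const

theorem pd_compact {g : E2 → ℝ} (hc : HasCompactSupport g) (j : Fin 2) :
    HasCompactSupport (pd j g) := by
  unfold pd
  exact (hc.fderiv ℝ).comp_left (g := fun L : E2 →L[ℝ] ℝ => L (ee j)) (by simp)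

theorem int_mul {V g : E2 → ℝ} (hV : Continuous V) (hg : Continuous g)
    (hc : HasCompactSupport g) : Integrable (fun x => V x * g x) :=
  (hV.mul hg).integrable_of_hasCompactSupport hc.mul_left

/-- Integration by parts. -/
theorem parts {V φ : E2 → ℝ} (hV : Sm V) (hφ : Sm φ) (hc : HasCompactSupport φ) (j : Fin 2) :
    ∫ x, V x * pd j φ x = -∫ x, pd j V x * φ x := by
  have h := integral_mul_fderiv_eq_neg_fderiv_mul_of_integrable (μ := (volume : Measure E2))
    (f := V) (g := φ) (v := ee j) ?_ ?_ ?_ ?_ ?_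
  · exact h
  · exact int_mul (pd_cont hV j) hφ.continuous hc
  · exact int_mul hV.continuous (pd_cont hφ j) (pd_compact hc j)
  · exact int_mul hV.continuous hφ.continuous hc
  · exact fun x _ => (hV.differentiable (by simp)) x
  · exact fun x _ => (hφ.differentiable (by simp)) x

/-- Divergence-free fields. -/
theorem div_free {V0 V1 φ : E2 → ℝ} (h0 : Sm V0) (h1 : Sm V1) (hφ : Sm φ)
    (hc : HasCompactSupport φ) (hd : ∀ x, pd 0 V0 x + pd 1 V1 x = 0) :
    ∫ x, (V0 x * pd 0 φ x + V1 x * pd 1 φ x) = 0 := by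
  rw [integral_add (int_mul h0.continuous (pd_cont hφ 0) (pd_compact hc 0))
    (int_mul h1.continuous (pd_cont hφ 1) (pd_compact hc 1)), parts h0 hφ hc, parts h1 hφ hc,
    ← neg_add, ← integral_add (int_mul (pd_cont h0 0) hφ.continuous hc)
    (int_mul (pd_cont h1 1) hφ.continuous hc)]
  have : (fun x => pd 0 V0 x * φ x + pd 1 V1 x * φ x) = fun _ => (0:ℝ) := by
    funext x; rw [← add_mul, hd x, zero_mul]
  rw [this]; simp

/-- Line derivative of scalar functions. -/
theorem pd_eq {g : E2 → ℝ} (hg : Sm g) (x : E2) (j : Fin 2) {D : ℝ}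
    (h : HasDerivAt (fun t : ℝ => g (x + t • ee j)) D 0) : pd j g x = D := by
  have hid := hasDerivAt_id (0:ℝ)
  have hf : DifferentiableAt ℝ g x := (hg.differentiable (by simp)) x
  have hl : HasDerivAt (fun t : ℝ => x + t • ee j) (ee j) 0 := by
    have := (hid.smul_const (ee j)).const_add x
    exact this.congr_deriv (by simp)
  have h2 : HasFDerivAt g (fderiv ℝ g x) ((fun t : ℝ => x + t • ee j) 0) := by
    simpa using hf.hasFDerivAt
  exact (h2.comp_hasDerivAt (0:ℝ) hl).unique h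

theorem Jac_apply {n : ℕ} {u : E2 → Fin n → ℝ} (hu : Sm u) (x : E2) (i : Fin n) (j : Fin 2) :
    Jac u x i j = pd j (fun y => u y i) x := by
  unfold Jac pd
  have hf : DifferentiableAt ℝ u x := (hu.differentiable (by simp)) x
  have h1 := hasFDerivAt_pi'.mp hf.hasFDerivAt i
  rw [h1.fderiv]
  rfl

/-- A component of a smooth compactly supported map. -/
theorem comp_smooth {n : ℕ} {u : E2 → Fin n → ℝ} (hu : Sm u) (i : Fin n) :
    Sm (fun y => u y i) := contDiff_pi.mp hu i

theorem comp_compact {n : ℕ} {u : E2 → Fin n → ℝ} (hc : HasCompactSupport u) (i : Fin n) :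
    HasCompactSupport (fun y => u y i) :=
  hc.comp_left (g := fun v : Fin n → ℝ => v i) (by simp)

/-- Values of the integrand and of its gradient on the waves. -/
theorem fI_wave {N : ℝ} (hN : N ≠ 0) (s : ℝ) (x : E2) :
    fI (Jac (um N s) x) = 6 + (2 * s * x 0) ^ 2 + 1 / 2 * (4 * s * x 1) ^ 2 := by
  rw [um_Jac hN]
  unfold fI
  rw [fw_JW _ _ (by rw [add_comm]; exact Real.sin_sq_add_cos_sq _)
    (by rw [add_comm]; exact Real.sin_sq_add_cos_sq _)]
  simp [JW]
  ring

theorem Grd_wave {N : ℝ} (hN : N ≠ 0) (s : ℝ) (x : E2) (i : Fin 7) (j : Fin 2) :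
    Grd fI (Jac (um N s) x) i j
      = if i = 6 then (if j = 0 then 4 * s * x 0 else -(4 * s * x 1)) else 0 := by
  rw [um_Jac hN]
  rw [Grd_fI (fw_JW _ _ (by rw [add_comm]; exact Real.sin_sq_add_cos_sq _)
    (by rw [add_comm]; exact Real.sin_sq_add_cos_sq _)) (fun H => dfw_JW _ _
      (by rw [add_comm]; exact Real.sin_sq_add_cos_sq _)
      (by rw [add_comm]; exact Real.sin_sq_add_cos_sq _) H)]
  have e0 : JW (Real.cos (N * x 0)) (Real.sin (N * x 0)) (Real.cos (N * x 1))
      (Real.sin (N * x 1)) (2 * s * x 0) (-(4 * s * x 1)) 6 0 = 2 * s * x 0 := by simp [JW]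
  have e1 : JW (Real.cos (N * x 0)) (Real.sin (N * x 0)) (Real.cos (N * x 1))
      (Real.sin (N * x 1)) (2 * s * x 0) (-(4 * s * x 1)) 6 1 = -(4 * s * x 1) := by simp [JW]
  rw [e0, e1]
  by_cases hi : i = 6
  · rw [if_pos hi, if_pos hi]
    by_cases hj : j = 0
    · rw [if_pos hj, if_pos hj]; ring
    · rw [if_neg hj, if_neg hj]
  · rw [if_neg hi, if_neg hi]

theorem sum_last (F : Fin 7 → Fin 2 → ℝ) (h : ∀ i j, i ≠ 6 → F i j = 0) :
    ∑ i, ∑ j, F i j = F 6 0 + F 6 1 := by
  rw [Finset.sum_eq_single (6 : Fin 7)]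
  · exact Fin.sum_univ_two _
  · intro i _ hi
    exact Finset.sum_eq_zero fun j _ => h i j hi
  · simp

theorem um_stationary {N : ℝ} (hN : N ≠ 0) (s : ℝ) : Stationary fI Set.univ (um N s) := by
  refine ⟨?_, ?_⟩
  · intro φ hφ hc _
    rw [setIntegral_univ]
    have hφ6 := comp_smooth hφ 6
    have hc6 := comp_compact hc 6
    have h := div_free (V0 := fun x => 4 * s * x 0) (V1 := fun x => -(4 * s * x 1))
      (by unfold Sm; fun_prop) (by unfold Sm; fun_prop) hφ6 hc6 ?_
    · rw [← h]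
      refine integral_congr_ae (Filter.Eventually.of_forall fun x => ?_)
      simp only
      rw [sum_last _ (fun i j hi => by rw [Grd_wave hN, if_neg hi, zero_mul])]
      rw [Grd_wave hN, Grd_wave hN, if_pos rfl, if_pos rfl, if_pos rfl, if_neg (by decide),
        Jac_apply hφ, Jac_apply hφ]
    · intro x
      rw [pd_eq (D := 4 * s) (by unfold Sm; fun_prop) x 0 ?_,
        pd_eq (D := -(4 * s)) (by unfold Sm; fun_prop) x 1 ?_]
      · ring
      · exact (((coord_deriv x (ee 1) 1).const_mul (4 * s)).neg).congr_deriv (by simp [ee])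
      · exact ((coord_deriv x (ee 0) 0).const_mul (4 * s)).congr_deriv (by simp [ee])
  · intro Φ hΦ hc _
    rw [setIntegral_univ]
    have hΦ0 := comp_smooth hΦ 0
    have hc0 := comp_compact hc 0
    have hΦ1 := comp_smooth hΦ 1
    have hc1 := comp_compact hc 1
    have sA : Sm (fun x : E2 => 6 - 4 * s ^ 2 * x 0 ^ 2 + 8 * s ^ 2 * x 1 ^ 2) := by
      unfold Sm; fun_prop
    have sB : Sm (fun x : E2 => 8 * s ^ 2 * (x 0 * x 1)) := by unfold Sm; fun_prop
    have sC : Sm (fun x : E2 => 16 * s ^ 2 * (x 0 * x 1)) := by unfold Sm; fun_prop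
    have sD : Sm (fun x : E2 => 6 + 4 * s ^ 2 * x 0 ^ 2 - 8 * s ^ 2 * x 1 ^ 2) := by
      unfold Sm; fun_prop
    have h0 := div_free sA sB hΦ0 hc0 ?_
    have h1 := div_free sC sD hΦ1 hc1 ?_
    · have hi0 : Integrable (fun x : E2 => (6 - 4 * s ^ 2 * x 0 ^ 2 + 8 * s ^ 2 * x 1 ^ 2)
          * pd 0 (fun y => Φ y 0) x + 8 * s ^ 2 * (x 0 * x 1) * pd 1 (fun y => Φ y 0) x) :=
        (int_mul sA.continuous (pd_cont hΦ0 0) (pd_compact hc0 0)).add
          (int_mul sB.continuous (pd_cont hΦ0 1) (pd_compact hc0 1))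
      have hi1 : Integrable (fun x : E2 => 16 * s ^ 2 * (x 0 * x 1)
          * pd 0 (fun y => Φ y 1) x + (6 + 4 * s ^ 2 * x 0 ^ 2 - 8 * s ^ 2 * x 1 ^ 2)
            * pd 1 (fun y => Φ y 1) x) :=
        (int_mul sC.continuous (pd_cont hΦ1 0) (pd_compact hc1 0)).add
          (int_mul sD.continuous (pd_cont hΦ1 1) (pd_compact hc1 1))
      have h2 := integral_add hi0 hi1
      rw [h0, h1, add_zero] at h2
      rw [← h2]
      refine integral_congr_ae (Filter.Eventually.of_forall fun x => ?_)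
      simp only
      rw [sum_last _ (fun i j hi => by rw [Grd_wave hN, if_neg hi, zero_mul])]
      rw [Grd_wave hN, Grd_wave hN, if_pos rfl, if_pos rfl, if_pos rfl, if_neg (by decide),
        fI_wave hN, Fin.sum_univ_two, Fin.sum_univ_two, Fin.sum_univ_two, um_Jac hN,
        Jac_apply hΦ, Jac_apply hΦ, Jac_apply hΦ, Jac_apply hΦ]
      simp only [JW]
      simp
      ring
    · intro x
      rw [pd_eq (D := 16 * s ^ 2 * x 1) sC x 0 ?_, pd_eq (D := -(16 * s ^ 2 * x 1)) sD x 1 ?_]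
      · ring
      · exact (((((coord_deriv x (ee 1) 0).pow 2).const_mul (4 * s ^ 2)).const_add 6).sub
          (((coord_deriv x (ee 1) 1).pow 2).const_mul (8 * s ^ 2))).congr_deriv (by simp [ee]; ring)
      · exact (((coord_deriv x (ee 0) 0).mul (coord_deriv x (ee 0) 1)).const_mul
          (16 * s ^ 2)).congr_deriv (by simp [ee])
    · intro x
      rw [pd_eq (D := -(8 * s ^ 2 * x 0)) sA x 0 ?_, pd_eq (D := 8 * s ^ 2 * x 0) sB x 1 ?_]
      · ring
      · exact (((coord_deriv x (ee 1) 0).mul (coord_deriv x (ee 1) 1)).const_mul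
          (8 * s ^ 2)).congr_deriv (by simp [ee])
      · exact (((((coord_deriv x (ee 0) 0).pow 2).const_mul (4 * s ^ 2)).const_sub 6).add
          (((coord_deriv x (ee 0) 1).pow 2).const_mul (8 * s ^ 2))).congr_deriv (by simp [ee]; ring)

end Pool.Agent.SLG.Wv
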