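import Pool.Agent.MP_73203d_an.WvF

/-! The stationary maps: Jacobian matrices. -/

namespace Pool.Agent.SLG.Wv

open MeasureTheory

/-- Smooth. -/
abbrev Sm {E F : Type*} [NormedAddCommGroup E] [NormedSpace ℝ E] [NormedAddCommGroup F]
    [NormedSpace ℝ F] (g : E → F) : Prop := ContDiff ℝ ((⊤ : ℕ∞) : WithTop ℕ∞) g

/-- The waves. -/
noncomputable def um (N s : ℝ) (x : E2) : Fin 7 → ℝ :=
  ![N⁻¹ * Real.sin (N * x 0), -(N⁻¹ * Real.cos (N * x 0)),
    N⁻¹ * Real.sin (N * x 1), -(N⁻¹ * Real.cos (N * x 1)),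
    -(N⁻¹ * Real.sin (N * (x 0 + x 1))), -(N⁻¹ * Real.cos (N * (x 0 + x 1))),
    s * (x 0 ^ 2 - 2 * x 1 ^ 2)]

/-- The limit map. -/
noncomputable def wl (x : E2) : Fin 7 → ℝ := ![0, 0, 0, 0, 0, 0, x 0 ^ 2 - 2 * x 1 ^ 2]

theorem um_smooth (N s : ℝ) : Sm (um N s) := by
  apply contDiff_pi.mpr
  intro i
  fin_cases i
  all_goals simp only [um]
  all_goals simp
  all_goals fun_prop

theorem wl_smooth : Sm wl := by
  apply contDiff_pi.mpr
  intro i
  fin_cases i
  all_goals simp only [wl]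
  all_goals simp
  all_goals fun_prop

theorem line_deriv {u : E2 → Fin 7 → ℝ} (hu : Sm u) (x v : E2) (i : Fin 7) :
    HasDerivAt (fun t : ℝ => u (x + t • v) i) (fderiv ℝ u x v i) 0 := by
  have hid := hasDerivAt_id (0:ℝ)
  have hf : DifferentiableAt ℝ u x := (hu.differentiable (by simp)) x
  have hl : HasDerivAt (fun t : ℝ => x + t • v) v 0 := by
    have := (hid.smul_const v).const_add x
    exact this.congr_deriv (by simp)
  have h2 : HasFDerivAt u (fderiv ℝ u x) ((fun t : ℝ => x + t • v) 0) := by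
    simpa using hf.hasFDerivAt
  have h1 := h2.comp_hasDerivAt (0:ℝ) hl
  exact (hasDerivAt_pi.mp h1) i

theorem coord_deriv (x v : E2) (i : Fin 2) :
    HasDerivAt (fun t : ℝ => (x + t • v) i) (v i) 0 := by
  have hid := hasDerivAt_id (0:ℝ)
  have := (hid.mul_const (v i)).const_add (x i)
  refine (this.congr_deriv (by simp)).congr_of_eventuallyEq ?_
  exact Filter.Eventually.of_forall fun t => by simp

theorem um_fderiv {N : ℝ} (hN : N ≠ 0) (s : ℝ) (x v : E2) :
    fderiv ℝ (um N s) x v =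
      ![Real.cos (N * x 0) * v 0, Real.sin (N * x 0) * v 0,
        Real.cos (N * x 1) * v 1, Real.sin (N * x 1) * v 1,
        -(Real.cos (N * (x 0 + x 1)) * (v 0 + v 1)), Real.sin (N * (x 0 + x 1)) * (v 0 + v 1),
        s * (2 * x 0 * v 0 - 4 * x 1 * v 1)] := by
  have c0 := coord_deriv x v 0
  have c1 := coord_deriv x v 1
  have c2 := (c0.const_mul N)
  have c3 := (c1.const_mul N)
  have c4 := ((c0.add c1).const_mul N)
  funext i
  have h := line_deriv (um_smooth N s) x v i
  fin_cases i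
  · refine h.unique ((c2.sin.const_mul N⁻¹).congr_deriv ?_)
    simp; field_simp
  · refine h.unique ((c2.cos.const_mul N⁻¹).neg.congr_deriv ?_)
    simp; field_simp
  · refine h.unique ((c3.sin.const_mul N⁻¹).congr_deriv ?_)
    simp; field_simp
  · refine h.unique ((c3.cos.const_mul N⁻¹).neg.congr_deriv ?_)
    simp; field_simp
  · refine h.unique ((c4.sin.const_mul N⁻¹).neg.congr_deriv ?_)
    simp; field_simp
  · refine h.unique ((c4.cos.const_mul N⁻¹).neg.congr_deriv ?_)
    simp; field_simp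
  · refine h.unique ((((c0.pow 2).sub ((c1.pow 2).const_mul 2)).const_mul s).congr_deriv ?_)
    simp [-mul_eq_mul_left_iff]; ring

theorem wl_fderiv (x v : E2) :
    fderiv ℝ wl x v = ![0, 0, 0, 0, 0, 0, 2 * x 0 * v 0 - 4 * x 1 * v 1] := by
  have c0 := coord_deriv x v 0
  have c1 := coord_deriv x v 1
  funext i
  have h := line_deriv wl_smooth x v i
  fin_cases i
  · exact h.unique (hasDerivAt_const _ _)
  · exact h.unique (hasDerivAt_const _ _)
  · exact h.unique (hasDerivAt_const _ _)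
  · exact h.unique (hasDerivAt_const _ _)
  · exact h.unique (hasDerivAt_const _ _)
  · exact h.unique (hasDerivAt_const _ _)
  · refine h.unique (((c0.pow 2).sub ((c1.pow 2).const_mul 2)).congr_deriv ?_)
    simp; ring

theorem um_Jac {N : ℝ} (hN : N ≠ 0) (s : ℝ) (x : E2) :
    Jac (um N s) x = JW (Real.cos (N * x 0)) (Real.sin (N * x 0)) (Real.cos (N * x 1))
      (Real.sin (N * x 1)) (2 * s * x 0) (-(4 * s * x 1)) := by
  have e4 : Real.cos (N * (x 0 + x 1)) = Real.cos (N * x 0) * Real.cos (N * x 1)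
      - Real.sin (N * x 0) * Real.sin (N * x 1) := by rw [mul_add, Real.cos_add]
  have e5 : Real.sin (N * (x 0 + x 1)) = Real.sin (N * x 0) * Real.cos (N * x 1)
      + Real.cos (N * x 0) * Real.sin (N * x 1) := by rw [mul_add, Real.sin_add]
  funext i j
  unfold Jac
  rw [um_fderiv hN]
  fin_cases i <;> fin_cases j <;> simp [JW, ee, e4, e5] <;> ring

theorem wl_Jac (x : E2) : Jac wl x = JW 0 0 0 0 (2 * x 0) (-(4 * x 1)) := by
  funext i j
  unfold Jac
  rw [wl_fderiv]
  fin_cases i <;> fin_cases j <;> simp [JW, ee]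

end Pool.Agent.SLG.Wv
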